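import Pool.Agent.U100.FP.Mat
import Pool.Agent.U725.OM.Full2

/-!
# Abstract Lie algebras of period matrices of a 1-motive plus another motive

Adapted from `Pool.Agent.U725.OM.Full` and `Full2` (helper725): the Lie algebra is an abstract family, so that
it can be intersected with conditions on the last block.
-/

set_option autoImplicit false
set_option linter.unusedSectionVars false

open Matrix

namespace Pool.Agent.U100.FP

open Pool.Agent.U725.OM (M2 b4 b3 der_of_mem mem_of_der exists_der ratio_mem exists_rat mem_of_fixed full prop_of_row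
  mulVec_two fin2 exists_ann)
open Pool.Agent.TH127.PT Pool.Agent.TH119.MX Pool.Agent.TH119.DR Pool.Agent.Y123.ST

variable {ρ : ℕ} {I ν : Type} [Fintype I] [DecidableEq I] [Fintype ν] [DecidableEq ν]
variable {P Q : I → Fin ρ} {k : ℂ} {K : Subfield ℂ}

/-- A family of elements `(A, Y, t, V)` of the Lie algebra which is closed under all operations and contains the
logarithmic derivatives of the period matrix, and the arithmetic information about the periods. -/
structure Alg (K : Subfield ℂ) (P Q : I → Fin ρ) (k : ℂ)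
    (L : M2 → (Fin ρ → Fin 2 → ℂ) → (I → ℂ) → Matrix ν ν ℂ → Prop) (Ω : M2) (τ : ℂ)
    (U : Fin ρ → Fin 2 → ℂ) (N₀ : Matrix ν ν ℂ) : Prop where
  hK : ∀ x, x ∈ K ↔ IsAlgebraic ℚ x
  k0 : k ≠ 0
  kK : k ∈ K
  τK : τ ∉ K
  det : Ω 0 0 * Ω 1 1 - Ω 0 1 * Ω 1 0 = k * τ
  /-- linear forms in periods and integrals of one differential of the second kind -/
  ell : ∀ σ r : ℂ, σ ∈ K → r ∈ K → (σ ≠ 0 ∨ r ≠ 0) → ∀ (lam : Fin ρ → ℂ) (γ : Fin 2 → ℂ),
    (∀ j, lam j ∈ K) → (∀ a, γ a ∈ K) →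
    ∑ j, lam j * (σ * U j 1 + r * U j 0) + ∑ a, γ a * (σ * Ω a 1 + r * Ω a 0) ∈ K →
    lam = 0 ∧ γ = 0
  inj : ∀ e e' : I, (P e = P e' ∧ Q e = Q e') ∨ (P e = Q e' ∧ Q e = P e') → e = e'
  zero : L 0 0 0 0
  add : ∀ {A A' : M2} {Y Y' : Fin ρ → Fin 2 → ℂ} {t t' : I → ℂ} {V V' : Matrix ν ν ℂ},
    L A Y t V → L A' Y' t' V' → L (A + A') (Y + Y') (t + t') (V + V')
  smul : ∀ (s : ℂ) {A : M2} {Y : Fin ρ → Fin 2 → ℂ} {t : I → ℂ} {V : Matrix ν ν ℂ},
    L A Y t V → L (s • A) (s • Y) (s • t) (s • V)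
  br : ∀ {A A' : M2} {Y Y' : Fin ρ → Fin 2 → ℂ} {t t' : I → ℂ} {V V' : Matrix ν ν ℂ},
    L A Y t V → L A' Y' t' V' → L (A * A' - A' * A)
        (fun j b => (Y j 0 * A' 0 b + Y j 1 * A' 1 b) - (Y' j 0 * A 0 b + Y' j 1 * A 1 b))
        (fun e => t e * (A' 0 0 + A' 1 1) + k * (Y (P e) 1 * Y' (Q e) 0 - Y (P e) 0 * Y' (Q e) 1) -
          (t' e * (A 0 0 + A 1 1) + k * (Y' (P e) 1 * Y (Q e) 0 - Y' (P e) 0 * Y (Q e) 1)))
        (V * V' - V' * V)
  aut : ∀ {σ : ℂ ≃+* ℂ}, (∀ x ∈ K, σ x = x) → ∀ {A : M2} {Y : Fin ρ → Fin 2 → ℂ} {t : I → ℂ}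
    {V : Matrix ν ν ℂ}, L A Y t V →
    L (A.map σ) (fun j b => σ (Y j b)) (fun e => σ (t e)) (V.map σ)
  logd : ∀ D : Derivation K ℂ ℂ, ∃ (A : M2) (Y : Fin ρ → Fin 2 → ℂ) (t : I → ℂ) (V : Matrix ν ν ℂ),
    L A Y t V ∧ (∀ a c, A a 0 * Ω 0 c + A a 1 * Ω 1 c = D (Ω a c)) ∧
      (∀ j c, Y j 0 * Ω 0 c + Y j 1 * Ω 1 c = D (U j c)) ∧ (A 0 0 + A 1 1) * τ = D τ ∧
      V * N₀ = N₀.map D

section Alg

variable {L : M2 → (Fin ρ → Fin 2 → ℂ) → (I → ℂ) → Matrix ν ν ℂ → Prop} {Ω : M2} {τ : ℂ}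
  {U : Fin ρ → Fin 2 → ℂ} {N₀ : Matrix ν ν ℂ} (h : Alg K P Q k L Ω τ U N₀)

include h

theorem Alg.τ0 : τ ≠ 0 := fun h0 => h.τK (by rw [h0]; exact K.zero_mem)

theorem Alg.sub {A A' : M2} {Y Y' : Fin ρ → Fin 2 → ℂ} {t t' : I → ℂ} {V V' : Matrix ν ν ℂ}
    (h1 : L A Y t V) (h2 : L A' Y' t' V') : L (A - A') (Y - Y') (t - t') (V - V') := by
  have h3 := h.add h1 (h.smul (-1) h2)
  simpa only [neg_one_smul, ← sub_eq_add_neg] using h3

/-- the projection of the Lie algebra -/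
def Alg.proj (h : Alg K P Q k L Ω τ U N₀) : Submodule ℂ M2 where
  carrier := {A | ∃ Y t V, L A Y t V}
  zero_mem' := ⟨0, 0, 0, h.zero⟩
  add_mem' := by
    rintro A A' ⟨Y, t, z, h1⟩ ⟨Y', t', z', h2⟩
    exact ⟨_, _, _, h.add h1 h2⟩
  smul_mem' := by
    rintro c A ⟨Y, t, z, h1⟩
    exact ⟨_, _, _, h.smul c h1⟩

/-- one linear form in the periods -/
theorem Alg.two (σ r : ℂ) (hσ : σ ∈ K) (hr : r ∈ K) (h0 : σ ≠ 0 ∨ r ≠ 0) (x y : ℂ) (hx : x ∈ K)
    (hy : y ∈ K) (hxy : x * (σ * Ω 0 1 + r * Ω 0 0) + y * (σ * Ω 1 1 + r * Ω 1 0) = 0) :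
    x = 0 ∧ y = 0 := by
  have h1 := h.ell σ r hσ hr h0 0 ![x, y] (fun _ => K.zero_mem) (by
    intro a
    fin_cases a
    · exact hx
    · exact hy) (by
    simp only [Pi.zero_apply, zero_mul, Finset.sum_const_zero, zero_add, Fin.sum_univ_two,
      Matrix.cons_val_zero, Matrix.cons_val_one, hxy]
    exact K.zero_mem)
  exact ⟨by simpa using congrFun h1.2 0, by simpa using congrFun h1.2 1⟩

theorem Alg.exists_nonscalar : ∃ A ∈ h.proj, ∀ c : ℂ, A ≠ c • (1 : M2) := by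
  by_contra hcon
  push Not at hcon
  have h10 : Ω 1 0 ≠ 0 := by
    intro h0
    have := (h.two 0 1 K.zero_mem K.one_mem (Or.inr one_ne_zero) 0 1 K.zero_mem K.one_mem (by
      rw [h0]; ring)).2
    exact one_ne_zero this
  obtain ⟨β, hβ, hβ'⟩ := ratio_mem h.hK (x := Ω 0 0) h10 (by
    intro D
    obtain ⟨A, Y, t, z, h1, h2, -⟩ := h.logd D
    obtain ⟨c, hc⟩ := hcon A ⟨Y, t, z, h1⟩
    rw [← h2, ← h2, hc]
    simp
    ring)
  have := (h.two 0 1 K.zero_mem K.one_mem (Or.inr one_ne_zero) 1 (-β) K.one_mem (K.neg_mem hβ) (by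
    rw [hβ']; ring)).1
  exact one_ne_zero this

theorem Alg.proj_aut {σ : ℂ ≃+* ℂ} (hσ : ∀ x ∈ K, σ x = x) {A : M2} (hA : A ∈ h.proj) :
    A.map σ ∈ h.proj := by
  obtain ⟨Y, t, z, h1⟩ := hA
  exact ⟨_, _, _, h.aut hσ h1⟩

theorem Alg.exists_rat_nonscalar : ∃ A ∈ h.proj, (∀ a c, A a c ∈ K) ∧ ∀ c : ℂ, A ≠ c • (1 : M2) := by
  obtain ⟨A, hA, hAs⟩ := h.exists_nonscalar
  let W : Submodule ℂ (Fin 2 × Fin 2 → ℂ) :=
    { carrier := {w | um w ∈ h.proj}
      zero_mem' := by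
        change um 0 ∈ h.proj
        rw [um_zero]
        exact Submodule.zero_mem _
      add_mem' := by
        intro v w hv hw
        change um (v + w) ∈ h.proj
        rw [um_add]
        exact Submodule.add_mem _ hv hw
      smul_mem' := by
        intro c v hv
        change um (c • v) ∈ h.proj
        rw [um_smul]
        exact Submodule.smul_mem _ _ hv }
  have hW : ∀ σ : ℂ ≃+* ℂ, (∀ x ∈ K, σ x = x) → ∀ v ∈ W, (fun i => σ (v i)) ∈ W := by
    intro σ hσ v hv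
    exact h.proj_aut hσ hv
  have hAW : fl A ∈ W := by
    change um (fl A) ∈ h.proj
    rw [um_fl]
    exact hA
  have key : ∀ f : (Fin 2 × Fin 2 → ℂ) →ₗ[ℂ] ℂ, f (fl A) ≠ 0 →
      (∀ B : M2, (∃ c : ℂ, B = c • (1 : M2)) → f (fl B) = 0) →
      ∃ A ∈ h.proj, (∀ a c, A a c ∈ K) ∧ ∀ c : ℂ, A ≠ c • (1 : M2) := by
    intro f hf hf'
    obtain ⟨w, hw, hwK, hfw⟩ := exists_rat W hW f ⟨fl A, hAW, hf⟩
    refine ⟨um w, hw, fun a c => hwK (a, c), fun c hc => hfw ?_⟩
    have := hf' (um w) ⟨c, hc⟩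
    rwa [fl_um] at this
  by_cases h01 : A 0 1 = 0
  · by_cases h10 : A 1 0 = 0
    · by_cases h00 : A 0 0 = A 1 1
      · exfalso
        apply hAs (A 0 0)
        ext i j
        fin_cases i <;> fin_cases j <;> simp [h01, h10, h00]
      · refine key ((LinearMap.proj (0, 0) : (Fin 2 × Fin 2 → ℂ) →ₗ[ℂ] ℂ) - LinearMap.proj (1, 1)) ?_ ?_
        · simpa [fl, sub_eq_zero] using h00
        · rintro B ⟨c, rfl⟩
          simp [fl]
    · refine key (LinearMap.proj (1, 0)) ?_ ?_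
      · simpa [fl] using h10
      · rintro B ⟨c, rfl⟩
        simp [fl]
  · refine key (LinearMap.proj (0, 1)) ?_ ?_
    · simpa [fl] using h01
    · rintro B ⟨c, rfl⟩
      simp [fl]

/-- a rational eigenline -/
theorem Alg.no_line_rat {u : Fin 2 → ℂ} (hu : u ≠ 0) (huK : ∀ a, u a ∈ K)
    (hinv : ∀ A ∈ h.proj, ∃ c : ℂ, A *ᵥ u = c • u) : False := by
  have hne : u 1 ≠ 0 ∨ u 0 ≠ 0 := by
    by_contra hcon
    push Not at hcon
    apply hu
    funext i
    fin_cases i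
    · exact hcon.2
    · exact hcon.1
  -- the derivatives of the combinations of the periods
  have hr : ∀ D : Derivation K ℂ ℂ, ∃ χ : ℂ, ∀ c : Fin 2,
      D (u 1 * Ω 0 c - u 0 * Ω 1 c) = χ * (u 1 * Ω 0 c - u 0 * Ω 1 c) := by
    intro D
    obtain ⟨A, Y, t, z, h1, h2, -⟩ := h.logd D
    obtain ⟨c, hc⟩ := hinv A ⟨Y, t, z, h1⟩
    rw [mulVec_two] at hc
    have e0 : A 0 0 * u 0 + A 0 1 * u 1 = c * u 0 := by simpa using congrFun hc 0
    have e1 : A 1 0 * u 0 + A 1 1 * u 1 = c * u 1 := by simpa using congrFun hc 1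
    refine ⟨A 0 0 + A 1 1 - c, fun d => ?_⟩
    rw [map_sub, Derivation.leibniz, Derivation.leibniz, der_of_mem D (huK 0),
      der_of_mem D (huK 1), ← h2, ← h2]
    simp only [smul_eq_mul, mul_zero, add_zero]
    linear_combination (Ω 1 d) * e0 - Ω 0 d * e1
  by_cases h1 : u 1 * Ω 0 1 - u 0 * Ω 1 1 = 0
  · have h2 := h.two 1 0 K.one_mem K.zero_mem (Or.inl one_ne_zero) (u 1) (-u 0) (huK 1)
      (K.neg_mem (huK 0)) (by linear_combination h1)
    rcases hne with h3 | h3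
    · exact h3 h2.1
    · exact h3 (neg_eq_zero.1 h2.2)
  · obtain ⟨β, hβ, hβ'⟩ := ratio_mem h.hK (x := u 1 * Ω 0 0 - u 0 * Ω 1 0) h1 (by
      intro D
      obtain ⟨χ, hχ⟩ := hr D
      rw [hχ 0, hχ 1]
      ring)
    have h2 := h.two (-β) 1 (K.neg_mem hβ) K.one_mem (Or.inr one_ne_zero) (u 1) (-u 0) (huK 1)
      (K.neg_mem (huK 0)) (by linear_combination hβ')
    rcases hne with h3 | h3
    · exact h3 h2.1
    · exact h3 (neg_eq_zero.1 h2.2)

theorem Alg.no_line {u : Fin 2 → ℂ} (hu : u ≠ 0)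
    (hinv : ∀ A ∈ h.proj, ∃ c : ℂ, A *ᵥ u = c • u) : False := by
  obtain ⟨A, hA, hAK, hAs⟩ := h.exists_rat_nonscalar
  obtain ⟨c, hc⟩ := hinv A hA
  rw [mulVec_two] at hc
  have e0 : A 0 0 * u 0 + A 0 1 * u 1 = c * u 0 := by simpa using congrFun hc 0
  have e1 : A 1 0 * u 0 + A 1 1 * u 1 = c * u 1 := by simpa using congrFun hc 1
  -- the eigenvalue is algebraic
  have hcK : c ∈ K := by
    have hchar : c * c - (A 0 0 + A 1 1) * c + (A 0 0 * A 1 1 - A 0 1 * A 1 0) = 0 := by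
      have f0 : (c * c - (A 0 0 + A 1 1) * c + (A 0 0 * A 1 1 - A 0 1 * A 1 0)) * u 0 = 0 := by
        linear_combination (A 1 1 - c) * e0 - A 0 1 * e1
      have f1 : (c * c - (A 0 0 + A 1 1) * c + (A 0 0 * A 1 1 - A 0 1 * A 1 0)) * u 1 = 0 := by
        linear_combination (A 0 0 - c) * e1 - A 1 0 * e0
      by_cases hu0 : u 0 = 0
      · have hu1 : u 1 ≠ 0 := by
          intro hu1
          apply hu
          funext i
          fin_cases i
          · exact hu0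
          · exact hu1
        exact (mul_eq_zero.1 f1).resolve_right hu1
      · exact (mul_eq_zero.1 f0).resolve_right hu0
    have hsq : (c + c - (A 0 0 + A 1 1)) ^ 2 ∈ K := by
      have : (c + c - (A 0 0 + A 1 1)) ^ 2 =
          (A 0 0 + A 1 1) ^ 2 - 4 * (A 0 0 * A 1 1 - A 0 1 * A 1 0) := by
        linear_combination 4 * hchar
      rw [this]
      refine K.sub_mem (K.pow_mem (K.add_mem (hAK _ _) (hAK _ _)) _) (K.mul_mem ?_
        (K.sub_mem (K.mul_mem (hAK _ _) (hAK _ _)) (K.mul_mem (hAK _ _) (hAK _ _))))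
      exact ofNat_mem K 4
    have h2 : c + c - (A 0 0 + A 1 1) ∈ K := by
      rw [h.hK] at hsq ⊢
      exact hsq.of_pow (by norm_num)
    have h3 : c + c ∈ K := by
      have := K.add_mem h2 (K.add_mem (hAK 0 0) (hAK 1 1))
      rwa [sub_add_cancel] at this
    have h4 : c = (c + c) / 2 := by ring
    rw [h4]
    exact K.div_mem h3 (ofNat_mem K 2)
  have hne : A - c • (1 : M2) ≠ 0 := fun h1 => hAs c (sub_eq_zero.1 h1)
  obtain ⟨i, hi⟩ : ∃ i, (A - c • (1 : M2)) i ≠ 0 := by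
    by_contra hcon
    push Not at hcon
    exact hne (funext hcon)
  set r := (A - c • (1 : M2)) i with hr
  have hrK : ∀ a, r a ∈ K := by
    intro a
    rw [hr, Matrix.sub_apply, Matrix.smul_apply, smul_eq_mul, Matrix.one_apply]
    refine K.sub_mem (hAK _ _) (K.mul_mem hcK ?_)
    split_ifs
    · exact K.one_mem
    · exact K.zero_mem
  have hru : r 0 * u 0 + r 1 * u 1 = 0 := by
    rw [hr]
    fin_cases i
    · simp only [Fin.zero_eta, Matrix.sub_apply, Matrix.smul_apply, smul_eq_mul,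
        Matrix.one_apply_eq, ne_eq, zero_ne_one, not_false_eq_true, Matrix.one_apply_ne, mul_zero,
        sub_zero, mul_one]
      linear_combination e0
    · simp only [Fin.mk_one, Matrix.sub_apply, Matrix.smul_apply, smul_eq_mul,
        Matrix.one_apply_eq, ne_eq, one_ne_zero, not_false_eq_true, Matrix.one_apply_ne, mul_zero,
        sub_zero, mul_one]
      linear_combination e1
  have hu' : (![r 1, -r 0] : Fin 2 → ℂ) ≠ 0 := by
    intro h1
    apply hi
    funext a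
    fin_cases a
    · simpa using congrFun h1 1
    · simpa using congrFun h1 0
  -- `u` is proportional to a rational vector
  obtain ⟨d, hd⟩ := prop_of_row (r := r) (u := ![r 1, -r 0]) (v := u) hi hu' (by simp; ring) hru
  have hd0 : d ≠ 0 := by
    rintro rfl
    apply hu
    rw [hd, zero_smul]
  refine h.no_line_rat hu' (by
    intro a
    fin_cases a
    · exact hrK 1
    · exact K.neg_mem (hrK 0)) fun B hB => ?_
  obtain ⟨c', hc'⟩ := hinv B hB
  refine ⟨c', ?_⟩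
  have h5 : (![r 1, -r 0] : Fin 2 → ℂ) = d⁻¹ • u := by
    rw [hd, smul_smul, inv_mul_cancel₀ hd0, one_smul]
  rw [h5, Matrix.mulVec_smul, hc', smul_comm]

/-- Step A: the projection is everything. -/
theorem Alg.proj_all (A : M2) : ∃ Y t z, L A Y t z := by
  refine full h.proj ?_ ?_ ?_ A
  · rintro A ⟨Y, t, z, h1⟩ B ⟨Y', t', z', h2⟩
    exact ⟨_, _, _, h.br h1 h2⟩
  · intro u hu
    by_contra hcon
    push Not at hcon
    exact h.no_line hu hcon
  · obtain ⟨D, hD⟩ := exists_der h.hK h.τK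
    obtain ⟨A, Y, t, z, h1, -, -, h4, -⟩ := h.logd D
    refine ⟨A, ⟨Y, t, z, h1⟩, fun h0 => hD ?_⟩
    rw [← h4, h0, zero_mul]

/-- Step B: the part of weight `-1`. -/
theorem Alg.weight_one (Y : Fin ρ → Fin 2 → ℂ) : ∃ t V, L 0 Y t V := by
  -- multiplication by matrices
  have hmul : ∀ (Y : Fin ρ → Fin 2 → ℂ) (A : M2), (∃ t V, L 0 Y t V) →
      ∃ t V, L 0 (fun j c => Y j 0 * A 0 c + Y j 1 * A 1 c) t V := by
    rintro Y A ⟨t, z, h1⟩
    obtain ⟨Y', t', z', h2⟩ := h.proj_all A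
    have h3 := h.br h1 h2
    rw [Matrix.zero_mul, Matrix.mul_zero, sub_zero] at h3
    have h4 : (fun (j : Fin ρ) (c : Fin 2) => (Y j 0 * A 0 c + Y j 1 * A 1 c) -
        (Y' j 0 * (0 : M2) 0 c + Y' j 1 * (0 : M2) 1 c)) =
        fun j c => Y j 0 * A 0 c + Y j 1 * A 1 c := by
      funext j c
      simp
    rw [h4] at h3
    exact ⟨_, _, h3⟩
  let W : Submodule ℂ (Fin ρ → ℂ) :=
    { carrier := {y | ∃ t V, L 0 (fun j => ![y j, 0]) t V}
      zero_mem' := by
        refine ⟨0, 0, ?_⟩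
        have : (fun j : Fin ρ => ![(0 : Fin ρ → ℂ) j, 0]) = (0 : Fin ρ → Fin 2 → ℂ) := by
          funext j c
          fin_cases c <;> simp
        rw [this]
        exact h.zero
      add_mem' := by
        rintro y y' ⟨t, z, h1⟩ ⟨t', z', h2⟩
        refine ⟨t + t', z + z', ?_⟩
        have h3 := h.add h1 h2
        have : (fun j : Fin ρ => ![(y + y') j, 0]) = (fun j => ![y j, 0]) + fun j => ![y' j, 0] := by
          funext j c
          fin_cases c <;> simp
        rw [this]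
        rw [add_zero] at h3
        exact h3
      smul_mem' := by
        rintro c y ⟨t, z, h1⟩
        refine ⟨c • t, c • z, ?_⟩
        have h3 := h.smul c h1
        have : (fun j : Fin ρ => ![(c • y) j, 0]) = c • (fun j => ![y j, 0]) := by
          funext j c'
          fin_cases c' <;> simp
        rw [this]
        rw [smul_zero] at h3
        exact h3 }
  have hcol : ∀ Y : Fin ρ → Fin 2 → ℂ, (∃ t V, L 0 Y t V) → ∀ c,
      (fun j => Y j c) ∈ W := by
    intro Y hY c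
    rcases fin2 c with rfl | rfl
    · obtain ⟨t, z, h1⟩ := hmul Y !![1, 0; 0, 0] hY
      refine ⟨t, z, ?_⟩
      have : (fun j => ![Y j 0, 0]) =
          fun (j : Fin ρ) (c : Fin 2) => Y j 0 * (!![1, 0; 0, 0] : M2) 0 c +
            Y j 1 * (!![1, 0; 0, 0] : M2) 1 c := by
        funext j c
        fin_cases c <;> simp
      rw [this]
      exact h1
    · obtain ⟨t, z, h1⟩ := hmul Y !![0, 0; 1, 0] hY
      refine ⟨t, z, ?_⟩
      have : (fun j => ![Y j 1, 0]) =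
          fun (j : Fin ρ) (c : Fin 2) => Y j 0 * (!![0, 0; 1, 0] : M2) 0 c +
            Y j 1 * (!![0, 0; 1, 0] : M2) 1 c := by
        funext j c
        fin_cases c <;> simp
      rw [this]
      exact h1
  have hWall : ∀ y, y ∈ W := by
    by_contra hcon
    push Not at hcon
    obtain ⟨v, hv⟩ := hcon
    obtain ⟨lam, hl0, hlK, hlW⟩ := exists_ann (K := K) W (by
      rintro σ hσ v ⟨t, z, h1⟩
      refine ⟨fun e => σ (t e), z.map σ, ?_⟩
      have h2 := h.aut hσ h1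
      have e1 : (0 : M2).map σ = 0 := Matrix.map_zero _ (map_zero σ)
      have e2 : (fun j : Fin ρ => ![(fun i => σ (v i)) j, 0]) =
          fun (j : Fin ρ) (c : Fin 2) => σ (![v j, 0] c) := by
        funext j c
        fin_cases c <;> simp
      rw [e1] at h2
      rw [e2]
      exact h2) hv
    have hlN : ∀ Y : Fin ρ → Fin 2 → ℂ, (∃ t V, L 0 Y t V) → ∀ c,
        ∑ j, lam j * Y j c = 0 := fun Y hY c => hlW _ (hcol Y hY c)
    obtain ⟨Y1, t1, z1, h1⟩ := h.proj_all 1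
    set v : Fin 2 → ℂ := fun c => ∑ j, lam j * Y1 j c with hvdef
    have hcoc : ∀ A Y t z, L A Y t z → ∀ c,
        ∑ j, lam j * Y j c = v 0 * A 0 c + v 1 * A 1 c := by
      intro A Y t z hA c
      have h2 := h.br hA h1
      rw [Matrix.mul_one, Matrix.one_mul, sub_self] at h2
      have h3 := hlN _ ⟨_, _, h2⟩ c
      have h4 : ∀ j, lam j * ((Y j 0 * (1 : M2) 0 c + Y j 1 * (1 : M2) 1 c) -
          (Y1 j 0 * A 0 c + Y1 j 1 * A 1 c)) =
          lam j * Y j c - ((lam j * Y1 j 0) * A 0 c + (lam j * Y1 j 1) * A 1 c) := by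
        intro j
        rcases fin2 c with rfl | rfl <;> simp <;> ring
      rw [Finset.sum_congr rfl fun j _ => h4 j, Finset.sum_sub_distrib, Finset.sum_add_distrib,
        ← Finset.sum_mul, ← Finset.sum_mul, sub_eq_zero] at h3
      exact h3
    have hvK : ∀ c, v c ∈ K := by
      intro c
      refine mem_of_fixed fun σ hσ => ?_
      have h2 := h.aut hσ h1
      have e1 : (1 : M2).map σ = 1 := Matrix.map_one _ (map_zero σ) (map_one σ)
      rw [e1] at h2
      have h3 := hcoc _ _ _ _ h2 c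
      have h4 : σ (v c) = ∑ j, lam j * σ (Y1 j c) := by
        rw [hvdef, map_sum]
        refine Finset.sum_congr rfl fun j _ => ?_
        rw [map_mul, hσ _ (hlK j)]
      rw [h4, h3]
      rcases fin2 c with rfl | rfl <;> simp
    have hD : ∀ c, ∑ j, lam j * U j c - (v 0 * Ω 0 c + v 1 * Ω 1 c) ∈ K := by
      intro c
      refine mem_of_der h.hK fun D => ?_
      obtain ⟨A, Y, t, z, h2, h3, h4, -⟩ := h.logd D
      have h5 := hcoc A Y t z h2
      rw [map_sub, map_add, map_sum, Derivation.leibniz, Derivation.leibniz, der_of_mem D (hvK 0),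
        der_of_mem D (hvK 1)]
      have h6 : ∀ j, D (lam j * U j c) = lam j * Y j 0 * Ω 0 c + lam j * Y j 1 * Ω 1 c := by
        intro j
        rw [Derivation.leibniz, der_of_mem D (hlK j), ← h4, smul_eq_mul, smul_zero]
        ring
      rw [Finset.sum_congr rfl fun j _ => h6 j, Finset.sum_add_distrib, ← Finset.sum_mul,
        ← Finset.sum_mul, h5, h5, ← h3, ← h3]
      simp only [smul_eq_mul, mul_zero, add_zero]
      ring
    have h2 := h.ell 0 1 K.zero_mem K.one_mem (Or.inr one_ne_zero) lam (fun a => -v a) hlK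
      (fun a => K.neg_mem (hvK a)) (by
        have h3 := hD 0
        have h4 : ∑ j, lam j * (0 * U j 1 + 1 * U j 0) + ∑ a, -v a * (0 * Ω a 1 + 1 * Ω a 0) =
            ∑ j, lam j * U j 0 - (v 0 * Ω 0 0 + v 1 * Ω 1 0) := by
          rw [Fin.sum_univ_two]
          have : ∀ j, lam j * (0 * U j 1 + 1 * U j 0) = lam j * U j 0 := fun j => by ring
          rw [Finset.sum_congr rfl fun j _ => this j]
          ring
        rw [h4]
        exact h3)
    exact hl0 h2.1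
  -- assemble
  obtain ⟨t0, z0, g0⟩ := hWall (fun j => Y j 0)
  obtain ⟨t1, z1, g1⟩ := hWall (fun j => Y j 1)
  obtain ⟨t2, z2, g2⟩ := hmul (fun j => ![Y j 1, 0]) !![0, 1; 0, 0] ⟨t1, z1, g1⟩
  refine ⟨t0 + t2, z0 + z2, ?_⟩
  have h3 := h.add g0 g2
  rw [add_zero] at h3
  have h4 : (fun j => ![Y j 0, 0]) + (fun (j : Fin ρ) (c : Fin 2) =>
      (![Y j 1, 0] : Fin 2 → ℂ) 0 * (!![0, 1; 0, 0] : M2) 0 c +
        (![Y j 1, 0] : Fin 2 → ℂ) 1 * (!![0, 1; 0, 0] : M2) 1 c) = Y := by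
    funext j c
    fin_cases c <;> simp
  rw [h4] at h3
  exact h3

end Alg

end Pool.Agent.U100.FP
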