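import Pool.Agent.U100.FP.Perf

/-!
# Motives with a filtration
-/

set_option autoImplicit false
set_option linter.unusedSectionVars false

open Matrix

namespace Pool.Agent.U100.FP

open Pool.Agent.U725.OM (M2 fin2 der_of_mem)

variable {ρ : ℕ} {I ν : Type} [Fintype I] [DecidableEq I] [Fintype ν] [DecidableEq ν]
variable {P Q : I → Fin ρ} {k : ℂ} {K : Subfield ℂ}
variable {L : M2 → (Fin ρ → Fin 2 → ℂ) → (I → ℂ) → Matrix ν ν ℂ → Prop} {Ω : M2} {τ : ℂ}
  {U : Fin ρ → Fin 2 → ℂ} {N₀ : Matrix ν ν ℂ}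

/-- the index `i` is in a block with at least two elements -/
def Big (bl : ν → ℕ) (i : ν) : Prop := ∃ j, j ≠ i ∧ bl j = bl i

theorem Big.congr {bl : ν → ℕ} {i j : ν} (hi : Big bl i) (h : bl i = bl j) : Big bl j := by
  by_cases hij : i = j
  · exact hij ▸ hi
  · exact ⟨i, hij, h⟩

theorem not_big {bl : ν → ℕ} {i j : ν} (hi : ¬ Big bl i) (h : bl j = bl i) : j = i := by
  by_contra hne
  exact hi ⟨j, hne, h⟩

/-- the block triangular matrices with zero diagonal blocks of size at least two, after conjugation -/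
def J0 (bl : ν → ℕ) (a a' : Matrix ν ν ℂ) : Submodule ℂ (Matrix ν ν ℂ) where
  carrier := {V | (∀ i j, bl j < bl i → (a * V * a') i j = 0) ∧
    ∀ i j, bl i = bl j → Big bl i → (a * V * a') i j = 0}
  zero_mem' := by simp
  add_mem' := by
    rintro V V' ⟨h1, h2⟩ ⟨h1', h2'⟩
    refine ⟨fun i j hij => ?_, fun i j hij hb => ?_⟩
    · rw [Matrix.mul_add, Matrix.add_mul, Matrix.add_apply, h1 i j hij, h1' i j hij, add_zero]
    · rw [Matrix.mul_add, Matrix.add_mul, Matrix.add_apply, h2 i j hij hb, h2' i j hij hb, add_zero]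
  smul_mem' := by
    rintro c V ⟨h1, h2⟩
    refine ⟨fun i j hij => ?_, fun i j hij hb => ?_⟩
    · rw [Matrix.mul_smul, Matrix.smul_mul, Matrix.smul_apply, h1 i j hij, smul_zero]
    · rw [Matrix.mul_smul, Matrix.smul_mul, Matrix.smul_apply, h2 i j hij hb, smul_zero]

/-- the matrices which raise the level by at least `n`, after conjugation -/
def Jn (bl : ν → ℕ) (a a' : Matrix ν ν ℂ) (n : ℕ) : Submodule ℂ (Matrix ν ν ℂ) where
  carrier := {V | ∀ i j, bl j < bl i + n → (a * V * a') i j = 0}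
  zero_mem' := by simp
  add_mem' := by
    rintro V V' h1 h1' i j hij
    rw [Matrix.mul_add, Matrix.add_mul, Matrix.add_apply, h1 i j hij, h1' i j hij, add_zero]
  smul_mem' := by
    rintro c V h1 i j hij
    rw [Matrix.mul_smul, Matrix.smul_mul, Matrix.smul_apply, h1 i j hij, smul_zero]

variable {bl : ν → ℕ} {a a' : Matrix ν ν ℂ} (haa : a' * a = 1)

include haa

theorem conj_mul (V V' : Matrix ν ν ℂ) : a * (V * V') * a' = (a * V * a') * (a * V' * a') := by
  have h1 : a * V * a' * (a * V' * a') = a * V * (a' * a) * (V' * a') := by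
    simp only [Matrix.mul_assoc]
  rw [h1, haa, Matrix.mul_one]
  simp only [Matrix.mul_assoc]

theorem conj_br (V V' : Matrix ν ν ℂ) : a * (V * V' - V' * V) * a' =
    (a * V * a') * (a * V' * a') - (a * V' * a') * (a * V * a') := by
  rw [Matrix.mul_sub, Matrix.sub_mul, conj_mul haa, conj_mul haa]

/-- `J0` is an ideal -/
theorem J0_ideal {V V' : Matrix ν ν ℂ} (hV : V ∈ J0 bl a a')
    (hV' : ∀ i j, bl j < bl i → (a * V' * a') i j = 0) : V * V' - V' * V ∈ J0 bl a a' := by
  obtain ⟨h1, h2⟩ := hV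
  constructor
  · intro i j hij
    rw [conj_br haa, Matrix.sub_apply, Matrix.mul_apply, Matrix.mul_apply, Finset.sum_eq_zero,
      Finset.sum_eq_zero, sub_zero]
    · intro l _
      by_cases h3 : bl l < bl i
      · rw [hV' i l h3, zero_mul]
      · rw [h1 l j (by omega), mul_zero]
    · intro l _
      by_cases h3 : bl l < bl i
      · rw [h1 i l h3, zero_mul]
      · rw [hV' l j (by omega), mul_zero]
  · intro i j hij hb
    rw [conj_br haa, Matrix.sub_apply, Matrix.mul_apply, Matrix.mul_apply, Finset.sum_eq_zero,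
      Finset.sum_eq_zero, sub_zero]
    · intro l _
      rcases lt_trichotomy (bl l) (bl i) with h3 | h3 | h3
      · rw [hV' i l h3, zero_mul]
      · rw [h2 l j (h3.trans hij) (hb.congr h3.symm), mul_zero]
      · rw [h1 l j (by omega), mul_zero]
    · intro l _
      rcases lt_trichotomy (bl l) (bl i) with h3 | h3 | h3
      · rw [h1 i l h3, zero_mul]
      · rw [h2 i l h3.symm hb, zero_mul]
      · rw [hV' l j (by omega), mul_zero]

theorem J0_br {V V' : Matrix ν ν ℂ} (hV : V ∈ J0 bl a a') (hV' : V' ∈ J0 bl a a') :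
    V * V' - V' * V ∈ Jn bl a a' 1 := by
  have h0 := J0_ideal haa hV hV'.1
  obtain ⟨h1, h2⟩ := hV
  obtain ⟨h1', h2'⟩ := hV'
  intro i j hij
  rcases lt_or_eq_of_le (Nat.lt_succ_iff.1 hij) with h3 | h3
  · exact h0.1 i j h3
  · by_cases hb : Big bl i
    · exact h0.2 i j h3.symm hb
    · have hji : j = i := not_big hb h3
      subst hji
      rw [conj_br haa, Matrix.sub_apply, Matrix.mul_apply, Matrix.mul_apply,
        Finset.sum_eq_single j, Finset.sum_eq_single j, mul_comm, sub_self]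
      · intro l _ hl
        rcases lt_trichotomy (bl l) (bl j) with h4 | h4 | h4
        · rw [h1' j l h4, zero_mul]
        · exact absurd (not_big hb h4) hl
        · rw [h1 l j h4, mul_zero]
      · intro h4
        exact absurd (Finset.mem_univ _) h4
      · intro l _ hl
        rcases lt_trichotomy (bl l) (bl j) with h4 | h4 | h4
        · rw [h1 j l h4, zero_mul]
        · exact absurd (not_big hb h4) hl
        · rw [h1' l j h4, mul_zero]
      · intro h4
        exact absurd (Finset.mem_univ _) h4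

theorem Jn_br {n : ℕ} (hn : 1 ≤ n) {V V' : Matrix ν ν ℂ} (hV : V ∈ Jn bl a a' n)
    (hV' : V' ∈ Jn bl a a' n) : V * V' - V' * V ∈ Jn bl a a' (n + 1) := by
  intro i j hij
  rw [conj_br haa, Matrix.sub_apply, Matrix.mul_apply, Matrix.mul_apply, Finset.sum_eq_zero,
    Finset.sum_eq_zero, sub_zero]
  · intro l _
    by_cases h3 : bl l < bl i + n
    · rw [hV' i l h3, zero_mul]
    · rw [hV l j (by omega), mul_zero]
  · intro l _
    by_cases h3 : bl l < bl i + n
    · rw [hV i l h3, zero_mul]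
    · rw [hV' l j (by omega), mul_zero]

theorem Jn_bot {n : ℕ} (hn : ∀ i, bl i < n) {V : Matrix ν ν ℂ}
    (hV : V ∈ Jn bl a a' n) : V = 0 := by
  have h1 : a * V * a' = 0 := by
    ext i j
    exact hV i j (lt_of_lt_of_le (hn j) (Nat.le_add_left _ _))
  have h2 : a' * (a * V * a') * a = V := by
    have h3 : a' * (a * V * a') * a = (a' * a) * V * (a' * a) := by simp only [Matrix.mul_assoc]
    rw [h3, haa, Matrix.one_mul, Matrix.mul_one]
  rw [← h2, h1, Matrix.mul_zero, Matrix.zero_mul]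

/-- the derivatives -/
theorem der_blk {b : Matrix ν ν ℂ} (haK : ∀ i j, a i j ∈ K) (hbK : ∀ i j, b i j ∈ K)
    (hu : IsUnit (a * N₀ * b)) (D : Derivation K ℂ ℂ) (V : Matrix ν ν ℂ) (hV : V * N₀ = N₀.map D) :
    a * V * a' = (a * N₀ * b).map D * (a * N₀ * b)⁻¹ := by
  set M := a * N₀ * b with hMdef
  have hMM : M * M⁻¹ = 1 := Matrix.mul_nonsing_inv M ((Matrix.isUnit_iff_isUnit_det M).1 hu)
  have h1 : a * V * a' * M = M.map D := by
    have e1 : a * V * a' * M = a * (V * N₀) * b := by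
      have : a * V * a' * M = a * V * (a' * a) * N₀ * b := by
        rw [hMdef]
        simp only [Matrix.mul_assoc]
      rw [this, haa, Matrix.mul_one]
      simp only [Matrix.mul_assoc]
    rw [e1, hV, hMdef]
    ext i j
    rw [Matrix.map_apply, Matrix.mul_apply, Matrix.mul_apply, map_sum]
    refine Finset.sum_congr rfl fun l _ => ?_
    rw [Derivation.leibniz, der_of_mem D (hbK l j), smul_zero, zero_add, smul_eq_mul, mul_comm,
      Matrix.mul_apply, Matrix.mul_apply, map_sum]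
    congr 1
    refine Finset.sum_congr rfl fun r _ => ?_
    rw [Derivation.leibniz, der_of_mem D (haK i r), smul_zero, add_zero, smul_eq_mul,
      Matrix.map_apply]
  rw [← h1, Matrix.mul_assoc (a * V * a') M, hMM, Matrix.mul_one]

omit haa in
/-- the inverse is block triangular -/
theorem inv_blk {M : Matrix ν ν ℂ} (hM : M.BlockTriangular bl) (hu : IsUnit M) :
    M⁻¹.BlockTriangular bl := by
  have hu' : IsUnit M.det := (Matrix.isUnit_iff_isUnit_det M).1 hu
  have : Invertible M := Matrix.invertibleOfIsUnitDet M hu'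
  exact Matrix.blockTriangular_inv_of_blockTriangular hM

/-- The subfamily of the elements with a block triangular last block. -/
theorem Alg.sub_blk (h : Alg K P Q k L Ω τ U N₀) (haK : ∀ i j, a i j ∈ K)
    (haK' : ∀ i j, a' i j ∈ K) {b : Matrix ν ν ℂ} (hbK : ∀ i j, b i j ∈ K)
    (hM : (a * N₀ * b).BlockTriangular bl) (hu : IsUnit (a * N₀ * b)) :
    Alg K P Q k (fun A Y t V => L A Y t V ∧ ∀ i j, bl j < bl i → (a * V * a') i j = 0)
      Ω τ U N₀ where
  hK := h.hK
  k0 := h.k0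
  kK := h.kK
  τK := h.τK
  det := h.det
  ell := h.ell
  inj := h.inj
  zero := ⟨h.zero, by simp⟩
  add := by
    rintro A A' Y Y' t t' V V' ⟨h1, h2⟩ ⟨h1', h2'⟩
    refine ⟨h.add h1 h1', fun i j hij => ?_⟩
    rw [Matrix.mul_add, Matrix.add_mul, Matrix.add_apply, h2 i j hij, h2' i j hij, add_zero]
  smul := by
    rintro s A Y t V ⟨h1, h2⟩
    refine ⟨h.smul s h1, fun i j hij => ?_⟩
    rw [Matrix.mul_smul, Matrix.smul_mul, Matrix.smul_apply, h2 i j hij, smul_zero]
  br := by
    rintro A A' Y Y' t t' V V' ⟨h1, h2⟩ ⟨h1', h2'⟩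
    refine ⟨h.br h1 h1', fun i j hij => ?_⟩
    rw [conj_br haa, Matrix.sub_apply, Matrix.mul_apply, Matrix.mul_apply, Finset.sum_eq_zero,
      Finset.sum_eq_zero, sub_zero]
    · intro l _
      by_cases h3 : bl l < bl i
      · rw [h2' i l h3, zero_mul]
      · rw [h2 l j (by omega), mul_zero]
    · intro l _
      by_cases h3 : bl l < bl i
      · rw [h2 i l h3, zero_mul]
      · rw [h2' l j (by omega), mul_zero]
  aut := by
    rintro σ hσ A Y t V ⟨h1, h2⟩
    refine ⟨h.aut hσ h1, fun i j hij => ?_⟩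
    have e1 : a.map σ = a := by
      ext i j
      exact hσ _ (haK i j)
    have e2 : a'.map σ = a' := by
      ext i j
      exact hσ _ (haK' i j)
    have e3 : a * V.map σ * a' = (a * V * a').map σ := by
      rw [Matrix.map_mul, Matrix.map_mul, e1, e2]
    rw [e3, Matrix.map_apply, h2 i j hij, map_zero]
  logd := by
    intro D
    obtain ⟨A, Y, t, V, h1, h2, h3, h4, h5⟩ := h.logd D
    refine ⟨A, Y, t, V, ⟨h1, fun i j hij => ?_⟩, h2, h3, h4, h5⟩
    rw [der_blk haa haK hbK hu D V h5, Matrix.mul_apply]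
    refine Finset.sum_eq_zero fun l _ => ?_
    by_cases h3 : bl l < bl i
    · rw [Matrix.map_apply, hM h3, map_zero, zero_mul]
    · rw [inv_blk hM hu (show bl j < bl l by omega), mul_zero]

/-- **The first criterion.** -/
theorem Alg.of_prj (h' : Alg K P Q k L Ω τ U N₀)
    (hBT : ∀ A Y t V, L A Y t V → ∀ i j, bl j < bl i → (a * V * a') i j = 0)
    (hJ : ∃ A ∈ h'.prj (J0 bl a a'), ∀ c : ℂ, A ≠ c • (1 : M2)) (B : M2) (hB : B 0 0 + B 1 1 = 0) :
    ∃ Y t, L B Y t 0 := by
  have s0 : ∀ B : M2, B 0 0 + B 1 1 = 0 → B ∈ h'.prj (J0 bl a a') :=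
    h'.prj_ideal (fun V hV A Y t V' hV' => J0_ideal haa hV (hBT _ _ _ _ hV')) hJ
  have s1 : ∀ n : ℕ, ∀ B : M2, B 0 0 + B 1 1 = 0 → B ∈ h'.prj (Jn bl a a' (n + 1)) := by
    intro n
    induction n with
    | zero => exact h'.prj_derived (fun V hV V' hV' => J0_br haa hV hV') s0
    | succ n ih => exact h'.prj_derived (fun V hV V' hV' => Jn_br haa (by omega) hV hV') ih
  obtain ⟨n, hn⟩ : ∃ n, ∀ i, bl i < n :=
    ⟨Finset.univ.sup bl + 1, fun i => Nat.lt_succ_of_le (Finset.le_sup (Finset.mem_univ i))⟩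
  obtain ⟨Y, t, V, hV, h1⟩ := s1 n B hB
  have hV0 : V = 0 := Jn_bot (n := n + 1) haa (fun i => lt_of_lt_of_le (hn i) (Nat.le_succ _)) hV
  subst hV0
  exact ⟨Y, t, h1⟩

/-- **The second criterion:** a derivation which kills the diagonal blocks of size at least two. -/
theorem Alg.of_der (h' : Alg K P Q k L Ω τ U N₀)
    (hBT : ∀ A Y t V, L A Y t V → ∀ i j, bl j < bl i → (a * V * a') i j = 0)
    (haK : ∀ i j, a i j ∈ K) {b : Matrix ν ν ℂ} (hbK : ∀ i j, b i j ∈ K)
    (hM : (a * N₀ * b).BlockTriangular bl) (hu : IsUnit (a * N₀ * b))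
    (hD : ∃ D : Derivation K ℂ ℂ, (∀ i j, bl i = bl j → Big bl i → D ((a * N₀ * b) i j) = 0) ∧
      ∃ x c y d, D (Ω x c) * Ω y d ≠ Ω x c * D (Ω y d)) :
    ∃ A ∈ h'.prj (J0 bl a a'), ∀ c : ℂ, A ≠ c • (1 : M2) := by
  obtain ⟨D, hD1, x, c, y, d, hD2⟩ := hD
  obtain ⟨A, Y, t, V, h1, h2, -, -, h5⟩ := h'.logd D
  refine ⟨A, ⟨Y, t, V, ⟨hBT _ _ _ _ h1, ?_⟩, h1⟩, ?_⟩
  · intro i j hij hb
    rw [der_blk haa haK hbK hu D V h5, Matrix.mul_apply]
    refine Finset.sum_eq_zero fun l _ => ?_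
    rcases lt_trichotomy (bl l) (bl i) with h3 | h3 | h3
    · rw [Matrix.map_apply, hM h3, map_zero, zero_mul]
    · rw [Matrix.map_apply, hD1 i l h3.symm hb, zero_mul]
    · rw [inv_blk hM hu (show bl j < bl l by omega), mul_zero]
  · intro s hs
    apply hD2
    rw [← h2, ← h2, hs]
    rcases fin2 x with rfl | rfl <;> rcases fin2 y with rfl | rfl <;> simp <;> ring

end Pool.Agent.U100.FP
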