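import Pool.Agent.U100.FP.Gou

/-!
# The number of the exceptional curves
-/

set_option autoImplicit false
set_option linter.unusedSectionVars false
set_option linter.unusedSimpArgs false

open Matrix

namespace Pool.Agent.U100.FP

open Pool.Agent.U725.OM (M2 fin2)

variable {ν : Type} [Fintype ν] [DecidableEq ν] {K : Subfield ℂ} {τ : ℂ} {N₀ : Matrix ν ν ℂ}
variable {ι : Type} [Fintype ι] [DecidableEq ι] {k : ι → ℂ} {R : ι → M2 → Matrix ν ν ℂ → Prop}
  {Ω : ι → M2} (h : ∀ i, Flat K (k i) (R i) (Ω i) τ N₀)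

/-- separation of several curves -/
theorem sep (hN : IsUnit N₀)
    (hun : ∀ i j : ι, i ≠ j → ∃ x ∈ GG h, (∃ c : ℂ, x.1 j = c • (1 : M2)) ∧
      ¬ ∃ c : ℂ, x.1 i = c • (1 : M2)) (i : ι) (F : Finset ι) (hF : i ∉ F) (B : M2)
    (hB : B 0 0 + B 1 1 = 0) : ∃ x ∈ GG h, x.1 i = B ∧ ∀ j ∈ F, ∃ c : ℂ, x.1 j = c • (1 : M2) := by
  let S : Finset ι → Submodule ℂ M2 := fun F =>
    { carrier := {A | ∃ x ∈ GG h, x.1 i = A ∧ ∀ j ∈ F, ∃ c : ℂ, x.1 j = c • (1 : M2)}
      zero_mem' := ⟨0, Submodule.zero_mem _, rfl, fun j _ => ⟨0, by simp⟩⟩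
      add_mem' := by
        rintro A A' ⟨x, hx, rfl, h1⟩ ⟨y, hy, rfl, h2⟩
        refine ⟨x + y, Submodule.add_mem _ hx hy, rfl, fun j hj => ?_⟩
        obtain ⟨c, hc⟩ := h1 j hj
        obtain ⟨d, hd⟩ := h2 j hj
        exact ⟨c + d, by rw [add_smul, ← hc, ← hd]; rfl⟩
      smul_mem' := by
        rintro s A ⟨x, hx, rfl, h1⟩
        refine ⟨s • x, Submodule.smul_mem _ s hx, rfl, fun j hj => ?_⟩
        obtain ⟨c, hc⟩ := h1 j hj
        exact ⟨s * c, by rw [mul_smul, ← hc]; rfl⟩ }
  have hid : ∀ F, ∀ A ∈ S F, ∀ B : M2, A * B - B * A ∈ S F := by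
    rintro F A ⟨x, hx, rfl, h1⟩ B
    obtain ⟨y, hy, rfl⟩ := gg_all h hN i B
    refine ⟨_, gg_br h hx hy, rfl, fun j hj => ⟨0, ?_⟩⟩
    obtain ⟨c, hc⟩ := h1 j hj
    change x.1 j * y.1 j - y.1 j * x.1 j = (0 : ℂ) • (1 : M2)
    rw [hc, Matrix.smul_mul, Matrix.mul_smul, Matrix.one_mul, Matrix.mul_one, sub_self, zero_smul]
  have hmH : ∀ c : ℂ, mH ≠ c • (1 : M2) := by
    intro c hc
    have h1 := congrFun (congrFun hc 0) 0
    have h2 := congrFun (congrFun hc 1) 1
    simp [mH] at h1 h2
    rw [← h1] at h2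
    norm_num at h2
  have key : ∀ F : Finset ι, i ∉ F → mH ∈ S F := by
    intro F
    induction F using Finset.induction_on with
    | empty =>
      intro _
      obtain ⟨x, hx, hx1⟩ := gg_all h hN i mH
      exact ⟨x, hx, hx1, fun j hj => absurd hj (Finset.notMem_empty _)⟩
    | insert j F hj ih =>
      intro hi
      rw [Finset.mem_insert, not_or] at hi
      have s1 : mE ∈ S F := ideal_sl (S F) (hid F) ⟨mH, ih hi.2, hmH⟩ mE (by simp [mE])
      have s2 : mF ∈ S {j} := by
        obtain ⟨x, hx, hxj, hxi⟩ := hun i j hi.1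
        refine ideal_sl (S {j}) (hid {j}) ⟨x.1 i, ⟨x, hx, rfl, fun l hl => ?_⟩, fun c hc => hxi ⟨c, hc⟩⟩
          mF (by simp [mF])
        rw [Finset.mem_singleton.1 hl]
        exact hxj
      obtain ⟨x, hx, hx1, hx2⟩ := s1
      obtain ⟨y, hy, hy1, hy2⟩ := s2
      refine ⟨_, gg_br h hx hy, ?_, fun l hl => ⟨0, ?_⟩⟩
      · change x.1 i * y.1 i - y.1 i * x.1 i = mH
        rw [hx1, hy1, mEF]
      · change x.1 l * y.1 l - y.1 l * x.1 l = (0 : ℂ) • (1 : M2)
        rcases Finset.mem_insert.1 hl with rfl | hl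
        · obtain ⟨c, hc⟩ := hy2 l (Finset.mem_singleton_self l)
          rw [hc, Matrix.smul_mul, Matrix.mul_smul, Matrix.one_mul, Matrix.mul_one, sub_self,
            zero_smul]
        · obtain ⟨c, hc⟩ := hx2 l hl
          rw [hc, Matrix.smul_mul, Matrix.mul_smul, Matrix.one_mul, Matrix.mul_one, sub_self,
            zero_smul]
  exact ideal_sl (S F) (hid F) ⟨mH, key F hF, hmH⟩ B hB

variable {bl : ν → ℕ} {a a' : Matrix ν ν ℂ}

/-- the traces of the diagonal blocks of a bracket -/
theorem tr_blk (haa : a' * a = 1) {V V' : Matrix ν ν ℂ}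
    (hV : ∀ p q, bl q < bl p → (a * V * a') p q = 0)
    (hV' : ∀ p q, bl q < bl p → (a * V' * a') p q = 0) (v : ℕ) :
    ∑ p ∈ Finset.univ.filter (fun p => bl p = v), (a * (V * V' - V' * V) * a') p p = 0 := by
  rw [conj_br haa]
  set W := a * V * a'
  set W' := a * V' * a'
  have h1 : ∀ (X X' : Matrix ν ν ℂ), (∀ p q, bl q < bl p → X p q = 0) →
      (∀ p q, bl q < bl p → X' p q = 0) → ∀ p, bl p = v →
      (X * X') p p = ∑ l ∈ Finset.univ.filter (fun p => bl p = v), X p l * X' l p := by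
    intro X X' hX hX' p hp
    rw [Matrix.mul_apply, Finset.sum_filter]
    refine Finset.sum_congr rfl fun l _ => ?_
    split_ifs with h2
    · rfl
    · rcases lt_or_gt_of_ne h2 with h3 | h3
      · rw [hX p l (by omega), zero_mul]
      · rw [hX' l p (by omega), mul_zero]
  have h2 : ∀ p ∈ Finset.univ.filter (fun p => bl p = v), (W * W' - W' * W) p p =
      ∑ l ∈ Finset.univ.filter (fun p => bl p = v), W p l * W' l p -
      ∑ l ∈ Finset.univ.filter (fun p => bl p = v), W' p l * W l p := by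
    intro p hp
    have hp' := (Finset.mem_filter.1 hp).2
    rw [Matrix.sub_apply, h1 W W' hV hV' p hp', h1 W' W hV' hV p hp']
  rw [Finset.sum_congr rfl h2, Finset.sum_sub_distrib, sub_eq_zero, Finset.sum_comm]
  refine Finset.sum_congr rfl fun l _ => Finset.sum_congr rfl fun p _ => mul_comm _ _

/-- `tz` as a linear map -/
noncomputable def tzL : M2 →ₗ[ℂ] M2 where
  toFun := tz
  map_add' := tz_add
  map_smul' := tz_smul

/-- the standard basis -/
def mB : Fin 3 → M2 := ![mE, mF, mH]

theorem mB_tr (b : Fin 3) : mB b 0 0 + mB b 1 1 = 0 := by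
  fin_cases b <;> simp [mB, mE, mF, mH]

include h in
/-- **The number of the exceptional curves.** -/
theorem count (hN : IsUnit N₀) (haa : a' * a = 1)
    (hBT : ∀ i A V, R i A V → ∀ p q, bl q < bl p → (a * V * a') p q = 0)
    (hun : ∀ i j : ι, i ≠ j → ¬ ∃ g C : M2, (∀ a b, g a b ∈ K) ∧ (∀ a b, C a b ∈ K) ∧ g.det ≠ 0 ∧
      g * Ω j = Ω i * C)
    (hex : ∀ i A V, V ∈ J0 bl a a' → R i A V → ∃ c : ℂ, A = c • (1 : M2)) :
    3 * Fintype.card ι + (Finset.univ.image bl).card ≤
      Fintype.card {p : ν × ν // bl p.1 = bl p.2} := by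
  classical
  have hun' : ∀ i j : ι, i ≠ j → ∃ x ∈ GG h, (∃ c : ℂ, x.1 j = c • (1 : M2)) ∧
      ¬ ∃ c : ℂ, x.1 i = c • (1 : M2) := by
    intro i j hij
    by_contra hcon
    push Not at hcon
    exact hun i j hij (linked h hN fun x hx hc => hcon x hx hc)
  -- elements with all traces zero
  have helt : ∀ (i : ι) (B : M2), B 0 0 + B 1 1 = 0 → ∃ x ∈ GG h, x.1 i = B ∧
      (∀ j, j ≠ i → tz (x.1 j) = 0) ∧
      ∀ v, ∑ p ∈ Finset.univ.filter (fun p => bl p = v), (a * x.2 * a') p p = 0 := by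
    intro i
    let S : Submodule ℂ M2 :=
      { carrier := {A | ∃ x ∈ GG h, x.1 i = A ∧ (∀ j, j ≠ i → tz (x.1 j) = 0) ∧
          ∀ v, ∑ p ∈ Finset.univ.filter (fun p => bl p = v), (a * x.2 * a') p p = 0}
        zero_mem' := by
          refine ⟨0, Submodule.zero_mem _, rfl, fun j _ => ?_, fun v => ?_⟩
          · change tz 0 = 0
            simpa using tz_scalar 0
          · change ∑ p ∈ Finset.univ.filter (fun p => bl p = v),
              (a * (0 : Matrix ν ν ℂ) * a') p p = 0
            simp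
        add_mem' := by
          rintro A A' ⟨x, hx, rfl, h1, h1'⟩ ⟨y, hy, rfl, h2, h2'⟩
          refine ⟨x + y, Submodule.add_mem _ hx hy, rfl, fun j hj => ?_, fun v => ?_⟩
          · change tz (x.1 j + y.1 j) = 0
            rw [tz_add, h1 j hj, h2 j hj, add_zero]
          · change ∑ p ∈ Finset.univ.filter (fun p => bl p = v), (a * (x.2 + y.2) * a') p p = 0
            rw [Matrix.mul_add, Matrix.add_mul]
            simp only [Matrix.add_apply]
            rw [Finset.sum_add_distrib, h1' v, h2' v, add_zero]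
        smul_mem' := by
          rintro s A ⟨x, hx, rfl, h1, h1'⟩
          refine ⟨s • x, Submodule.smul_mem _ s hx, rfl, fun j hj => ?_, fun v => ?_⟩
          · change tz (s • x.1 j) = 0
            rw [tz_smul, h1 j hj, smul_zero]
          · change ∑ p ∈ Finset.univ.filter (fun p => bl p = v), (a * (s • x.2) * a') p p = 0
            rw [Matrix.mul_smul, Matrix.smul_mul]
            simp only [Matrix.smul_apply]
            rw [← Finset.smul_sum, h1' v, smul_zero] }
    have hbr : ∀ X X' : M2, X 0 0 + X 1 1 = 0 → X' 0 0 + X' 1 1 = 0 → X * X' - X' * X ∈ S := by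
      intro X X' hX hX'
      obtain ⟨x, hx, h1, h1'⟩ := sep h hN hun' i (Finset.univ.erase i) (by simp) X hX
      obtain ⟨y, hy, h2, -⟩ := sep h hN hun' i (Finset.univ.erase i) (by simp) X' hX'
      refine ⟨_, gg_br h hx hy, ?_, fun j hj => ?_, fun v => ?_⟩
      · change x.1 i * y.1 i - y.1 i * x.1 i = _
        rw [h1, h2]
      · change tz (x.1 j * y.1 j - y.1 j * x.1 j) = 0
        obtain ⟨c, hc⟩ := h1' j (Finset.mem_erase.2 ⟨hj, Finset.mem_univ _⟩)
        rw [tz_br, hc, tz_scalar, Matrix.zero_mul, Matrix.mul_zero, sub_zero]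
      · exact tr_blk haa (hBT i _ _ (hx i)) (hBT i _ _ (hy i)) v
    have tE : mE 0 0 + mE 1 1 = 0 := by simp [mE]
    have tF : mF 0 0 + mF 1 1 = 0 := by simp [mF]
    have tH : mH 0 0 + mH 1 1 = 0 := by simp [mH]
    have hE : mE ∈ S := by
      have h1 := hbr mH mE tH tE
      rw [mHE] at h1
      exact (S.smul_mem_iff (by norm_num)).1 h1
    have hF : mF ∈ S := by
      have h1 := hbr mH mF tH tF
      rw [mHF] at h1
      exact (S.smul_mem_iff (by norm_num)).1 h1
    have hH : mH ∈ S := by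
      rw [← mEF]
      exact hbr mE mF tE tF
    intro B hB
    have hBS : B ∈ S := by
      rw [dec_sl B hB]
      exact S.add_mem (S.add_mem (S.smul_mem _ hE) (S.smul_mem _ hF)) (S.smul_mem _ hH)
    exact hBS
  choose y hy hy1 hy2 hy3 using fun (q : ι × Fin 3) => helt q.1 (mB q.2) (mB_tr q.2)
  -- the linearly independent family
  let f : (ι × Fin 3) ⊕ {v // v ∈ Finset.univ.image bl} →
      ({p : ν × ν // bl p.1 = bl p.2} → ℂ) :=
    Sum.elim (fun q p => (a * (y q).2 * a') p.1.1 p.1.2)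
      (fun v p => if p.1.1 = p.1.2 ∧ bl p.1.1 = v then 1 else 0)
  have hf : LinearIndependent ℂ f := by
    rw [Fintype.linearIndependent_iff]
    intro g hg
    have hg' : ∀ p : {p : ν × ν // bl p.1 = bl p.2},
        ∑ q : ι × Fin 3, g (Sum.inl q) * (a * (y q).2 * a') p.1.1 p.1.2 +
        ∑ v : {v // v ∈ Finset.univ.image bl},
          g (Sum.inr v) * (if p.1.1 = p.1.2 ∧ bl p.1.1 = (v : ℕ) then 1 else 0) = 0 := by
      intro p
      have := congrFun hg p
      rw [Fintype.sum_sum_type] at this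
      simpa [f, Finset.sum_apply] using this
    -- the scalar parts
    have hd : ∀ v, g (Sum.inr v) = 0 := by
      intro v
      have h1 : ∑ p ∈ Finset.univ.filter (fun p => bl p = (v : ℕ)),
          (∑ q : ι × Fin 3, g (Sum.inl q) * (a * (y q).2 * a') p p +
          ∑ v' : {v // v ∈ Finset.univ.image bl},
            g (Sum.inr v') * (if p = p ∧ bl p = (v' : ℕ) then 1 else 0)) = 0 :=
        Finset.sum_eq_zero fun p _ => hg' ⟨(p, p), rfl⟩
      rw [Finset.sum_add_distrib, Finset.sum_comm] at h1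
      have h2 : ∀ q : ι × Fin 3, ∑ p ∈ Finset.univ.filter (fun p => bl p = (v : ℕ)),
          g (Sum.inl q) * (a * (y q).2 * a') p p = 0 := by
        intro q
        rw [← Finset.mul_sum, hy3 q, mul_zero]
      rw [Finset.sum_congr rfl fun q _ => h2 q, Finset.sum_const_zero, zero_add] at h1
      have h3 : ∀ p ∈ Finset.univ.filter (fun p => bl p = (v : ℕ)),
          ∑ v' : {v // v ∈ Finset.univ.image bl},
            g (Sum.inr v') * (if p = p ∧ bl p = (v' : ℕ) then 1 else 0) = g (Sum.inr v) := by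
        intro p hp
        rw [Finset.sum_eq_single v]
        · rw [if_pos ⟨rfl, (Finset.mem_filter.1 hp).2⟩, mul_one]
        · intro v' _ hv'
          rw [if_neg, mul_zero]
          rintro ⟨-, h4⟩
          apply hv'
          rw [(Finset.mem_filter.1 hp).2] at h4
          exact Subtype.ext h4.symm
        · intro h4
          exact absurd (Finset.mem_univ _) h4
      rw [Finset.sum_congr rfl h3, Finset.sum_const, nsmul_eq_mul] at h1
      refine (mul_eq_zero.1 h1).resolve_left ?_
      obtain ⟨p, -, hp⟩ := Finset.mem_image.1 v.2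
      exact Nat.cast_ne_zero.2
        (Finset.card_pos.2 ⟨p, Finset.mem_filter.2 ⟨Finset.mem_univ _, hp⟩⟩).ne'
    -- the other parts
    set x : (ι → M2) × Matrix ν ν ℂ := ∑ q : ι × Fin 3, g (Sum.inl q) • y q with hx
    have hxG : x ∈ GG h := Submodule.sum_mem _ fun q _ => Submodule.smul_mem _ _ (hy q)
    have hx2 : x.2 = ∑ q : ι × Fin 3, g (Sum.inl q) • (y q).2 := by
      rw [hx, Prod.snd_sum]
      rfl
    have hx1 : ∀ i, x.1 i = ∑ q : ι × Fin 3, g (Sum.inl q) • (y q).1 i := by
      intro i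
      rw [hx, Prod.fst_sum, Finset.sum_apply]
      rfl
    have hcx : ∀ p q : ν, (a * x.2 * a') p q =
        ∑ r : ι × Fin 3, g (Sum.inl r) * (a * (y r).2 * a') p q := by
      intro p q
      rw [hx2, Matrix.mul_sum, Matrix.sum_mul, Matrix.sum_apply]
      refine Finset.sum_congr rfl fun r _ => ?_
      rw [Matrix.mul_smul, Matrix.smul_mul, Matrix.smul_apply, smul_eq_mul]
    have hc : ∀ i b, g (Sum.inl (i, b)) = 0 := by
      intro i
      have hxJ : x.2 ∈ J0 bl a a' := by
        refine ⟨hBT i _ _ (hxG i), fun p q hpq _ => ?_⟩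
        have h1 := hg' ⟨(p, q), hpq⟩
        simp only [hd, zero_mul, Finset.sum_const_zero, add_zero] at h1
        rw [hcx]
        exact h1
      obtain ⟨c, hc⟩ := hex i _ _ hxJ (hxG i)
      have h1 : tzL (x.1 i) = 0 := by
        rw [hc]
        exact tz_scalar c
      rw [hx1, map_sum, Fintype.sum_prod_type] at h1
      simp only [map_smul] at h1
      rw [Finset.sum_eq_single i] at h1
      · have h2 : ∀ b, tzL ((y (i, b)).1 i) = mB b := by
          intro b
          rw [hy1 (i, b)]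
          exact tz_of _ (mB_tr b)
        simp only [h2, Fin.sum_univ_three] at h1
        have e01 := congrFun (congrFun h1 0) 1
        have e10 := congrFun (congrFun h1 1) 0
        have e00 := congrFun (congrFun h1 0) 0
        simp [mB, mE, mF, mH] at e01 e10 e00
        intro b
        fin_cases b
        · exact e01
        · exact e10
        · exact e00
      · intro j _ hj
        refine Finset.sum_eq_zero fun b _ => ?_
        have h2 : tzL ((y (j, b)).1 i) = 0 := hy2 (j, b) i hj.symm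
        rw [h2, smul_zero]
      · intro h4
        exact absurd (Finset.mem_univ _) h4
    rintro (⟨i, b⟩ | v)
    · exact hc i b
    · exact hd v
  have h1 := hf.fintype_card_le_finrank
  rw [Module.finrank_fintype_fun_eq_card, Fintype.card_sum, Fintype.card_prod, Fintype.card_fin,
    Fintype.card_coe] at h1
  omega

end Pool.Agent.U100.FP
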