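import Pool.Agent.U100.FP.Main

/-!
# Several curves: the exceptional curves do not change when 1-motives over other curves are added
-/

set_option autoImplicit false
set_option linter.unusedSectionVars false
set_option linter.unusedSimpArgs false

open Matrix
open scoped PeriodPair

namespace Pool.Agent.U100.FP

open Pool.Agent.U725.OM (M2 fin2 QB mem_QB b4 b3 b3_map b4_map der_of_mem)
open H667R3

noncomputable section

variable {ν : Type} [Fintype ν] [DecidableEq ν] {N₀ : Matrix ν ν ℂ}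

/-- the coordinates of the points -/
abbrev uu (L : PeriodPair) {ρ : ℕ} (w : Fin ρ → ℂ) : Fin ρ → Fin 2 → ℂ := fun j => ![w j, zeta L (w j)]

/-- a curve which is not exceptional, for abstract Lie algebras -/
def GoodA (L : PeriodPair) (n : ℤ) (N₀ : Matrix ν ν ℂ) : Prop :=
  ∀ (ρ : ℕ) (I : Type) (_ : Fintype I) (_ : DecidableEq I) (P Q : I → Fin ρ) (w : Fin ρ → ℂ),
    Pts L P Q w → ∀ (R : M2 → (Fin ρ → Fin 2 → ℂ) → (I → ℂ) → Matrix ν ν ℂ → Prop),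
      Alg QB P Q (n : ℂ) R (per L) tpi (uu L w) N₀ →
      ∀ A : M2, A 0 0 + A 1 1 = 0 → ∀ Y t, R A Y t 0

theorem GoodA.good {L : PeriodPair} {n : ℤ} (hC : Cur L n) (hN : IsUnit N₀) (h : GoodA L n N₀) :
    Good L n N₀ := by
  intro ρ I fI dI P Q w hP s T hT hc A hA Y t
  exact h ρ I fI dI P Q w hP _ (alg_cur hC hP hT hN hc) A hA Y t

variable {bl : ν → ℕ} {a a' b : Matrix ν ν ℂ}

theorem badA_flat {L : PeriodPair} {n : ℤ} (haa : a' * a = 1)
    (haK : ∀ i j, a i j ∈ QB) (haK' : ∀ i j, a' i j ∈ QB) (hbK : ∀ i j, b i j ∈ QB)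
    (hM : (a * N₀ * b).BlockTriangular bl) (hu : IsUnit (a * N₀ * b)) (hbad : ¬ GoodA L n N₀) :
    ∃ R : M2 → Matrix ν ν ℂ → Prop, Flat QB (n : ℂ) R (per L) tpi N₀ ∧
      (∀ A V, R A V → ∀ p q, bl q < bl p → (a * V * a') p q = 0) ∧
      ∀ A V, V ∈ J0 bl a a' → R A V → ∃ c : ℂ, A = c • (1 : M2) := by
  unfold GoodA at hbad
  simp only [not_forall] at hbad
  obtain ⟨ρ, I, fI, dI, P, Q, w, hP, R, h, A, hA, Y, t, hb⟩ := hbad
  have h' := h.sub_blk haa haK haK' hbK hM hu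
  refine ⟨_, h'.flat, ?_, ?_⟩
  · rintro A V ⟨Y, t, -, h1⟩
    exact h1
  · rintro A' V hV ⟨Y', t', h1⟩
    by_contra hsc
    push Not at hsc
    apply hb
    refine h.perfect (fun B hB => ?_) A hA Y t
    obtain ⟨Y2, t2, h2⟩ := h'.of_prj haa (fun _ _ _ _ h => h.2) ⟨A', ⟨Y', t', V, hV, h1⟩, hsc⟩ B hB
    exact ⟨Y2, t2, h2.1⟩

/-- **The exceptional curves.** -/
theorem mainA {ι : Type} (L : ι → PeriodPair) (n : ι → ℤ)
    (hun : ∀ i j : ι, i ≠ j → ¬ ∃ g C : M2, (∀ a b, g a b ∈ QB) ∧ (∀ a b, C a b ∈ QB) ∧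
      g.det ≠ 0 ∧ g * per (L j) = per (L i) * C)
    (hN : IsUnit N₀) (haa : a' * a = 1)
    (haK : ∀ i j, a i j ∈ QB) (haK' : ∀ i j, a' i j ∈ QB) (hbK : ∀ i j, b i j ∈ QB)
    (hM : (a * N₀ * b).BlockTriangular bl) (hu : IsUnit (a * N₀ * b)) :
    ∃ X : Set ι, X.Finite ∧ 3 * X.ncard + (Finset.univ.image bl).card ≤
        Fintype.card {p : ν × ν // bl p.1 = bl p.2} ∧
      (∀ i ∈ X, ∀ x c y d, IsAlgebraic (IntermediateField.adjoin ℚ
        {z : ℂ | ∃ p q, bl p = bl q ∧ Big bl p ∧ z = (a * N₀ * b) p q})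
        (per (L i) x c / per (L i) y d)) ∧
      ∀ i, i ∉ X → GoodA (L i) (n i) N₀ := by
  classical
  have hbd : ∀ Y : Finset ι, (∀ i ∈ Y, ¬ GoodA (L i) (n i) N₀) →
      3 * Y.card + (Finset.univ.image bl).card ≤
        Fintype.card {p : ν × ν // bl p.1 = bl p.2} := by
    intro Y hY
    choose R hR hBT hex using fun i : {i // i ∈ Y} =>
      badA_flat haa haK haK' hbK hM hu (hY i i.2)
    have h1 := count (ι := {i // i ∈ Y}) (k := fun i => ((n i : ℤ) : ℂ)) (R := R)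
      (Ω := fun i => per (L i)) hR hN haa hBT
      (fun i j hij => hun i j (fun h => hij (Subtype.ext h))) hex
    rwa [Fintype.card_coe] at h1
  set X : Set ι := {i | ¬ GoodA (L i) (n i) N₀} with hX
  have hfin : X.Finite := by
    by_contra hinf
    obtain ⟨Y, hY, hYc⟩ := Set.Infinite.exists_subset_card_eq hinf
      (Fintype.card {p : ν × ν // bl p.1 = bl p.2} + 1)
    have h1 := hbd Y fun i hi => hY hi
    omega
  refine ⟨X, hfin, ?_, ?_, fun i hi => by_contra fun h => hi h⟩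
  · have h1 := hbd hfin.toFinset fun i hi => (hfin.mem_toFinset).1 hi
    rwa [← Set.ncard_eq_toFinset_card X hfin] at h1
  · intro i hi x c y d
    by_contra hcon
    obtain ⟨D, hD1, hD2⟩ := exists_der_ratio _ _ _ hcon
    obtain ⟨R, hR, hBT, hex⟩ := badA_flat haa haK haK' hbK hM hu hi
    obtain ⟨A, ⟨Y, t, V, hV, hA⟩, hs⟩ := Alg.of_der haa hR (fun A _ _ V h => hBT A V h) haK hbK hM hu
      ⟨D, fun p q hpq hb => hD1 _ ⟨p, q, hpq, hb, rfl⟩, x, c, y, d, hD2⟩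
    obtain ⟨s, hs'⟩ := hex A V hV hA
    exact hs s hs'

end

/-! ### Logarithmic derivatives -/

section

variable {ρ : ℕ} {I ν : Type} [Fintype I] [DecidableEq I] [Fintype ν] [DecidableEq ν]
variable {P Q : I → Fin ρ} {k : ℂ} {K : Subfield ℂ}

/-- the logarithmic derivatives have the shape of the Lie algebra -/
theorem lie_of_der (hk : k ≠ 0) {Ω : M2} {τ : ℂ} (hτ : τ ≠ 0)
    (hdet : Ω 0 0 * Ω 1 1 - Ω 0 1 * Ω 1 0 = k * τ) {U : Fin ρ → Fin 2 → ℂ} {s : I → ℂ}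
    {N₀ : Matrix ν ν ℂ} (hN : IsUnit N₀) (D : Derivation K ℂ ℂ)
    (hD : D k = 0) :
    ∃ (A : M2) (Y : Fin ρ → Fin 2 → ℂ) (t : I → ℂ) (V : Matrix ν ν ℂ),
      lie P Q k A Y t V * mat P Q Ω τ U s N₀ = (mat P Q Ω τ U s N₀).map D ∧
      (∀ a c, A a 0 * Ω 0 c + A a 1 * Ω 1 c = D (Ω a c)) ∧
      (∀ j c, Y j 0 * Ω 0 c + Y j 1 * Ω 1 c = D (U j c)) ∧ (A 0 0 + A 1 1) * τ = D τ ∧
      V * N₀ = N₀.map D := by
  have hd : k * τ ≠ 0 := mul_ne_zero hk hτ
  set d := k * τ with hddef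
  -- solve the linear systems
  set A : M2 := Matrix.of fun a c => (![D (Ω a 0) * Ω 1 1 - D (Ω a 1) * Ω 1 0,
    D (Ω a 1) * Ω 0 0 - D (Ω a 0) * Ω 0 1] c) / d with hA
  set Y : Fin ρ → Fin 2 → ℂ := fun j c => (![D (U j 0) * Ω 1 1 - D (U j 1) * Ω 1 0,
    D (U j 1) * Ω 0 0 - D (U j 0) * Ω 0 1] c) / d with hY
  have hA0 : ∀ a, A a 0 = (D (Ω a 0) * Ω 1 1 - D (Ω a 1) * Ω 1 0) / d := fun a => rfl
  have hA1 : ∀ a, A a 1 = (D (Ω a 1) * Ω 0 0 - D (Ω a 0) * Ω 0 1) / d := fun a => rfl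
  have hY0 : ∀ j, Y j 0 = (D (U j 0) * Ω 1 1 - D (U j 1) * Ω 1 0) / d := fun a => rfl
  have hY1 : ∀ j, Y j 1 = (D (U j 1) * Ω 0 0 - D (U j 0) * Ω 0 1) / d := fun a => rfl
  have h1 : ∀ a c, A a 0 * Ω 0 c + A a 1 * Ω 1 c = D (Ω a c) := by
    intro a c
    rw [hA0, hA1, div_mul_eq_mul_div, div_mul_eq_mul_div, ← add_div, div_eq_iff hd]
    fin_cases c
    · simp only [Fin.zero_eta]
      linear_combination (D (Ω a 0)) * hdet
    · simp only [Fin.mk_one]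
      linear_combination (D (Ω a 1)) * hdet
  have h2 : ∀ j c, Y j 0 * Ω 0 c + Y j 1 * Ω 1 c = D (U j c) := by
    intro j c
    rw [hY0, hY1, div_mul_eq_mul_div, div_mul_eq_mul_div, ← add_div, div_eq_iff hd]
    fin_cases c
    · simp only [Fin.zero_eta]
      linear_combination (D (U j 0)) * hdet
    · simp only [Fin.mk_one]
      linear_combination (D (U j 1)) * hdet
  have h3 : (A 0 0 + A 1 1) * τ = D τ := by
    have e1 := congrArg D hdet
    rw [hddef] at e1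
    simp only [map_sub, Derivation.leibniz, smul_eq_mul, hD, mul_zero, add_zero] at e1
    apply mul_left_cancel₀ hk
    rw [← e1]
    have e2 : k * ((A 0 0 + A 1 1) * τ) = (A 0 0 + A 1 1) * d := by rw [hddef]; ring
    rw [e2, ← hdet]
    linear_combination (Ω 1 1) * h1 0 0 - (Ω 1 0) * h1 0 1 + Ω 0 0 * h1 1 1 - Ω 0 1 * h1 1 0
  set t : I → ℂ := fun e => (D (s e) - (Y (P e) 0 * (Ω 0 1 * U (Q e) 0 - Ω 0 0 * U (Q e) 1) +
            Y (P e) 1 * (Ω 1 1 * U (Q e) 0 - Ω 1 0 * U (Q e) 1))) / τ with ht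
  have ht' : ∀ e, t e * τ = D (s e) - (Y (P e) 0 * (Ω 0 1 * U (Q e) 0 - Ω 0 0 * U (Q e) 1) +
            Y (P e) 1 * (Ω 1 1 * U (Q e) 0 - Ω 1 0 * U (Q e) 1)) := fun e => by
    rw [ht]
    exact div_mul_cancel₀ _ hτ
  set V : Matrix ν ν ℂ := N₀.map D * N₀⁻¹ with hV
  have hV' : V * N₀ = N₀.map D := by
    rw [hV, Matrix.mul_assoc, Matrix.nonsing_inv_mul _ ((Matrix.isUnit_iff_isUnit_det _).1 hN),
      Matrix.mul_one]
  have key : lie P Q k A Y t V * mat P Q Ω τ U s N₀ = (mat P Q Ω τ U s N₀).map D := by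
    rw [lie_mul_mat P Q k A Ω τ hdet]
    have hAΩ : ∀ a c, (A * Ω) a c = D (Ω a c) := fun a c => by
      rw [Matrix.mul_apply, Fin.sum_univ_two, h1]
    unfold mat
    rw [bd_map _ _ _ _ _ (map_zero D)]
    simp only [b3_map _ (map_zero D), b4_map _ (map_zero D), hAΩ, h2, h3,
      ht', D.map_one_eq_zero]
    congr 1
    · ext a c
      exact hAΩ a c
    · funext e
      congr 1
      · simp only [map_sub, Derivation.leibniz, smul_eq_mul]
        ring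
      · simp only [map_sub, Derivation.leibniz, smul_eq_mul]
        ring
      · ring
  exact ⟨A, Y, t, V, key, h1, h2, h3, hV'⟩

theorem lie_inj {A A' : M2} {Y Y' : Fin ρ → Fin 2 → ℂ} {t t' : I → ℂ} {V V' : Matrix ν ν ℂ}
    (h : lie P Q k A Y t V = lie P Q k A' Y' t' V') : V = V' ∧ A = A' := by
  unfold lie bd at h
  have h1 := fromBlocks_inj.1 h
  have h2 := fromBlocks_inj.1 h1.2.2.2
  have h3 := fromBlocks_inj.1 h2.2.2.2
  exact ⟨h3.2.2.2, h1.1⟩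

end

end Pool.Agent.U100.FP
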