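import Pool.Agent.U100.FP.Ext

/-!
# Several curves: the main step
-/

set_option autoImplicit false
set_option linter.unusedSectionVars false
set_option linter.unusedSimpArgs false

open Matrix
open scoped PeriodPair

namespace Pool.Agent.U100.FP

open Pool.Agent.U725.OM (M2 fin2 QB mem_QB der_of_mem ell_of notMem_of_indep)
open H667R3

section lin

variable {ρ : ℕ} {I ν : Type} [Fintype I] [DecidableEq I] [Fintype ν] [DecidableEq ν]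

/-- the part of negative weights -/
def Jb (P Q : I → Fin ρ) (k : ℂ) : Submodule ℂ (Matrix (BB ρ I ν) (BB ρ I ν) ℂ) where
  carrier := {V | ∃ Y t, V = lie P Q k 0 Y t 0}
  zero_mem' := ⟨0, 0, (lie_zero P Q k).symm⟩
  add_mem' := by
    rintro _ _ ⟨Y, t, rfl⟩ ⟨Y', t', rfl⟩
    exact ⟨Y + Y', t + t', by rw [lie_add, add_zero, add_zero]⟩
  smul_mem' := by
    rintro c _ ⟨Y, t, rfl⟩
    exact ⟨c • Y, c • t, by rw [lie_smul, smul_zero, smul_zero]⟩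

/-- the part of weight `-2` -/
def Jc (P Q : I → Fin ρ) (k : ℂ) : Submodule ℂ (Matrix (BB ρ I ν) (BB ρ I ν) ℂ) where
  carrier := {V | ∃ t, V = lie P Q k 0 0 t 0}
  zero_mem' := ⟨0, (lie_zero P Q k).symm⟩
  add_mem' := by
    rintro _ _ ⟨t, rfl⟩ ⟨t', rfl⟩
    exact ⟨t + t', by rw [lie_add, add_zero, add_zero, add_zero]⟩
  smul_mem' := by
    rintro c _ ⟨t, rfl⟩
    exact ⟨c • t, by rw [lie_smul, smul_zero, smul_zero, smul_zero]⟩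

theorem jb_br (P Q : I → Fin ρ) (k : ℂ) (A A' : M2) (hA : A * A' - A' * A = 0) (Y Y' : Fin ρ → Fin 2 → ℂ)
    (t t' : I → ℂ) (V V' : Matrix ν ν ℂ) (hV : V * V' - V' * V = 0) :
    lie P Q k A Y t V * lie P Q k A' Y' t' V' - lie P Q k A' Y' t' V' * lie P Q k A Y t V ∈
      Jb (ν := ν) P Q k := by
  rw [lie_br, hA, hV]
  exact ⟨_, _, rfl⟩

theorem jc_br (P Q : I → Fin ρ) (k : ℂ) (Y Y' : Fin ρ → Fin 2 → ℂ) (t t' : I → ℂ) :
    lie P Q k 0 Y t (0 : Matrix ν ν ℂ) * lie P Q k 0 Y' t' 0 - lie P Q k 0 Y' t' 0 * lie P Q k 0 Y t 0 ∈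
      Jc (ν := ν) P Q k := by
  rw [lie_br, Matrix.mul_zero, sub_self]
  have e : (fun (j : Fin ρ) (b : Fin 2) => (Y j 0 * (0 : M2) 0 b + Y j 1 * (0 : M2) 1 b) -
      (Y' j 0 * (0 : M2) 0 b + Y' j 1 * (0 : M2) 1 b)) = 0 := by
    funext j b
    simp
  rw [e, Matrix.mul_zero, sub_self]
  exact ⟨_, rfl⟩

theorem jc_br0 (P Q : I → Fin ρ) (k : ℂ) (t t' : I → ℂ) :
    lie P Q k 0 0 t (0 : Matrix ν ν ℂ) * lie P Q k 0 0 t' 0 - lie P Q k 0 0 t' 0 * lie P Q k 0 0 t 0 = 0 := by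
  rw [lie_br, ← lie_zero P Q k]
  congr 1
  · simp
  · funext j b
    simp
  · funext e
    simp
  · simp

end lin

section down

variable {ρ ρ' : ℕ} {I I' ν : Type} [Fintype I] [DecidableEq I] [Fintype I'] [DecidableEq I']
  [Fintype ν] [DecidableEq ν]
variable {P Q : I → Fin ρ} {P' Q' : I' → Fin ρ'} {k k' : ℂ} {K : Subfield ℂ} {τ : ℂ}
  {R : M2 → (Fin ρ' → Fin 2 → ℂ) → (I' → ℂ) → Matrix (BB ρ I ν) (BB ρ I ν) ℂ → Prop}
  {Ω Ω' : M2} {U : Fin ρ → Fin 2 → ℂ} {U' : Fin ρ' → Fin 2 → ℂ} {s : I → ℂ} {N₀ : Matrix ν ν ℂ}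

/-- the elements whose last block has the shape of the other motive -/
theorem Alg.sub_lie (h : Alg K P' Q' k' R Ω' τ U' (mat P Q Ω τ U s N₀)) (hk : k ≠ 0) (kK : k ∈ K)
    (hdet : Ω 0 0 * Ω 1 1 - Ω 0 1 * Ω 1 0 = k * τ) (hN : IsUnit N₀) :
    Alg K P' Q' k' (fun A' Y' t' V' => R A' Y' t' V' ∧ ∃ A Y t V, V' = lie P Q k A Y t V)
      Ω' τ U' (mat P Q Ω τ U s N₀) where
  hK := h.hK
  k0 := h.k0
  kK := h.kK
  τK := h.τK
  det := h.det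
  ell := h.ell
  inj := h.inj
  zero := ⟨h.zero, 0, 0, 0, 0, (lie_zero P Q k).symm⟩
  add := by
    rintro A A' Y Y' t t' _ _ ⟨h1, A1, Y1, t1, V1, rfl⟩ ⟨h2, A2, Y2, t2, V2, rfl⟩
    exact ⟨h.add h1 h2, _, _, _, _, lie_add P Q k _ _ _ _ _ _ _ _⟩
  smul := by
    rintro c A Y t _ ⟨h1, A1, Y1, t1, V1, rfl⟩
    exact ⟨h.smul c h1, _, _, _, _, lie_smul P Q k _ _ _ _ _⟩
  br := by
    rintro A A' Y Y' t t' _ _ ⟨h1, A1, Y1, t1, V1, rfl⟩ ⟨h2, A2, Y2, t2, V2, rfl⟩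
    exact ⟨h.br h1 h2, _, _, _, _, lie_br P Q k _ _ _ _ _ _ _ _⟩
  aut := by
    rintro σ hσ A Y t _ ⟨h1, A1, Y1, t1, V1, rfl⟩
    exact ⟨h.aut hσ h1, _, _, _, _, lie_map P Q k (σ : ℂ →+* ℂ) (hσ k kK) A1 Y1 t1 V1⟩
  logd := by
    intro D
    obtain ⟨A', Y', t', V', h1, h2, h3, h4, h5⟩ := h.logd D
    obtain ⟨A, Y, t, V, e1, -, -, -, -⟩ := lie_of_der (P := P) (Q := Q) (U := U) (s := s) hk h.τ0 hdet hN D
      (der_of_mem D kK)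
    have hu : IsUnit (mat P Q Ω τ U s N₀) := mat_unit P Q hk h.τ0 hdet _ _ hN
    have h6 : V' = lie P Q k A Y t V := hu.mul_right_cancel (h5.trans e1.symm)
    exact ⟨A', Y', t', V', ⟨h1, A, Y, t, V, h6⟩, h2, h3, h4, h5⟩

/-- the Lie algebra with the other motive removed -/
theorem Alg.down (h : Alg K P' Q' k' R Ω' τ U' (mat P Q Ω τ U s N₀)) (hk : k ≠ 0) (kK : k ∈ K)
    (hdet : Ω 0 0 * Ω 1 1 - Ω 0 1 * Ω 1 0 = k * τ) (hN : IsUnit N₀) :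
    Alg K P' Q' k' (fun A' Y' t' V => ∃ A Y t, R A' Y' t' (lie P Q k A Y t V))
      Ω' τ U' N₀ where
  hK := h.hK
  k0 := h.k0
  kK := h.kK
  τK := h.τK
  det := h.det
  ell := h.ell
  inj := h.inj
  zero := ⟨0, 0, 0, by rw [lie_zero]; exact h.zero⟩
  add := by
    rintro A A' Y Y' t t' V V' ⟨A1, Y1, t1, h1⟩ ⟨A2, Y2, t2, h2⟩
    have h3 := h.add h1 h2
    rw [lie_add] at h3
    exact ⟨_, _, _, h3⟩
  smul := by
    rintro c A Y t V ⟨A1, Y1, t1, h1⟩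
    have h3 := h.smul c h1
    rw [lie_smul] at h3
    exact ⟨_, _, _, h3⟩
  br := by
    rintro A A' Y Y' t t' V V' ⟨A1, Y1, t1, h1⟩ ⟨A2, Y2, t2, h2⟩
    have h3 := h.br h1 h2
    rw [lie_br] at h3
    exact ⟨_, _, _, h3⟩
  aut := by
    rintro σ hσ A Y t V ⟨A1, Y1, t1, h1⟩
    refine ⟨A1.map σ, fun j b => σ (Y1 j b), fun e => σ (t1 e), ?_⟩
    have h2 := lie_map P Q k (σ : ℂ →+* ℂ) (hσ k kK) A1 Y1 t1 V
    have h3 := h.aut hσ h1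
    have h4 : (lie P Q k A1 Y1 t1 V).map σ = lie P Q k (A1.map σ) (fun j b => σ (Y1 j b))
      (fun e => σ (t1 e)) (V.map σ) := h2
    rw [h4] at h3
    exact h3
  logd := by
    intro D
    obtain ⟨A', Y', t', V', h1, h2, h3, h4, h5⟩ := h.logd D
    obtain ⟨A, Y, t, V, e1, -, -, -, e5⟩ := lie_of_der (P := P) (Q := Q) (U := U) (s := s) hk h.τ0 hdet hN D
      (der_of_mem D kK)
    have hu : IsUnit (mat P Q Ω τ U s N₀) := mat_unit P Q hk h.τ0 hdet _ _ hN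
    have h6 : V' = lie P Q k A Y t V := hu.mul_right_cancel (h5.trans e1.symm)
    rw [h6] at h1
    exact ⟨A', Y', t', V, ⟨A, Y, t, h1⟩, h2, h3, h4, e5⟩

/-- the flat relation of the other motive -/
theorem flat_lie (hK : ∀ x, x ∈ K ↔ IsAlgebraic ℚ x) (hk : k ≠ 0) (kK : k ∈ K) (τK : τ ∉ K)
    (hdet : Ω 0 0 * Ω 1 1 - Ω 0 1 * Ω 1 0 = k * τ) (hN : IsUnit N₀)
    (ell : ∀ σ r : ℂ, σ ∈ K → r ∈ K → (σ ≠ 0 ∨ r ≠ 0) → ∀ (lam : Fin ρ → ℂ) (γ : Fin 2 → ℂ),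
      (∀ j, lam j ∈ K) → (∀ a, γ a ∈ K) →
      ∑ j, lam j * (σ * U j 1 + r * U j 0) + ∑ a, γ a * (σ * Ω a 1 + r * Ω a 0) ∈ K →
      lam = 0 ∧ γ = 0) :
    Flat K k (fun A V' => ∃ Y t V, V' = lie P Q k A Y t V) Ω τ (mat P Q Ω τ U s N₀) where
  hK := hK
  k0 := hk
  kK := kK
  τK := τK
  det := hdet
  ell := by
    intro σ r hσ hr h0 lam γ _ hγ h1
    refine ⟨Subsingleton.elim _ _, ?_⟩
    refine (ell σ r hσ hr h0 0 γ (fun _ => K.zero_mem) hγ ?_).2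
    simpa using h1
  inj e := e.elim
  zero := ⟨0, 0, 0, (lie_zero P Q k).symm⟩
  add := by
    rintro A A' _ _ _ _ _ _ ⟨Y1, t1, V1, rfl⟩ ⟨Y2, t2, V2, rfl⟩
    exact ⟨_, _, _, lie_add P Q k _ _ _ _ _ _ _ _⟩
  smul := by
    rintro c A _ _ _ ⟨Y1, t1, V1, rfl⟩
    exact ⟨_, _, _, lie_smul P Q k _ _ _ _ _⟩
  br := by
    rintro A A' _ _ _ _ _ _ ⟨Y1, t1, V1, rfl⟩ ⟨Y2, t2, V2, rfl⟩
    exact ⟨_, _, _, lie_br P Q k _ _ _ _ _ _ _ _⟩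
  aut := by
    rintro σ hσ A _ _ _ ⟨Y1, t1, V1, rfl⟩
    exact ⟨_, _, _, lie_map P Q k (σ : ℂ →+* ℂ) (hσ k kK) A Y1 t1 V1⟩
  logd := by
    intro D
    have hτ : τ ≠ 0 := fun h0 => τK (by rw [h0]; exact K.zero_mem)
    obtain ⟨A, Y, t, V, e1, e2, -, e4, -⟩ := lie_of_der (P := P) (Q := Q) (U := U) (s := s) hk hτ hdet hN D
      (der_of_mem D kK)
    exact ⟨A, fun j => j.elim0, fun e => e.elim, lie P Q k A Y t V, ⟨Y, t, V, rfl⟩, e2, fun j => j.elim0, e4, e1⟩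

/-- a matrix which commutes with all matrices of trace zero up to scalars is scalar -/
theorem scalar_of_comm {A : M2} (h : ∀ B : M2, B 0 0 + B 1 1 = 0 → ∃ c : ℂ, A * B - B * A = c • (1 : M2)) :
    ∃ c : ℂ, A = c • (1 : M2) := by
  have h' : ∀ B : M2, B 0 0 + B 1 1 = 0 → A * B - B * A = 0 := by
    intro B hB
    obtain ⟨c, hc⟩ := h B hB
    have e0 := congrFun (congrFun hc 0) 0
    have e1 := congrFun (congrFun hc 1) 1
    simp [Matrix.mul_apply, Fin.sum_univ_two] at e0 e1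
    have : c = 0 := by linear_combination -(1/2 : ℂ) * e0 - (1/2 : ℂ) * e1
    rw [hc, this, zero_smul]
  have hE := h' !![0, 1; 0, 0] (by simp)
  have hF := h' !![0, 0; 1, 0] (by simp)
  have a1 := congrFun (congrFun hE 0) 0
  have a2 := congrFun (congrFun hE 0) 1
  have a3 := congrFun (congrFun hF 0) 0
  simp only [Matrix.sub_apply, Matrix.mul_apply, Fin.sum_univ_two] at a1 a2 a3
  simp at a1 a2 a3
  refine ⟨A 0 0, ?_⟩
  ext i j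
  fin_cases i <;> fin_cases j
  · simp
  · simpa using a3
  · simpa using a1
  · simp
    linear_combination -a2

/-- **The main step.** -/
theorem ext_step (h : Alg K P' Q' k' R Ω' τ U' (mat P Q Ω τ U s N₀)) (hk : k ≠ 0) (kK : k ∈ K)
    (hdet : Ω 0 0 * Ω 1 1 - Ω 0 1 * Ω 1 0 = k * τ) (hN : IsUnit N₀)
    (ell : ∀ σ r : ℂ, σ ∈ K → r ∈ K → (σ ≠ 0 ∨ r ≠ 0) → ∀ (lam : Fin ρ → ℂ) (γ : Fin 2 → ℂ),
      (∀ j, lam j ∈ K) → (∀ a, γ a ∈ K) →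
      ∑ j, lam j * (σ * U j 1 + r * U j 0) + ∑ a, γ a * (σ * Ω a 1 + r * Ω a 0) ∈ K →
      lam = 0 ∧ γ = 0)
    (hgood : ∀ B : M2, B 0 0 + B 1 1 = 0 → ∃ Y' t' A Y t, R B Y' t' (lie P Q k A Y t 0))
    (hun : ¬ ∃ g C : M2, (∀ a b, g a b ∈ K) ∧ (∀ a b, C a b ∈ K) ∧ g.det ≠ 0 ∧ g * Ω = Ω' * C)
    (B : M2) (hB : B 0 0 + B 1 1 = 0) : ∃ Y' t', R B Y' t' 0 := by
  have h' := h.sub_lie hk kK hdet hN
  by_cases hns : ∃ A ∈ h'.prj (Jb P Q k), ∀ c : ℂ, A ≠ c • (1 : M2)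
  · -- the part of the other motive can be removed
    have h1 := h'.prj_ideal (J := Jb P Q k) (by
      rintro _ ⟨Y1, t1, rfl⟩ A Y t _ ⟨-, A2, Y2, t2, V2, rfl⟩
      exact jb_br P Q k _ _ (by simp) _ _ _ _ _ _ (by simp)) hns
    have h2 := h'.prj_derived (J := Jb P Q k) (J' := Jc P Q k) (by
      rintro _ ⟨Y1, t1, rfl⟩ _ ⟨Y2, t2, rfl⟩
      exact jc_br P Q k _ _ _ _) h1
    have h3 := h'.prj_derived (J := Jc P Q k) (J' := ⊥) (by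
      rintro _ ⟨t1, rfl⟩ _ ⟨t2, rfl⟩
      rw [jc_br0]
      exact Submodule.zero_mem _) h2 B hB
    obtain ⟨Y, t, V, hV, h4, -⟩ := h3
    rw [(Submodule.mem_bot ℂ).1 hV] at h4
    exact ⟨Y, t, h4⟩
  · exfalso
    push Not at hns
    have hsc : ∀ (A' : M2) (Y' : Fin ρ' → Fin 2 → ℂ) (t' : I' → ℂ) (c : ℂ) (Y : Fin ρ → Fin 2 → ℂ) (t : I → ℂ)
        (V : Matrix ν ν ℂ), R A' Y' t' (lie P Q k (c • 1) Y t V) → ∃ c' : ℂ, A' = c' • (1 : M2) := by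
      intro A' Y' t' c Y t V h1
      refine scalar_of_comm fun B hB => ?_
      obtain ⟨Y1, t1, A2, Y2, t2, h2⟩ := hgood B hB
      have h3 := h.br h1 h2
      refine hns _ ⟨_, _, _, ?_, ⟨h3, ?_⟩⟩
      · refine jb_br P Q k _ _ ?_ _ _ _ _ _ _ (by simp)
        rw [Matrix.smul_mul, Matrix.mul_smul, Matrix.one_mul, Matrix.mul_one, sub_self]
      · exact ⟨_, _, _, _, lie_br P Q k _ _ _ _ _ _ _ _⟩
    have hf : ∀ b : Bool, Flat K (cond b k k')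
        (cond b (fun A V' => ∃ Y t V, V' = lie P Q k A Y t V)
          (fun A' V' => ∃ Y' t', R A' Y' t' V' ∧ ∃ A Y t V, V' = lie P Q k A Y t V))
        (cond b Ω Ω') τ (mat P Q Ω τ U s N₀) := by
      intro b
      cases b
      · exact h'.flat
      · exact flat_lie h.hK hk kK h.τK hdet hN ell
    have hu : IsUnit (mat P Q Ω τ U s N₀) := mat_unit P Q hk h.τ0 hdet _ _ hN
    refine hun (linked (Ω := fun b => cond b Ω Ω') hf hu (i := false) (j := true) ?_)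
    rintro x hx ⟨c, hc⟩
    obtain ⟨Y, t, V, h1⟩ := hx true
    obtain ⟨Y', t', h2, -⟩ := hx false
    rw [h1, hc] at h2
    exact hsc _ _ _ _ _ _ _ h2

end down

/-- the arithmetic information -/
theorem cur_ell {L : PeriodPair} {n : ℤ} (hC : Cur L n) {ρ : ℕ} {I : Type} {P Q : I → Fin ρ}
    {w : Fin ρ → ℂ} (hP : Pts L P Q w) : ∀ σ r : ℂ, σ ∈ QB → r ∈ QB → (σ ≠ 0 ∨ r ≠ 0) →
      ∀ (lam : Fin ρ → ℂ) (γ : Fin 2 → ℂ), (∀ j, lam j ∈ QB) → (∀ a, γ a ∈ QB) →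
      ∑ j, lam j * (σ * uu L w j 1 + r * uu L w j 0) + ∑ a, γ a * (σ * per L a 1 + r * per L a 0) ∈ QB →
      lam = 0 ∧ γ = 0 := by
  intro σ r hσ hr hσr lam γ hlam hγ h0
  refine ell_of hC.h2 hC.h3 hC.hL (fun j => ⟨notMem_of_indep hP.hi j, hP.hw j⟩) hP.hi σ r
    (mem_QB.1 hσ) (mem_QB.1 hr) hσr lam γ (fun j => mem_QB.1 (hlam j)) (fun a => mem_QB.1 (hγ a)) ?_
  rw [mem_QB] at h0
  simpa [Fin.sum_univ_two, per] using h0

/-- **A curve which is not exceptional for `N` is not exceptional for `M ⊕ N`, for 1-motives `M` over powers of another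
curve.** -/
theorem GoodA.ext {ν : Type} [Fintype ν] [DecidableEq ν] {N₀ : Matrix ν ν ℂ} {L L' : PeriodPair} {n n' : ℤ}
    (hC : Cur L n) (hN : IsUnit N₀) (hg : GoodA L' n' N₀)
    (hun : ¬ ∃ g C : M2, (∀ a b, g a b ∈ QB) ∧ (∀ a b, C a b ∈ QB) ∧ g.det ≠ 0 ∧ g * per L = per L' * C)
    {ρ : ℕ} {I : Type} [Fintype I] [DecidableEq I] {P Q : I → Fin ρ} {w : Fin ρ → ℂ} (hP : Pts L P Q w)
    (s : I → ℂ) : GoodA L' n' (mat P Q (per L) tpi (uu L w) s N₀) := by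
  intro ρ' I' fI' dI' P' Q' w' hP' R h A hA Y t
  have hn : (n : ℂ) ≠ 0 := by exact_mod_cast hC.hn
  refine h.perfect (fun B hB => ?_) A hA Y t
  refine ext_step h hn (intCast_mem _ _) hC.det hN (cur_ell hC hP) (fun B hB => ?_) hun B hB
  obtain ⟨A, Y, t, h1⟩ := hg ρ' I' fI' dI' P' Q' w' hP' _ (h.down hn (intCast_mem _ _) hC.det hN) B hB 0 0
  exact ⟨0, 0, A, Y, t, h1⟩

end Pool.Agent.U100.FP
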