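import Pool.Agent.U100.FP.Ext2

/-!
# Several curves: the Tate motive and the smallest subtorsor
-/

set_option autoImplicit false
set_option linter.unusedSectionVars false
set_option linter.unusedSimpArgs false

open Matrix
open scoped PeriodPair

namespace Pool.Agent.U100.FP

open Pool.Agent.U725.OM (M2 fin2 QB mem_QB der_of_mem)
open H667R3

section tate

variable {ρ : ℕ} {I ν : Type} [Fintype I] [DecidableEq I] [Fintype ν] [DecidableEq ν]
variable {P Q : I → Fin ρ} {k : ℂ} {K : Subfield ℂ} {τ : ℂ}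
  {R : M2 → (Fin ρ → Fin 2 → ℂ) → (I → ℂ) → Matrix (Unit ⊕ ν) (Unit ⊕ ν) ℂ → Prop}
  {Ω : M2} {U : Fin ρ → Fin 2 → ℂ} {N₀ : Matrix ν ν ℂ}

theorem sm_zero : smR (0 : ℂ) (0 : Matrix ν ν ℂ) = 0 := by
  unfold smR
  rw [← fromBlocks_zero]
  congr 1

theorem sm_add (c c' : ℂ) (V V' : Matrix ν ν ℂ) : smR c V + smR c' V' = smR (c + c') (V + V') := by
  unfold smR
  rw [fromBlocks_add, add_zero]
  congr 1
  simp

theorem sm_smul (a c : ℂ) (V : Matrix ν ν ℂ) : a • smR c V = smR (a * c) (a • V) := by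
  unfold smR
  rw [fromBlocks_smul, smul_zero]
  congr 1
  simp

theorem sm_br (c c' : ℂ) (V V' : Matrix ν ν ℂ) :
    smR c V * smR c' V' - smR c' V' * smR c V = smR 0 (V * V' - V' * V) := by
  rw [sm_mul, sm_mul]
  have h : ∀ X Y : Matrix (Unit ⊕ ν) (Unit ⊕ ν) ℂ, X - Y = X + (-1 : ℂ) • Y := fun X Y => by
    rw [neg_one_smul, sub_eq_add_neg]
  rw [h, sm_smul, sm_add, neg_one_smul, ← sub_eq_add_neg]
  congr 1
  ring

theorem sm_mapD (D : Derivation K ℂ ℂ) (c : ℂ) (V : Matrix ν ν ℂ) : (smR c V).map D = smR (D c) (V.map D) := by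
  unfold smR
  rw [fromBlocks_map, Matrix.map_zero _ (map_zero D), Matrix.map_zero _ (map_zero D)]
  rfl

/-- the Lie algebra with the Tate motive removed -/
theorem Alg.down_sm (h : Alg K P Q k R Ω τ U (smR τ N₀)) (hN : IsUnit N₀) :
    Alg K P Q k (fun A Y t V => ∃ c, R A Y t (smR c V)) Ω τ U N₀ where
  hK := h.hK
  k0 := h.k0
  kK := h.kK
  τK := h.τK
  det := h.det
  ell := h.ell
  inj := h.inj
  zero := ⟨0, by rw [sm_zero]; exact h.zero⟩
  add := by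
    rintro A A' Y Y' t t' V V' ⟨c, h1⟩ ⟨c', h2⟩
    have h3 := h.add h1 h2
    rw [sm_add] at h3
    exact ⟨_, h3⟩
  smul := by
    rintro a A Y t V ⟨c, h1⟩
    have h3 := h.smul a h1
    rw [sm_smul] at h3
    exact ⟨_, h3⟩
  br := by
    rintro A A' Y Y' t t' V V' ⟨c, h1⟩ ⟨c', h2⟩
    have h3 := h.br h1 h2
    rw [sm_br] at h3
    exact ⟨_, h3⟩
  aut := by
    rintro σ hσ A Y t V ⟨c, h1⟩
    have h3 := h.aut hσ h1
    have h4 : (smR c V).map σ = smR (σ c) (V.map σ) := smR_map (σ : ℂ →+* ℂ) c V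
    rw [h4] at h3
    exact ⟨_, h3⟩
  logd := by
    intro D
    obtain ⟨A', Y', t', V', h1, h2, h3, h4, h5⟩ := h.logd D
    have hu : IsUnit (smR τ N₀) := sm_unit.2 ⟨h.τ0, hN⟩
    have e5 : (N₀.map D * N₀⁻¹) * N₀ = N₀.map D := by
      rw [Matrix.mul_assoc, Matrix.nonsing_inv_mul _ ((Matrix.isUnit_iff_isUnit_det _).1 hN), Matrix.mul_one]
    have e1 : smR (D τ / τ) (N₀.map D * N₀⁻¹) * smR τ N₀ = (smR τ N₀).map D := by
      rw [sm_mul, sm_mapD, e5, div_mul_cancel₀ _ h.τ0]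
    have h6 : V' = smR (D τ / τ) (N₀.map D * N₀⁻¹) := hu.mul_right_cancel (h5.trans e1.symm)
    rw [h6] at h1
    exact ⟨A', Y', t', _, ⟨_, h1⟩, h2, h3, h4, e5⟩

/-- the Tate part -/
def Jt (ν : Type) [Fintype ν] [DecidableEq ν] : Submodule ℂ (Matrix (Unit ⊕ ν) (Unit ⊕ ν) ℂ) where
  carrier := {V | ∃ c, V = smR c 0}
  zero_mem' := ⟨0, sm_zero.symm⟩
  add_mem' := by
    rintro _ _ ⟨c, rfl⟩ ⟨c', rfl⟩
    exact ⟨_, by rw [sm_add, add_zero]⟩
  smul_mem' := by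
    rintro a _ ⟨c, rfl⟩
    exact ⟨_, by rw [sm_smul, smul_zero]⟩

theorem GoodA.tate {L : PeriodPair} {n : ℤ} (hN : IsUnit N₀) (hg : GoodA L n N₀) :
    GoodA L n (smR tpi N₀) := by
  intro ρ I fI dI P Q w hP R h A hA Y t
  refine h.perfect (fun B hB => ?_) A hA Y t
  have h1 : ∀ B : M2, B 0 0 + B 1 1 = 0 → B ∈ h.prj (Jt ν) := by
    intro B hB
    obtain ⟨c, h2⟩ := hg ρ I fI dI P Q w hP _ (h.down_sm hN) B hB 0 0
    exact ⟨_, _, _, ⟨c, rfl⟩, h2⟩
  have h3 := h.prj_derived (J := Jt ν) (J' := ⊥) (by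
    rintro _ ⟨c, rfl⟩ _ ⟨c', rfl⟩
    rw [sm_br, Matrix.mul_zero, sub_self, sm_zero]
    exact Submodule.zero_mem _) h1 B hB
  obtain ⟨Y, t, V, hV, h4⟩ := h3
  rw [(Submodule.mem_bot ℂ).1 hV] at h4
  exact ⟨Y, t, h4⟩

end tate

/-! ### The graph of a character -/

section graph

variable {K : Subfield ℂ} {B B' : Type} [Fintype B] [DecidableEq B] [Fintype B'] [DecidableEq B']

theorem ev_bind (x : Matrix B B ℂ) (M : Matrix B' B' (MvPolynomial (B × B) K))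
    (p : MvPolynomial (B' × B') K) :
    ev K x (MvPolynomial.bind₁ (fun b : B' × B' => M b.1 b.2) p) = ev K (M.map (ev K x)) p := by
  have h1 : (ev K x).comp
      (MvPolynomial.bind₁ fun b : B' × B' => M b.1 b.2 :
        MvPolynomial (B' × B') K →ₐ[K] _).toRingHom = ev K (M.map (ev K x)) := by
    apply MvPolynomial.ringHom_ext
    · intro c
      simp [ev]
    · intro b
      simp [ev]
  exact RingHom.congr_fun h1 p

/-- the row and the column of `b₀` are zero outside of the diagonal -/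
def Split (b₀ : B) (x : Matrix B B ℂ) : Prop := ∀ b, b ≠ b₀ → x b₀ b = 0 ∧ x b b₀ = 0

theorem Split.mul_row {b₀ : B} {x : Matrix B B ℂ} (hx : Split b₀ x) (y : Matrix B B ℂ) (b : B) :
    (x * y) b₀ b = x b₀ b₀ * y b₀ b := by
  rw [Matrix.mul_apply, Finset.sum_eq_single b₀]
  · intro j _ hj
    rw [(hx j hj).1, zero_mul]
  · intro h
    exact absurd (Finset.mem_univ _) h

theorem Split.mul_col {b₀ : B} {y : Matrix B B ℂ} (hy : Split b₀ y) (x : Matrix B B ℂ) (b : B) :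
    (x * y) b b₀ = x b b₀ * y b₀ b₀ := by
  rw [Matrix.mul_apply, Finset.sum_eq_single b₀]
  · intro j _ hj
    rw [(hy j hj).2, mul_zero]
  · intro h
    exact absurd (Finset.mem_univ _) h

theorem Split.mul {b₀ : B} {x y : Matrix B B ℂ} (hx : Split b₀ x) (hy : Split b₀ y) : Split b₀ (x * y) := by
  intro b hb
  rw [hx.mul_row, hy.mul_col, (hy b hb).1, (hx b hb).2, mul_zero, zero_mul]
  exact ⟨rfl, rfl⟩

theorem Split.inv_apply {b₀ : B} {y : Matrix B B ℂ} (hy : Split b₀ y) (hu : IsUnit y) :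
    y⁻¹ b₀ b₀ = (y b₀ b₀)⁻¹ ∧ y b₀ b₀ ≠ 0 := by
  have h1 := congrFun (congrFun (Matrix.nonsing_inv_mul _ ((Matrix.isUnit_iff_isUnit_det y).1 hu)) b₀) b₀
  rw [hy.mul_col, Matrix.one_apply_eq] at h1
  exact ⟨eq_inv_of_mul_eq_one_left h1, right_ne_zero_of_mul_eq_one h1⟩

theorem Split.inv {b₀ : B} {y : Matrix B B ℂ} (hy : Split b₀ y) (hu : IsUnit y) : Split b₀ y⁻¹ := by
  have h0 := (hy.inv_apply hu).2
  intro b hb
  have h1 := congrFun (congrFun (Matrix.nonsing_inv_mul _ ((Matrix.isUnit_iff_isUnit_det y).1 hu)) b) b₀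
  have h2 := congrFun (congrFun (Matrix.mul_nonsing_inv _ ((Matrix.isUnit_iff_isUnit_det y).1 hu)) b₀) b
  rw [hy.mul_col, Matrix.one_apply_ne hb] at h1
  rw [hy.mul_row, Matrix.one_apply_ne hb.symm] at h2
  exact ⟨(mul_eq_zero.1 h2).resolve_left h0, (mul_eq_zero.1 h1).resolve_right h0⟩

theorem Split.xyz {b₀ : B} {x y z : Matrix B B ℂ} (hx : Split b₀ x) (hy : Split b₀ y) (hu : IsUnit y)
    (hz : Split b₀ z) : Split b₀ (x * y⁻¹ * z) ∧
      (x * y⁻¹ * z) b₀ b₀ = x b₀ b₀ * (y b₀ b₀)⁻¹ * z b₀ b₀ := by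
  refine ⟨(hx.mul (hy.inv hu)).mul hz, ?_⟩
  rw [hz.mul_col, hx.mul_row, (hy.inv_apply hu).1]

theorem xyz_unit {x y z : Matrix B B ℂ} (hx : IsUnit x) (hy : IsUnit y) (hz : IsUnit z) :
    IsUnit (x * y⁻¹ * z) := by
  obtain ⟨x, rfl⟩ := hx
  obtain ⟨y, rfl⟩ := hy
  obtain ⟨z, rfl⟩ := hz
  rw [← Matrix.coe_units_inv]
  exact ⟨x * y⁻¹ * z, rfl⟩

theorem split_sub (b₀ : B) : SubT K {x : Matrix B B ℂ | IsUnit x ∧ Split b₀ x} := by
  refine ⟨?_, {p | ∃ b, b ≠ b₀ ∧ (p = MvPolynomial.X (b₀, b) ∨ p = MvPolynomial.X (b, b₀))}, fun x => ?_⟩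
  · rintro x ⟨hx, hx'⟩ y ⟨hy, hy'⟩ z ⟨hz, hz'⟩
    exact ⟨xyz_unit hx hy hz, (hx'.xyz hy' hy hz').1⟩
  · refine and_congr_right fun _ => ⟨?_, ?_⟩
    · rintro hx p ⟨b, hb, rfl | rfl⟩
      · simpa using (hx b hb).1
      · simpa using (hx b hb).2
    · intro h b hb
      have h1 := h _ ⟨b, hb, Or.inl rfl⟩
      have h2 := h _ ⟨b, hb, Or.inr rfl⟩
      exact ⟨by simpa using h1, by simpa using h2⟩

theorem om_split {b₀ : B} {c : Matrix B B ℂ} (hc : IsUnit c) (h0 : Split b₀ c) {x : Matrix B B ℂ}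
    (hx : x ∈ Om K c) : IsUnit x ∧ Split b₀ x := hx _ (split_sub b₀) ⟨hc, h0⟩

/-- adding a character which is already there -/
theorem om_graph {b₀ : B} {c : Matrix B B ℂ} (hc : IsUnit c) (h0 : Split b₀ c) :
    Om K (smR (c b₀ b₀) c) = {y | ∃ x ∈ Om K c, y = smR (x b₀ b₀) x} := by
  have hO : SubT K (Om K c) := om_sub hc
  obtain ⟨J, hJ⟩ := hO.2
  apply Set.Subset.antisymm
  · intro y hy
    refine hy _ ⟨?_, ?_⟩ ⟨c, om_mem, rfl⟩
    · rintro _ ⟨x, hx, rfl⟩ _ ⟨x₁, hx₁, rfl⟩ _ ⟨x₂, hx₂, rfl⟩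
      obtain ⟨u, s⟩ := om_split hc h0 hx
      obtain ⟨u₁, s₁⟩ := om_split hc h0 hx₁
      obtain ⟨u₂, s₂⟩ := om_split hc h0 hx₂
      refine ⟨x * x₁⁻¹ * x₂, hO.1 _ hx _ hx₁ _ hx₂, ?_⟩
      rw [sm_inv (s₁.inv_apply u₁).2 u₁, sm_mul, sm_mul, (s.xyz s₁ u₁ s₂).2]
    · set G := gen K (Unit ⊕ B) with hG
      set V0 : Matrix B B (MvPolynomial ((Unit ⊕ B) × (Unit ⊕ B)) K) :=
        Matrix.of fun p q => G (Sum.inr p) (Sum.inr q) with hV0
      refine ⟨(Set.range fun b : (Unit ⊕ B) × (Unit ⊕ B) => G b.1 b.2 - smR (V0 b₀ b₀) V0 b.1 b.2) ∪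
        (MvPolynomial.bind₁ fun b : B × B => V0 b.1 b.2) '' J, fun y => ?_⟩
      have hGx : G.map (ev K y) = y := gen_map y
      have hVx : V0.map (ev K y) = Matrix.of fun p q => y (Sum.inr p) (Sum.inr q) := by
        conv_rhs => rw [← hGx]
        rfl
      have hVb : ev K y (V0 b₀ b₀) = y (Sum.inr b₀) (Sum.inr b₀) := by
        conv_rhs => rw [← hGx]
        rfl
      have hsx : (smR (V0 b₀ b₀) V0).map (ev K y) = smR (y (Sum.inr b₀) (Sum.inr b₀))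
          (Matrix.of fun p q => y (Sum.inr p) (Sum.inr q)) := by
        rw [smR_map, hVb, hVx]
      constructor
      · rintro ⟨x, hx, rfl⟩
        obtain ⟨u, s⟩ := om_split hc h0 hx
        have e0 : smR (x b₀ b₀) x (Sum.inr b₀) (Sum.inr b₀) = x b₀ b₀ := by simp [smR]
        have e0' : (Matrix.of fun p q => smR (x b₀ b₀) x (Sum.inr p) (Sum.inr q)) = x := by
          ext p q
          simp [smR]
        refine ⟨sm_unit.2 ⟨(s.inv_apply u).2, u⟩, ?_⟩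
        rintro p (⟨b, rfl⟩ | ⟨p, hp', rfl⟩)
        · change ev K _ (G b.1 b.2 - smR (V0 b₀ b₀) V0 b.1 b.2) = 0
          have e1 := congrFun (congrFun hsx b.1) b.2
          have e2 := congrFun (congrFun hGx b.1) b.2
          rw [Matrix.map_apply] at e1 e2
          rw [map_sub, e1, e2, e0, e0', sub_self]
        · change ev K _ (MvPolynomial.bind₁ _ p) = 0
          rw [ev_bind, hVx, e0']
          exact ((hJ _).1 hx).2 p hp'
      · rintro ⟨hu, hp⟩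
        have e1 : smR (y (Sum.inr b₀) (Sum.inr b₀))
            (Matrix.of fun p q => y (Sum.inr p) (Sum.inr q)) = y := by
          ext b b'
          have h1 := hp _ (Or.inl ⟨(b, b'), rfl⟩)
          have h2 : ev K y (G b b' - smR (V0 b₀ b₀) V0 b b') = 0 := h1
          rw [map_sub, sub_eq_zero] at h2
          rw [← hsx, Matrix.map_apply, ← h2, ← Matrix.map_apply (f := ev K y), hGx]
        have e2 := hu
        rw [← e1, sm_unit] at e2
        refine ⟨Matrix.of fun p q => y (Sum.inr p) (Sum.inr q), ?_, e1.symm⟩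
        rw [hJ]
        refine ⟨e2.2, fun p hp' => ?_⟩
        have h1 := hp _ (Or.inr ⟨p, hp', rfl⟩)
        have h2 : ev K y (MvPolynomial.bind₁ _ p) = 0 := h1
        rw [ev_bind, hVx] at h2
        exact h2
  · rintro _ ⟨x, hx, rfl⟩ T hT hcT
    obtain ⟨JT, hJT⟩ := hT.2
    have key : x ∈ {x | x ∈ Om K c ∧ smR (x b₀ b₀) x ∈ T} := by
      refine hx _ ⟨?_, ?_⟩ ⟨om_mem, hcT⟩
      · rintro x ⟨hx, hx'⟩ x₁ ⟨hx₁, hx₁'⟩ x₂ ⟨hx₂, hx₂'⟩
        obtain ⟨u, s⟩ := om_split hc h0 hx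
        obtain ⟨u₁, s₁⟩ := om_split hc h0 hx₁
        obtain ⟨u₂, s₂⟩ := om_split hc h0 hx₂
        refine ⟨hO.1 _ hx _ hx₁ _ hx₂, ?_⟩
        have h1 := hT.1 _ hx' _ hx₁' _ hx₂'
        rw [sm_inv (s₁.inv_apply u₁).2 u₁, sm_mul, sm_mul, ← (s.xyz s₁ u₁ s₂).2] at h1
        exact h1
      · set G := gen K B with hG
        refine ⟨J ∪ (MvPolynomial.bind₁ fun b : (Unit ⊕ B) × (Unit ⊕ B) =>
          smR (G b₀ b₀) G b.1 b.2) '' JT, fun y => ?_⟩
        have hGx : G.map (ev K y) = y := gen_map y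
        have hsx : (smR (G b₀ b₀) G).map (ev K y) = smR (y b₀ b₀) y := by
          rw [smR_map, hGx]
          congr 1
          conv_rhs => rw [← hGx]
          rfl
        constructor
        · rintro ⟨h1, h2⟩
          refine ⟨((hJ _).1 h1).1, ?_⟩
          rintro p (hp | ⟨p, hp, rfl⟩)
          · exact ((hJ _).1 h1).2 p hp
          · change ev K _ (MvPolynomial.bind₁ _ p) = 0
            rw [ev_bind, hsx]
            exact ((hJT _).1 h2).2 p hp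
        · rintro ⟨hu, hp⟩
          have h1 : y ∈ Om K c := (hJ _).2 ⟨hu, fun p hp' => hp p (Or.inl hp')⟩
          obtain ⟨u, s⟩ := om_split hc h0 h1
          refine ⟨h1, (hJT _).2 ⟨sm_unit.2 ⟨(s.inv_apply u).2, u⟩, fun p hp' => ?_⟩⟩
          have h3 := hp _ (Or.inr ⟨p, hp', rfl⟩)
          have h4 : ev K y (MvPolynomial.bind₁ _ p) = 0 := h3
          rw [ev_bind, hsx] at h4
          exact h4
    exact key.2

end graph

end Pool.Agent.U100.FP
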