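import Pool.Agent.U100.FP.InL

/-!
# Fibre products of torsors

Partly adapted from `Pool.Agent.U725.OM.Tors` (helper725).
-/

set_option autoImplicit false
set_option linter.unusedSectionVars false
set_option linter.unusedSimpArgs false

open Matrix

namespace Pool.Agent.U100.FP

open Pool.Agent.U725.OM (M2 b4 b3 b4_mul b3_mul b4_one b3_one fin2)

/-- subtorsors over `K` -/
def SubT (K : Subfield ℂ) {B : Type} [Fintype B] [DecidableEq B] (T : Set (Matrix B B ℂ)) : Prop :=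
  (∀ x ∈ T, ∀ y ∈ T, ∀ z ∈ T, x * y⁻¹ * z ∈ T) ∧
  ∃ J : Set (MvPolynomial (B × B) K), ∀ x : Matrix B B ℂ, x ∈ T ↔
    IsUnit x ∧ ∀ p ∈ J, MvPolynomial.eval (fun b => x b.1 b.2)
      (MvPolynomial.map (algebraMap K ℂ) p) = 0

/-- the smallest subtorsor -/
def Om (K : Subfield ℂ) {B : Type} [Fintype B] [DecidableEq B] (c : Matrix B B ℂ) :
    Set (Matrix B B ℂ) :=
  {x | ∀ T, SubT K T → c ∈ T → x ∈ T}

section gen

variable {K : Subfield ℂ} {B : Type} [Fintype B] [DecidableEq B]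

/-- evaluation of polynomials at a matrix -/
noncomputable def ev (K : Subfield ℂ) {B : Type} (x : Matrix B B ℂ) : MvPolynomial (B × B) K →+* ℂ :=
  (MvPolynomial.eval (fun b : B × B => x b.1 b.2)).comp (MvPolynomial.map (algebraMap K ℂ))

theorem ev_apply (x : Matrix B B ℂ) (p : MvPolynomial (B × B) K) :
    ev K x p = MvPolynomial.eval (fun b => x b.1 b.2) (MvPolynomial.map (algebraMap K ℂ) p) := rfl

/-- the generic matrix -/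
noncomputable def gen (K : Subfield ℂ) (B : Type) : Matrix B B (MvPolynomial (B × B) K) :=
  Matrix.of fun b b' => MvPolynomial.X (b, b')

theorem gen_map (x : Matrix B B ℂ) : (gen K B).map (ev K x) = x := by
  ext b b'
  simp [gen, ev]

theorem ev_C (x : Matrix B B ℂ) (c : K) : ev K x (MvPolynomial.C c) = c := by
  simp [ev]
  rfl

theorem gl_sub : SubT K {x : Matrix B B ℂ | IsUnit x} := by
  refine ⟨?_, ∅, fun x => by simp⟩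
  rintro x ⟨x, rfl⟩ y ⟨y, rfl⟩ z ⟨z, rfl⟩
  rw [← Matrix.coe_units_inv]
  exact ⟨x * y⁻¹ * z, rfl⟩

theorem om_sub {c : Matrix B B ℂ} (hc : IsUnit c) : SubT K (Om K c) := by
  refine ⟨fun x hx y hy z hz T hT hcT => hT.1 _ (hx T hT hcT) _ (hy T hT hcT) _ (hz T hT hcT),
    {p | ∃ T, SubT K T ∧ c ∈ T ∧ ∀ x ∈ T, MvPolynomial.eval (fun b => x b.1 b.2)
      (MvPolynomial.map (algebraMap K ℂ) p) = 0}, fun x => ⟨fun hx => ⟨?_, ?_⟩, fun hx T hT hcT => ?_⟩⟩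
  · exact hx _ gl_sub hc
  · rintro p ⟨T, hT, hcT, hp⟩
    exact hp x (hx T hT hcT)
  · obtain ⟨J, hJ⟩ := hT.2
    rw [hJ]
    exact ⟨hx.1, fun p hp => hx.2 p ⟨T, hT, hcT, fun y hy => ((hJ y).1 hy).2 p hp⟩⟩

theorem om_mem {c : Matrix B B ℂ} : c ∈ Om K c := fun _ _ h => h

theorem SubT.unit {T : Set (Matrix B B ℂ)} (hT : SubT K T) {x : Matrix B B ℂ} (hx : x ∈ T) :
    IsUnit x := by
  obtain ⟨J, hJ⟩ := hT.2
  exact ((hJ x).1 hx).1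

end gen

variable {ρ : ℕ} {I ν : Type} [Fintype I] [DecidableEq I] [Fintype ν] [DecidableEq ν]

/-- the matrices, over any ring -/
def matR {R : Type} [CommRing R] (P Q : I → Fin ρ) (X : Matrix (Fin 2) (Fin 2) R) (l : R)
    (Y : Fin ρ → Fin 2 → R) (t : I → R) (V : Matrix ν ν R) :
    Matrix (BB ρ I ν) (BB ρ I ν) R :=
  fromBlocks X 0 0 (fromBlocks
    (blockDiagonal fun j => !![X 0 0, X 0 1, 0; X 1 0, X 1 1, 0; Y j 0, Y j 1, 1]) 0 0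
    (fromBlocks (blockDiagonal fun e => !![l, 0, 0, 0;
      X 0 1 * Y (Q e) 0 - X 0 0 * Y (Q e) 1, X 0 0, X 0 1, 0;
      X 1 1 * Y (Q e) 0 - X 1 0 * Y (Q e) 1, X 1 0, X 1 1, 0;
      t e, Y (P e) 0, Y (P e) 1, 1]) 0 0 V))

theorem matR_map {R S : Type} [CommRing R] [CommRing S] (f : R →+* S) (P Q : I → Fin ρ)
    (X : Matrix (Fin 2) (Fin 2) R) (l : R)
    (Y : Fin ρ → Fin 2 → R) (t : I → R) (V : Matrix ν ν R) :
    (matR P Q X l Y t V).map f = matR P Q (X.map f) (f l) (fun j c => f (Y j c))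
      (fun e => f (t e)) (V.map f) := by
  have h1 : (blockDiagonal fun j => !![X 0 0, X 0 1, 0; X 1 0, X 1 1, 0; Y j 0, Y j 1, 1]).map f =
      blockDiagonal fun j => !![(X.map f) 0 0, (X.map f) 0 1, 0; (X.map f) 1 0, (X.map f) 1 1, 0;
        f (Y j 0), f (Y j 1), 1] := by
    rw [blockDiagonal_map _ _ (map_zero f)]
    congr 1
    funext j
    ext a b
    fin_cases a <;> fin_cases b <;> simp
  have h2 : (blockDiagonal fun e => !![l, 0, 0, 0;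
      X 0 1 * Y (Q e) 0 - X 0 0 * Y (Q e) 1, X 0 0, X 0 1, 0;
      X 1 1 * Y (Q e) 0 - X 1 0 * Y (Q e) 1, X 1 0, X 1 1, 0;
      t e, Y (P e) 0, Y (P e) 1, 1]).map f = blockDiagonal fun e => !![f l, 0, 0, 0;
      (X.map f) 0 1 * f (Y (Q e) 0) - (X.map f) 0 0 * f (Y (Q e) 1), (X.map f) 0 0,
        (X.map f) 0 1, 0;
      (X.map f) 1 1 * f (Y (Q e) 0) - (X.map f) 1 0 * f (Y (Q e) 1), (X.map f) 1 0,
        (X.map f) 1 1, 0;
      f (t e), f (Y (P e) 0), f (Y (P e) 1), 1] := by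
    rw [blockDiagonal_map _ _ (map_zero f)]
    congr 1
    funext j
    ext a b
    fin_cases a <;> fin_cases b <;> simp
  unfold matR
  simp only [fromBlocks_map, Matrix.map_zero f (map_zero f), h1, h2]

theorem matR_eq (P Q : I → Fin ρ) (X : M2) (l : ℂ) (Y : Fin ρ → Fin 2 → ℂ) (t : I → ℂ)
    (V : Matrix ν ν ℂ) : matR P Q X l Y t V = mat P Q X l Y t V := rfl

/-- the matrices of the small motive, over any ring -/
def smR {R : Type} [CommRing R] (l : R) (V : Matrix ν ν R) : Matrix (Unit ⊕ ν) (Unit ⊕ ν) R :=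
  fromBlocks (Matrix.of fun _ _ => l) 0 0 V

theorem smR_map {R S : Type} [CommRing R] [CommRing S] (f : R →+* S) (l : R) (V : Matrix ν ν R) :
    (smR l V).map f = smR (f l) (V.map f) := by
  unfold smR
  rw [fromBlocks_map, Matrix.map_zero f (map_zero f), Matrix.map_zero f (map_zero f)]
  rfl

theorem sm_mul (l l' : ℂ) (V V' : Matrix ν ν ℂ) : smR l V * smR l' V' = smR (l * l') (V * V') := by
  unfold smR
  rw [fromBlocks_multiply]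
  simp only [Matrix.mul_zero, Matrix.zero_mul, add_zero, zero_add]
  congr 1
  ext a b
  simp [Matrix.mul_apply]

theorem sm_one : smR (1 : ℂ) (1 : Matrix ν ν ℂ) = 1 := by
  unfold smR
  rw [← fromBlocks_one]
  congr 1

theorem sm_inj {l l' : ℂ} {V V' : Matrix ν ν ℂ} (h : smR l V = smR l' V') : l = l' ∧ V = V' := by
  have h1 := fromBlocks_inj.1 h
  exact ⟨congrFun (congrFun h1.1 ()) (), h1.2.2.2⟩

theorem sm_unit {l : ℂ} {V : Matrix ν ν ℂ} : IsUnit (smR l V) ↔ l ≠ 0 ∧ IsUnit V := by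
  rw [Matrix.isUnit_iff_isUnit_det, Matrix.isUnit_iff_isUnit_det, smR,
    Matrix.det_fromBlocks_zero₁₂, isUnit_iff_ne_zero, isUnit_iff_ne_zero, mul_ne_zero_iff]
  simp

theorem sm_inv {l : ℂ} {V : Matrix ν ν ℂ} (hl : l ≠ 0) (hV : IsUnit V) :
    (smR l V)⁻¹ = smR l⁻¹ V⁻¹ := by
  apply Matrix.inv_eq_right_inv
  rw [sm_mul, mul_inv_cancel₀ hl, Matrix.mul_nonsing_inv _ ((Matrix.isUnit_iff_isUnit_det V).1 hV),
    sm_one]

variable (P Q : I → Fin ρ) (k : ℂ)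

/-- the fibre product -/
def Fib (Ω' : Set (Matrix (Unit ⊕ ν) (Unit ⊕ ν) ℂ)) : Set (Matrix (BB ρ I ν) (BB ρ I ν) ℂ) :=
  {x | ∃ X l Y t V, X 0 0 * X 1 1 - X 0 1 * X 1 0 = k * l ∧ smR l V ∈ Ω' ∧ x = mat P Q X l Y t V}

theorem mat_mul (X H : M2) (l : ℂ) (Y V : Fin ρ → Fin 2 → ℂ) (t s : I → ℂ) (W W' : Matrix ν ν ℂ) :
    mat P Q X l Y t W * mat P Q H (H 0 0 * H 1 1 - H 0 1 * H 1 0) V s W' =
      mat P Q (X * H) (l * (H 0 0 * H 1 1 - H 0 1 * H 1 0))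
        (fun j c => Y j 0 * H 0 c + Y j 1 * H 1 c + V j c)
        (fun e => t e * (H 0 0 * H 1 1 - H 0 1 * H 1 0) +
          (Y (P e) 0 * (H 0 1 * V (Q e) 0 - H 0 0 * V (Q e) 1) +
            Y (P e) 1 * (H 1 1 * V (Q e) 0 - H 1 0 * V (Q e) 1)) + s e)
        (W * W') := by
  have hA : ∀ a b, (X * H) a b = X a 0 * H 0 b + X a 1 * H 1 b := fun a b => by
    rw [Matrix.mul_apply, Fin.sum_univ_two]
  unfold mat
  rw [bd_mul]
  simp only [b3_mul, b4_mul, hA]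
  congr 1
  · funext e
    congr 1 <;> ring
  · funext e
    congr 1 <;> ring

theorem mat_one : mat P Q (1 : M2) 1 0 0 (1 : Matrix ν ν ℂ) = 1 := by
  rw [← one_eq]
  unfold mat
  simp

theorem mat_unit_scalar (c : ℂ) (hc : c ≠ 0) :
    mat P Q (1 : M2) c 0 0 (1 : Matrix ν ν ℂ) * mat P Q (1 : M2) c⁻¹ 0 0 (1 : Matrix ν ν ℂ) = 1 := by
  rw [← one_eq]
  unfold mat
  rw [bd_mul]
  simp only [b3_mul, b4_mul, Matrix.one_mul]
  simp [hc]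

/-- solving `y h = z` -/
theorem exists_h {k : ℂ} (hk : k ≠ 0) {X X' : M2} {l l' : ℂ} (hl0 : l ≠ 0)
    (hl : X 0 0 * X 1 1 - X 0 1 * X 1 0 = k * l) (hl' : X' 0 0 * X' 1 1 - X' 0 1 * X' 1 0 = k * l')
    (Y Y' : Fin ρ → Fin 2 → ℂ) (t t' : I → ℂ) {W W' : Matrix ν ν ℂ} (hW : IsUnit W) :
    ∃ H V s, l * (H 0 0 * H 1 1 - H 0 1 * H 1 0) = l' ∧
      mat P Q X l Y t W * mat P Q H (H 0 0 * H 1 1 - H 0 1 * H 1 0) V s (W⁻¹ * W') =
        mat P Q X' l' Y' t' W' := by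
  have hX : IsUnit X.det := isUnit_iff_ne_zero.2 (by
    rw [Matrix.det_fin_two, hl]; exact mul_ne_zero hk hl0)
  set H := X⁻¹ * X' with hH
  have hXH : X * H = X' := by
    rw [hH, ← Matrix.mul_assoc, Matrix.mul_nonsing_inv _ hX, Matrix.one_mul]
  have hdet : X.det * H.det = X'.det := by rw [← Matrix.det_mul, hXH]
  have hl3 : l * (H 0 0 * H 1 1 - H 0 1 * H 1 0) = l' := by
    apply mul_left_cancel₀ hk
    rw [← hl', ← mul_assoc, ← hl, ← Matrix.det_fin_two, ← Matrix.det_fin_two,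
      ← Matrix.det_fin_two, hdet]
  set V : Fin ρ → Fin 2 → ℂ := fun j c => Y' j c - (Y j 0 * H 0 c + Y j 1 * H 1 c) with hV
  refine ⟨H, V, fun e => t' e - (t e * (H 0 0 * H 1 1 - H 0 1 * H 1 0) +
          (Y (P e) 0 * (H 0 1 * V (Q e) 0 - H 0 0 * V (Q e) 1) +
            Y (P e) 1 * (H 1 1 * V (Q e) 0 - H 1 0 * V (Q e) 1))), hl3, ?_⟩
  rw [mat_mul, hXH, hl3, ← Matrix.mul_assoc, Matrix.mul_nonsing_inv _
    ((Matrix.isUnit_iff_isUnit_det W).1 hW), Matrix.one_mul]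
  congr 1
  · funext j c
    rw [hV]
    ring
  · funext e
    ring

theorem mat_unit {k : ℂ} (hk : k ≠ 0) {X : M2} {l : ℂ} (hl0 : l ≠ 0)
    (hl : X 0 0 * X 1 1 - X 0 1 * X 1 0 = k * l) (Y : Fin ρ → Fin 2 → ℂ) (t : I → ℂ)
    {W : Matrix ν ν ℂ} (hW : IsUnit W) : IsUnit (mat P Q X l Y t W) := by
  -- a standard point
  obtain ⟨H, V, s, -, h1⟩ := exists_h P Q hk (X' := !![k, 0; 0, 1]) (l' := 1) hl0 hl
    (by simp) Y 0 t 0 (W' := 1) hW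
  have h2 : ∃ y, mat P Q !![k, 0; 0, 1] 1 0 0 (1 : Matrix ν ν ℂ) * y = 1 := by
    have h3 := mat_mul P Q !![k, 0; 0, 1] !![k⁻¹, 0; 0, 1] 1 0 0 0 0 (1 : Matrix ν ν ℂ) 1
    have h4 : (!![k, 0; 0, 1] : M2) * !![k⁻¹, 0; 0, 1] = 1 := by
      ext a b
      fin_cases a <;> fin_cases b <;> simp [hk]
    rw [h4] at h3
    refine ⟨mat P Q !![k⁻¹, 0; 0, 1] ((!![k⁻¹, 0; 0, 1] : M2) 0 0 * (!![k⁻¹, 0; 0, 1] : M2) 1 1 -
      (!![k⁻¹, 0; 0, 1] : M2) 0 1 * (!![k⁻¹, 0; 0, 1] : M2) 1 0) 0 0 1 *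
      mat P Q (1 : M2) (k⁻¹)⁻¹ 0 0 (1 : Matrix ν ν ℂ), ?_⟩
    rw [← Matrix.mul_assoc, h3, ← mat_unit_scalar P Q k⁻¹ (inv_ne_zero hk)]
    congr 1
    congr 1
    · simp
    · funext j c
      simp
    · funext e
      simp
    · simp
  obtain ⟨y, hy⟩ := h2
  refine IsUnit.of_mul_eq_one (mat P Q H (H 0 0 * H 1 1 - H 0 1 * H 1 0) V s (W⁻¹ * 1) * y) ?_
  rw [← Matrix.mul_assoc, h1, hy]

/-- the last block of an invertible matrix is invertible -/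
theorem unit_last {X : M2} {l : ℂ} {Y : Fin ρ → Fin 2 → ℂ} {t : I → ℂ} {W : Matrix ν ν ℂ}
    (h : IsUnit (mat P Q X l Y t W)) : X.det ≠ 0 ∧ IsUnit W := by
  rw [Matrix.isUnit_iff_isUnit_det, mat, bd, Matrix.det_fromBlocks_zero₁₂,
    Matrix.det_fromBlocks_zero₁₂, Matrix.det_fromBlocks_zero₁₂, isUnit_iff_ne_zero,
    mul_ne_zero_iff, mul_ne_zero_iff, mul_ne_zero_iff] at h
  exact ⟨h.1, (Matrix.isUnit_iff_isUnit_det W).2 (isUnit_iff_ne_zero.2 h.2.2.2)⟩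

/-- `x y⁻¹ z` -/
theorem xyz {k : ℂ} (hk : k ≠ 0) {X X₁ X₂ : M2} {l l₁ l₂ : ℂ} (hl1 : l₁ ≠ 0)
    (h0 : X 0 0 * X 1 1 - X 0 1 * X 1 0 = k * l)
    (h1 : X₁ 0 0 * X₁ 1 1 - X₁ 0 1 * X₁ 1 0 = k * l₁)
    (h2 : X₂ 0 0 * X₂ 1 1 - X₂ 0 1 * X₂ 1 0 = k * l₂) (Y Y₁ Y₂ : Fin ρ → Fin 2 → ℂ)
    (t t₁ t₂ : I → ℂ) {W W₁ W₂ : Matrix ν ν ℂ} (hW1 : IsUnit W₁) :
    ∃ Y' t', mat P Q X l Y t W * (mat P Q X₁ l₁ Y₁ t₁ W₁)⁻¹ * mat P Q X₂ l₂ Y₂ t₂ W₂ =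
      mat P Q (X * X₁⁻¹ * X₂) (l * l₁⁻¹ * l₂) Y' t' (W * W₁⁻¹ * W₂) ∧
      (X * X₁⁻¹ * X₂) 0 0 * (X * X₁⁻¹ * X₂) 1 1 - (X * X₁⁻¹ * X₂) 0 1 * (X * X₁⁻¹ * X₂) 1 0 =
        k * (l * l₁⁻¹ * l₂) := by
  obtain ⟨H, V, s, e1, e2⟩ := exists_h P Q hk hl1 h1 h2 Y₁ Y₂ t₁ t₂ (W' := W₂) hW1
  have hu := mat_unit P Q hk hl1 h1 Y₁ t₁ hW1
  have hX1 : IsUnit X₁.det := isUnit_iff_ne_zero.2 (by
    rw [Matrix.det_fin_two, h1]; exact mul_ne_zero hk hl1)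
  have e3 : X₁⁻¹ * X₂ = H := by
    have h3 := fromBlocks_inj.1 ((mat_mul P Q X₁ H l₁ Y₁ V t₁ s W₁ (W₁⁻¹ * W₂)).symm.trans e2)
    have h4 : X₁ * H = X₂ := h3.1
    rw [← h4, ← Matrix.mul_assoc, Matrix.nonsing_inv_mul _ hX1, Matrix.one_mul]
  have e4 : (mat P Q X₁ l₁ Y₁ t₁ W₁)⁻¹ * mat P Q X₂ l₂ Y₂ t₂ W₂ =
      mat P Q H (H 0 0 * H 1 1 - H 0 1 * H 1 0) V s (W₁⁻¹ * W₂) := by
    rw [← e2, ← Matrix.mul_assoc, Matrix.nonsing_inv_mul _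
      ((Matrix.isUnit_iff_isUnit_det _).1 hu), Matrix.one_mul]
  have e5 : H 0 0 * H 1 1 - H 0 1 * H 1 0 = l₁⁻¹ * l₂ := by
    rw [← e1, ← mul_assoc, inv_mul_cancel₀ hl1, one_mul]
  have e6 : (X * X₁⁻¹ * X₂) = X * H := by rw [Matrix.mul_assoc X, e3]
  have e7 : l * l₁⁻¹ * l₂ = l * (H 0 0 * H 1 1 - H 0 1 * H 1 0) := by rw [mul_assoc l, ← e5]
  have e8 : W * W₁⁻¹ * W₂ = W * (W₁⁻¹ * W₂) := Matrix.mul_assoc _ _ _
  have e9 := mat_mul P Q X H l Y V t s W (W₁⁻¹ * W₂)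
  rw [← e4, ← Matrix.mul_assoc, ← e6, ← e7, ← e8] at e9
  refine ⟨_, _, e9, ?_⟩
  rw [e6, ← Matrix.det_fin_two, Matrix.det_mul, Matrix.det_fin_two X, h0, Matrix.det_fin_two H, e7]
  ring

end Pool.Agent.U100.FP
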