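import Pool.Agent.U100.FP.Fib

/-!
# Fibre products of torsors: equations
-/

set_option autoImplicit false
set_option linter.unusedSectionVars false
set_option linter.unusedSimpArgs false

open Matrix

namespace Pool.Agent.U100.FP

open Pool.Agent.U725.OM (M2 b4 b3 fin2)

variable {ρ : ℕ} {I ν : Type} [Fintype I] [DecidableEq I] [Fintype ν] [DecidableEq ν]
variable (P Q : I → Fin ρ) {k : ℂ} {K : Subfield ℂ}

/-- the determinant of the first block -/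
def dX {R : Type} [CommRing R] (x : Matrix (BB ρ I ν) (BB ρ I ν) R) : R :=
  x (Sum.inl 0) (Sum.inl 0) * x (Sum.inl 1) (Sum.inl 1) -
    x (Sum.inl 0) (Sum.inl 1) * x (Sum.inl 1) (Sum.inl 0)

/-- the last block -/
def lX {R : Type} (x : Matrix (BB ρ I ν) (BB ρ I ν) R) : Matrix ν ν R :=
  Matrix.of fun p q => x (Sum.inr (Sum.inr (Sum.inr p))) (Sum.inr (Sum.inr (Sum.inr q)))

/-- the coordinates of a matrix -/
def hat {R : Type} [CommRing R] (P Q : I → Fin ρ) (k' : R)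
    (x : Matrix (BB ρ I ν) (BB ρ I ν) R) : Matrix (BB ρ I ν) (BB ρ I ν) R :=
  matR P Q (Matrix.of fun a c => x (Sum.inl a) (Sum.inl c)) (k' * dX x)
    (fun j => ![x (Sum.inr (Sum.inl (2, j))) (Sum.inr (Sum.inl (0, j))),
      x (Sum.inr (Sum.inl (2, j))) (Sum.inr (Sum.inl (1, j)))])
    (fun e => x (Sum.inr (Sum.inr (Sum.inl (3, e)))) (Sum.inr (Sum.inr (Sum.inl (0, e)))))
    (lX x)

theorem hat_map {R S : Type} [CommRing R] [CommRing S] (f : R →+* S) (k' : R)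
    (x : Matrix (BB ρ I ν) (BB ρ I ν) R) : (hat P Q k' x).map f = hat P Q (f k') (x.map f) := by
  unfold hat
  rw [matR_map]
  congr 1
  · simp [dX]
  · funext j c
    fin_cases c <;> simp

theorem dX_mat (X : M2) (l : ℂ) (Y : Fin ρ → Fin 2 → ℂ) (t : I → ℂ) (W : Matrix ν ν ℂ) :
    dX (mat P Q X l Y t W) = X 0 0 * X 1 1 - X 0 1 * X 1 0 := by
  rw [← matR_eq]
  simp [dX, matR]

theorem lX_mat (X : M2) (l : ℂ) (Y : Fin ρ → Fin 2 → ℂ) (t : I → ℂ) (W : Matrix ν ν ℂ) :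
    lX (mat P Q X l Y t W) = W := by
  rw [← matR_eq]
  ext p q
  simp [lX, matR]

theorem hat_eq {k : ℂ} (hk : k ≠ 0) {X : M2} {l : ℂ} (hl : X 0 0 * X 1 1 - X 0 1 * X 1 0 = k * l)
    (Y : Fin ρ → Fin 2 → ℂ) (t : I → ℂ) (W : Matrix ν ν ℂ) :
    hat P Q k⁻¹ (mat P Q X l Y t W) = mat P Q X l Y t W := by
  unfold hat
  rw [dX_mat, lX_mat, hl, ← mul_assoc, inv_mul_cancel₀ hk, one_mul, ← matR_eq]
  have e1 : (Matrix.of fun a c => matR P Q X l Y t W (Sum.inl a) (Sum.inl c)) = X := by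
    ext a c
    simp [matR]
  have e2 : (fun j => ![matR P Q X l Y t W (Sum.inr (Sum.inl (2, j))) (Sum.inr (Sum.inl (0, j))),
      matR P Q X l Y t W (Sum.inr (Sum.inl (2, j))) (Sum.inr (Sum.inl (1, j)))]) = Y := by
    funext j c
    fin_cases c <;> simp [matR]
  have e3 : (fun e => matR P Q X l Y t W (Sum.inr (Sum.inr (Sum.inl (3, e))))
      (Sum.inr (Sum.inr (Sum.inl (0, e))))) = t := by
    funext e
    simp [matR]
  rw [e1, e2, e3]

/-- the fibre product is defined over `K` -/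
theorem fib_algebraic (hk : k ≠ 0) (hkK : k ∈ K) {Ω' : Set (Matrix (Unit ⊕ ν) (Unit ⊕ ν) ℂ)}
    (hΩ : SubT K Ω') :
    ∃ J : Set (MvPolynomial (BB ρ I ν × BB ρ I ν) K), ∀ x : Matrix (BB ρ I ν) (BB ρ I ν) ℂ,
      x ∈ Fib P Q k Ω' ↔ IsUnit x ∧
        ∀ p ∈ J, MvPolynomial.eval (fun b => x b.1 b.2) (MvPolynomial.map (algebraMap K ℂ) p) = 0 := by
  obtain ⟨J', hJ'⟩ := hΩ.2
  set G := gen K (BB ρ I ν) with hG
  set kk : MvPolynomial (BB ρ I ν × BB ρ I ν) K := MvPolynomial.C (⟨k, hkK⟩ : K)⁻¹ with hkk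
  set sm : Matrix (Unit ⊕ ν) (Unit ⊕ ν) (MvPolynomial (BB ρ I ν × BB ρ I ν) K) :=
    smR (kk * dX G) (lX G) with hsm
  refine ⟨(Set.range fun b : BB ρ I ν × BB ρ I ν => G b.1 b.2 - hat P Q kk G b.1 b.2) ∪
    (MvPolynomial.bind₁ fun b : (Unit ⊕ ν) × (Unit ⊕ ν) => sm b.1 b.2) '' J', fun x => ?_⟩
  have hGx : G.map (ev K x) = x := gen_map x
  have hfk : ev K x kk = k⁻¹ := by
    rw [hkk, ev_C]
    push_cast
    rfl
  have hhat : (hat P Q kk G).map (ev K x) = hat P Q k⁻¹ x := by rw [hat_map, hGx, hfk]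
  have hdX : ev K x (dX G) = dX x := by
    conv_rhs => rw [← hGx]
    simp [dX]
  have hlX : (lX G).map (ev K x) = lX x := by
    conv_rhs => rw [← hGx]
    rfl
  have hsmx : sm.map (ev K x) = smR (k⁻¹ * dX x) (lX x) := by
    rw [hsm, smR_map, map_mul, hfk, hdX, hlX]
  have hbind : ∀ p : MvPolynomial ((Unit ⊕ ν) × (Unit ⊕ ν)) K,
      ev K x (MvPolynomial.bind₁ (fun b : (Unit ⊕ ν) × (Unit ⊕ ν) => sm b.1 b.2) p) =
        ev K (smR (k⁻¹ * dX x) (lX x)) p := by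
    intro p
    rw [← hsmx]
    have h1 : (ev K x).comp
        (MvPolynomial.bind₁ fun b : (Unit ⊕ ν) × (Unit ⊕ ν) => sm b.1 b.2 :
          MvPolynomial ((Unit ⊕ ν) × (Unit ⊕ ν)) K →ₐ[K] _).toRingHom = ev K (sm.map (ev K x)) := by
      apply MvPolynomial.ringHom_ext
      · intro c
        simp [ev]
      · intro b
        simp [ev]
    exact RingHom.congr_fun h1 p
  constructor
  · rintro ⟨X, l, Y, t, V, hl, hV, rfl⟩
    obtain ⟨hu, hp⟩ := (hJ' _).1 hV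
    obtain ⟨hl0, hVu⟩ := sm_unit.1 hu
    refine ⟨mat_unit P Q hk hl0 hl Y t hVu, ?_⟩
    rintro p (⟨b, rfl⟩ | ⟨p, hp', rfl⟩)
    · change ev K _ (G b.1 b.2 - hat P Q kk G b.1 b.2) = 0
      have e1 := congrFun (congrFun hhat b.1) b.2
      have e2 := congrFun (congrFun hGx b.1) b.2
      rw [Matrix.map_apply] at e1 e2
      rw [map_sub, e1, e2, hat_eq P Q hk hl, sub_self]
    · change ev K _ (MvPolynomial.bind₁ _ p) = 0
      rw [hbind, dX_mat, lX_mat, hl, ← mul_assoc, inv_mul_cancel₀ hk, one_mul]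
      exact hp p hp'
  · rintro ⟨hu, hp⟩
    have e1 : hat P Q k⁻¹ x = x := by
      ext b b'
      have h1 := hp _ (Or.inl ⟨(b, b'), rfl⟩)
      have h2 : ev K x (G b b' - hat P Q kk G b b') = 0 := h1
      rw [map_sub, sub_eq_zero] at h2
      rw [← hhat, Matrix.map_apply, ← h2, ← Matrix.map_apply (f := ev K x), hGx]
    have e2 : x = mat P Q (Matrix.of fun a c => x (Sum.inl a) (Sum.inl c)) (k⁻¹ * dX x)
        (fun j => ![x (Sum.inr (Sum.inl (2, j))) (Sum.inr (Sum.inl (0, j))),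
          x (Sum.inr (Sum.inl (2, j))) (Sum.inr (Sum.inl (1, j)))])
        (fun e => x (Sum.inr (Sum.inr (Sum.inl (3, e)))) (Sum.inr (Sum.inr (Sum.inl (0, e)))))
        (lX x) := e1.symm
    have e3 := hu
    rw [e2] at e3
    obtain ⟨hX0, hVu⟩ := unit_last P Q e3
    refine ⟨_, _, _, _, _, ?_, ?_, e2⟩
    · rw [← mul_assoc, mul_inv_cancel₀ hk, one_mul]
      rfl
    · rw [hJ', sm_unit]
      refine ⟨⟨mul_ne_zero (inv_ne_zero hk) ?_, hVu⟩, fun p hp' => ?_⟩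
      · rw [Matrix.det_fin_two] at hX0
        exact hX0
      · have h1 := hp _ (Or.inr ⟨p, hp', rfl⟩)
        have h2 : ev K x (MvPolynomial.bind₁ _ p) = 0 := h1
        rw [hbind] at h2
        exact h2

/-- the fibre product is a subtorsor -/
theorem fib_sub (hk : k ≠ 0) (hkK : k ∈ K) {Ω' : Set (Matrix (Unit ⊕ ν) (Unit ⊕ ν) ℂ)}
    (hΩ : SubT K Ω') : SubT K (Fib P Q k Ω') := by
  refine ⟨?_, fib_algebraic P Q hk hkK hΩ⟩
  rintro _ ⟨X, l, Y, t, V, hl, hV, rfl⟩ _ ⟨X₁, l₁, Y₁, t₁, V₁, hl₁, hV₁, rfl⟩ _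
    ⟨X₂, l₂, Y₂, t₂, V₂, hl₂, hV₂, rfl⟩
  obtain ⟨hl0, hVu⟩ := sm_unit.1 (hΩ.unit hV₁)
  obtain ⟨Y', t', e1, e2⟩ := xyz P Q hk hl0 hl hl₁ hl₂ Y Y₁ Y₂ t t₁ t₂ (W := V) (W₂ := V₂) hVu
  refine ⟨_, _, _, _, _, e2, ?_, e1⟩
  have h1 := hΩ.1 _ hV _ hV₁ _ hV₂
  rw [sm_inv hl0 hVu, sm_mul, sm_mul] at h1
  exact h1

/-- the image of a stable subtorsor -/
theorem img_sub (hk : k ≠ 0) (hkK : k ∈ K) {T : Set (Matrix (BB ρ I ν) (BB ρ I ν) ℂ)}
    (hT : SubT K T)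
    (hst : ∀ (X X' : M2) (l : ℂ) (U : Fin ρ → Fin 2 → ℂ) (s : I → ℂ) (W : Matrix ν ν ℂ), l ≠ 0 →
      X 0 0 * X 1 1 - X 0 1 * X 1 0 = k * l → X' 0 0 * X' 1 1 - X' 0 1 * X' 1 0 = k * l →
      mat P Q X l U s W ∈ T → ∀ Y t, mat P Q X' l Y t W ∈ T) :
    SubT K {w : Matrix (Unit ⊕ ν) (Unit ⊕ ν) ℂ | ∃ l V, l ≠ 0 ∧
      mat P Q !![k * l, 0; 0, 1] l 0 0 V ∈ T ∧ w = smR l V} := by
  have hd : ∀ l : ℂ, (!![k * l, 0; 0, 1] : M2) 0 0 * (!![k * l, 0; 0, 1] : M2) 1 1 -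
      (!![k * l, 0; 0, 1] : M2) 0 1 * (!![k * l, 0; 0, 1] : M2) 1 0 = k * l := by
    intro l
    simp
  constructor
  · rintro _ ⟨l, V, hl, hV, rfl⟩ _ ⟨l₁, V₁, hl₁, hV₁, rfl⟩ _ ⟨l₂, V₂, hl₂, hV₂, rfl⟩
    have hVu := (unit_last P Q (hT.unit hV₁)).2
    obtain ⟨Y', t', e1, e2⟩ := xyz P Q hk hl₁ (hd l) (hd l₁) (hd l₂) 0 0 0 0 0 0
      (W := V) (W₂ := V₂) hVu
    have h1 := hT.1 _ hV _ hV₁ _ hV₂
    rw [e1] at h1
    have hl0 : l * l₁⁻¹ * l₂ ≠ 0 := mul_ne_zero (mul_ne_zero hl (inv_ne_zero hl₁)) hl₂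
    refine ⟨l * l₁⁻¹ * l₂, V * V₁⁻¹ * V₂, hl0, hst _ _ _ _ _ _ hl0 e2 (hd _) h1 0 0, ?_⟩
    rw [sm_inv hl₁ hVu, sm_mul, sm_mul]
  · obtain ⟨J, hJ⟩ := hT.2
    set G := gen K (Unit ⊕ ν) with hG
    set kk : MvPolynomial ((Unit ⊕ ν) × (Unit ⊕ ν)) K := MvPolynomial.C (⟨k, hkK⟩ : K) with hkk
    -- the two maps over any ring
    set l0 : MvPolynomial ((Unit ⊕ ν) × (Unit ⊕ ν)) K := G (Sum.inl ()) (Sum.inl ()) with hl0
    set V0 : Matrix ν ν (MvPolynomial ((Unit ⊕ ν) × (Unit ⊕ ν)) K) :=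
      Matrix.of fun p q => G (Sum.inr p) (Sum.inr q) with hV0
    set big : Matrix (BB ρ I ν) (BB ρ I ν) (MvPolynomial ((Unit ⊕ ν) × (Unit ⊕ ν)) K) :=
      matR P Q !![kk * l0, 0; 0, 1] l0 0 0 V0 with hbig
    refine ⟨(Set.range fun b : (Unit ⊕ ν) × (Unit ⊕ ν) => G b.1 b.2 - smR l0 V0 b.1 b.2) ∪
      (MvPolynomial.bind₁ fun b : BB ρ I ν × BB ρ I ν => big b.1 b.2) '' J, fun x => ?_⟩
    have hGx : G.map (ev K x) = x := gen_map x
    have hfk : ev K x kk = k := by rw [hkk, ev_C]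
    have hlx : ev K x l0 = x (Sum.inl ()) (Sum.inl ()) := by
      conv_rhs => rw [← hGx]
      rfl
    have hVx : V0.map (ev K x) = Matrix.of fun p q => x (Sum.inr p) (Sum.inr q) := by
      conv_rhs => rw [← hGx]
      rfl
    have hsx : (smR l0 V0).map (ev K x) = smR (x (Sum.inl ()) (Sum.inl ()))
        (Matrix.of fun p q => x (Sum.inr p) (Sum.inr q)) := by
      rw [smR_map, hlx, hVx]
    have hbx : big.map (ev K x) = mat P Q !![k * x (Sum.inl ()) (Sum.inl ()), 0; 0, 1]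
        (x (Sum.inl ()) (Sum.inl ())) 0 0 (Matrix.of fun p q => x (Sum.inr p) (Sum.inr q)) := by
      rw [hbig, matR_map, ← matR_eq, hlx, hVx]
      have e1 : (!![kk * l0, 0; 0, 1] : Matrix (Fin 2) (Fin 2) _).map (ev K x) =
          !![k * x (Sum.inl ()) (Sum.inl ()), 0; 0, 1] := by
        ext a c
        fin_cases a <;> fin_cases c <;> simp [hfk, hlx]
      have e2 : (fun (j : Fin ρ) (c : Fin 2) => ev K x ((0 : Fin ρ → Fin 2 → _) j c)) = 0 := by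
        funext j c
        simp
      have e3 : (fun e : I => ev K x ((0 : I → _) e)) = 0 := by
        funext e
        simp
      rw [e1, e2, e3]
    have hbind : ∀ p : MvPolynomial (BB ρ I ν × BB ρ I ν) K,
        ev K x (MvPolynomial.bind₁ (fun b : BB ρ I ν × BB ρ I ν => big b.1 b.2) p) =
          ev K (big.map (ev K x)) p := by
      intro p
      have h1 : (ev K x).comp
          (MvPolynomial.bind₁ fun b : BB ρ I ν × BB ρ I ν => big b.1 b.2 :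
            MvPolynomial (BB ρ I ν × BB ρ I ν) K →ₐ[K] _).toRingHom = ev K (big.map (ev K x)) := by
        apply MvPolynomial.ringHom_ext
        · intro c
          simp [ev]
        · intro b
          simp [ev]
      exact RingHom.congr_fun h1 p
    constructor
    · rintro ⟨l, V, hl, hV, rfl⟩
      have hVu := (unit_last P Q (hT.unit hV)).2
      have e0 : smR l V (Sum.inl ()) (Sum.inl ()) = l := by simp [smR]
      have e0' : (Matrix.of fun p q => smR l V (Sum.inr p) (Sum.inr q)) = V := by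
        ext p q
        simp [smR]
      refine ⟨sm_unit.2 ⟨hl, hVu⟩, ?_⟩
      rintro p (⟨b, rfl⟩ | ⟨p, hp', rfl⟩)
      · change ev K _ (G b.1 b.2 - smR l0 V0 b.1 b.2) = 0
        have e1 := congrFun (congrFun hsx b.1) b.2
        have e2 := congrFun (congrFun hGx b.1) b.2
        rw [Matrix.map_apply] at e1 e2
        rw [map_sub, e1, e2, e0, e0', sub_self]
      · change ev K _ (MvPolynomial.bind₁ _ p) = 0
        rw [hbind, hbx, e0, e0']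
        exact ((hJ _).1 hV).2 p hp'
    · rintro ⟨hu, hp⟩
      have e1 : smR (x (Sum.inl ()) (Sum.inl ()))
          (Matrix.of fun p q => x (Sum.inr p) (Sum.inr q)) = x := by
        ext b b'
        have h1 := hp _ (Or.inl ⟨(b, b'), rfl⟩)
        have h2 : ev K x (G b b' - smR l0 V0 b b') = 0 := h1
        rw [map_sub, sub_eq_zero] at h2
        rw [← hsx, Matrix.map_apply, ← h2, ← Matrix.map_apply (f := ev K x), hGx]
      have e2 := hu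
      rw [← e1, sm_unit] at e2
      refine ⟨_, _, e2.1, ?_, e1.symm⟩
      rw [hJ]
      refine ⟨mat_unit P Q hk e2.1 (hd _) 0 0 e2.2, fun p hp' => ?_⟩
      have h1 := hp _ (Or.inr ⟨p, hp', rfl⟩)
      have h2 : ev K x (MvPolynomial.bind₁ _ p) = 0 := h1
      rw [hbind, hbx] at h2
      exact h2

/-- **The smallest subtorsor is the fibre product.** -/
theorem om_eq (hk : k ≠ 0) (hkK : k ∈ K) {Ω : M2} {τ : ℂ} (hτ : τ ≠ 0)
    (hdet : Ω 0 0 * Ω 1 1 - Ω 0 1 * Ω 1 0 = k * τ) (U : Fin ρ → Fin 2 → ℂ) (s : I → ℂ)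
    {N₀ : Matrix ν ν ℂ} (hN : IsUnit N₀)
    (hst : ∀ T : Set (Matrix (BB ρ I ν) (BB ρ I ν) ℂ), SubT K T → mat P Q Ω τ U s N₀ ∈ T →
      ∀ (X X' : M2) (l : ℂ) (U : Fin ρ → Fin 2 → ℂ) (s : I → ℂ) (W : Matrix ν ν ℂ), l ≠ 0 →
      X 0 0 * X 1 1 - X 0 1 * X 1 0 = k * l → X' 0 0 * X' 1 1 - X' 0 1 * X' 1 0 = k * l →
      mat P Q X l U s W ∈ T → ∀ Y t, mat P Q X' l Y t W ∈ T) :
    Om K (mat P Q Ω τ U s N₀) = Fib P Q k (Om K (smR τ N₀)) := by
  have hO : SubT K (Om K (smR τ N₀)) := om_sub (sm_unit.2 ⟨hτ, hN⟩)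
  apply Set.Subset.antisymm
  · intro x hx
    exact hx _ (fib_sub P Q hk hkK hO) ⟨_, _, _, _, _, hdet, om_mem, rfl⟩
  · rintro _ ⟨X, l, Y, t, V, hl, hV, rfl⟩ T hT hc
    have h1 := hst T hT hc
    have hd : ∀ l : ℂ, (!![k * l, 0; 0, 1] : M2) 0 0 * (!![k * l, 0; 0, 1] : M2) 1 1 -
        (!![k * l, 0; 0, 1] : M2) 0 1 * (!![k * l, 0; 0, 1] : M2) 1 0 = k * l := by
      intro l
      simp
    obtain ⟨l', V', hl', hV', he⟩ := hV _ (img_sub P Q hk hkK hT h1)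
      ⟨τ, N₀, hτ, h1 _ _ _ _ _ _ hτ hdet (hd τ) hc 0 0, rfl⟩
    obtain ⟨rfl, rfl⟩ := sm_inj he
    exact h1 _ _ _ _ _ _ hl' (hd l) hl hV' Y t

end Pool.Agent.U100.FP
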