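import Pool.Agent.U100.FP.Sl

/-!
# Several curves: the lemma of Goursat
-/

set_option autoImplicit false
set_option linter.unusedSectionVars false
set_option linter.unusedSimpArgs false

open Matrix

namespace Pool.Agent.U100.FP

open Pool.Agent.U725.OM (M2 fin2 der_of_mem mem_of_der exists_rat)
open Pool.Agent.TH127.PT Pool.Agent.TH119.MX Pool.Agent.TH119.DR Pool.Agent.Y123.ST

variable {ν : Type} [Fintype ν] [DecidableEq ν] {K : Subfield ℂ} {τ : ℂ} {N₀ : Matrix ν ν ℂ}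

/-- The Lie algebra without the part of the points. -/
def Flat (K : Subfield ℂ) (k : ℂ) (R : M2 → Matrix ν ν ℂ → Prop) (Ω : M2) (τ : ℂ)
    (N₀ : Matrix ν ν ℂ) : Prop :=
  Alg (ρ := 0) (I := Empty) K (fun e => e.elim) (fun e => e.elim) k (fun A _ _ V => R A V) Ω τ
    (fun _ _ => 0) N₀

theorem Alg.flat {ρ : ℕ} {I : Type} [Fintype I] [DecidableEq I] {P Q : I → Fin ρ} {k : ℂ}
    {L : M2 → (Fin ρ → Fin 2 → ℂ) → (I → ℂ) → Matrix ν ν ℂ → Prop} {Ω : M2}
    {U : Fin ρ → Fin 2 → ℂ} (h : Alg K P Q k L Ω τ U N₀) :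
    Flat K k (fun A V => ∃ Y t, L A Y t V) Ω τ N₀ where
  hK := h.hK
  k0 := h.k0
  kK := h.kK
  τK := h.τK
  det := h.det
  ell := by
    intro σ r hσ hr h0 lam γ _ hγ h1
    refine ⟨Subsingleton.elim _ _, ?_⟩
    refine (h.ell σ r hσ hr h0 0 γ (fun _ => K.zero_mem) hγ ?_).2
    simpa using h1
  inj e := e.elim
  zero := ⟨0, 0, h.zero⟩
  add := by
    rintro A A' _ _ _ _ V V' ⟨Y, t, h1⟩ ⟨Y', t', h2⟩
    exact ⟨_, _, h.add h1 h2⟩
  smul := by
    rintro s A _ _ V ⟨Y, t, h1⟩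
    exact ⟨_, _, h.smul s h1⟩
  br := by
    rintro A A' _ _ _ _ V V' ⟨Y, t, h1⟩ ⟨Y', t', h2⟩
    exact ⟨_, _, h.br h1 h2⟩
  aut := by
    rintro σ hσ A _ _ V ⟨Y, t, h1⟩
    exact ⟨_, _, h.aut hσ h1⟩
  logd := by
    intro D
    obtain ⟨A, Y, t, V, h1, h2, -, h4, h5⟩ := h.logd D
    exact ⟨A, fun j => j.elim0, fun e => e.elim, V, ⟨Y, t, h1⟩, h2, fun j => j.elim0, h4, h5⟩

variable {ι : Type} [Fintype ι] [DecidableEq ι] {k : ι → ℂ} {R : ι → M2 → Matrix ν ν ℂ → Prop}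
  {Ω : ι → M2} (h : ∀ i, Flat K (k i) (R i) (Ω i) τ N₀)

/-- the joint Lie algebra -/
def GG (h : ∀ i, Flat K (k i) (R i) (Ω i) τ N₀) : Submodule ℂ ((ι → M2) × Matrix ν ν ℂ) where
  carrier := {x | ∀ i, R i (x.1 i) x.2}
  zero_mem' := fun i => (h i).zero
  add_mem' := by
    intro x y hx hy i
    exact (h i).add (Y := 0) (Y' := 0) (t := 0) (t' := 0) (hx i) (hy i)
  smul_mem' := by
    intro c x hx i
    exact (h i).smul c (Y := 0) (t := 0) (hx i)

theorem gg_br {x y : (ι → M2) × Matrix ν ν ℂ} (hx : x ∈ GG h) (hy : y ∈ GG h) :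
    ((fun i => x.1 i * y.1 i - y.1 i * x.1 i, x.2 * y.2 - y.2 * x.2) :
      (ι → M2) × Matrix ν ν ℂ) ∈ GG h := fun i =>
  (h i).br (Y := 0) (Y' := 0) (t := 0) (t' := 0) (hx i) (hy i)

theorem gg_aut {σ : ℂ ≃+* ℂ} (hσ : ∀ x ∈ K, σ x = x) {x : (ι → M2) × Matrix ν ν ℂ}
    (hx : x ∈ GG h) : ((fun i => (x.1 i).map σ, x.2.map σ) : (ι → M2) × Matrix ν ν ℂ) ∈ GG h :=
  fun i => (h i).aut hσ (Y := 0) (t := 0) (hx i)

theorem gg_logd (hN : IsUnit N₀) (D : Derivation K ℂ ℂ) : ∃ x ∈ GG h,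
    (∀ i a c, x.1 i a 0 * Ω i 0 c + x.1 i a 1 * Ω i 1 c = D (Ω i a c)) ∧
    (∀ i, (x.1 i 0 0 + x.1 i 1 1) * τ = D τ) ∧ x.2 * N₀ = N₀.map D := by
  choose A Y t V h1 h2 h3 h4 h5 using fun i => (h i).logd D
  have hu := (Matrix.isUnit_iff_isUnit_det N₀).1 hN
  have hV : ∀ i, V i = N₀.map D * N₀⁻¹ := by
    intro i
    rw [← h5 i, Matrix.mul_assoc, Matrix.mul_nonsing_inv _ hu, Matrix.mul_one]
  refine ⟨(A, N₀.map D * N₀⁻¹), fun i => ?_, h2, h4, ?_⟩
  · have := h1 i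
    rw [hV i] at this
    exact this
  · rw [Matrix.mul_assoc, Matrix.nonsing_inv_mul _ hu, Matrix.mul_one]

/-- the projections are everything -/
theorem gg_all (hN : IsUnit N₀) (i : ι) (B : M2) : ∃ x ∈ GG h, x.1 i = B := by
  have hf : Flat K (k i) (fun A V => ∃ x ∈ GG h, x.1 i = A ∧ x.2 = V) (Ω i) τ N₀ :=
    { hK := (h i).hK
      k0 := (h i).k0
      kK := (h i).kK
      τK := (h i).τK
      det := (h i).det
      ell := (h i).ell
      inj := (h i).inj
      zero := ⟨0, Submodule.zero_mem _, rfl, rfl⟩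
      add := by
        rintro A A' _ _ _ _ V V' ⟨x, hx, rfl, rfl⟩ ⟨y, hy, rfl, rfl⟩
        exact ⟨x + y, Submodule.add_mem _ hx hy, rfl, rfl⟩
      smul := by
        rintro s A _ _ V ⟨x, hx, rfl, rfl⟩
        exact ⟨s • x, Submodule.smul_mem _ s hx, rfl, rfl⟩
      br := by
        rintro A A' _ _ _ _ V V' ⟨x, hx, rfl, rfl⟩ ⟨y, hy, rfl, rfl⟩
        exact ⟨_, gg_br h hx hy, rfl, rfl⟩
      aut := by
        rintro σ hσ A _ _ V ⟨x, hx, rfl, rfl⟩
        exact ⟨_, gg_aut h hσ hx, rfl, rfl⟩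
      logd := by
        intro D
        obtain ⟨x, hx, h1, h2, h3⟩ := gg_logd h hN D
        exact ⟨x.1 i, fun j => j.elim0, fun e => e.elim, x.2, ⟨x, hx, rfl, rfl⟩, h1 i,
          fun j => j.elim0, h2 i, h3⟩ }
  obtain ⟨Y, t, V, x, hx, h1, -⟩ := hf.proj_all B
  exact ⟨x, hx, h1⟩

/-- the part of trace zero -/
noncomputable def tz (A : M2) : M2 := A - ((A 0 0 + A 1 1) / 2) • (1 : M2)

theorem tz_scalar (c : ℂ) : tz (c • (1 : M2)) = 0 := by
  unfold tz
  ext i j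
  fin_cases i <;> fin_cases j <;> simp

theorem tz_trace (A : M2) : tz A 0 0 + tz A 1 1 = 0 := by
  unfold tz
  simp
  ring

theorem tz_add (A B : M2) : tz (A + B) = tz A + tz B := by
  unfold tz
  ext i j
  fin_cases i <;> fin_cases j <;> simp <;> ring

theorem tz_smul (s : ℂ) (A : M2) : tz (s • A) = s • tz A := by
  unfold tz
  ext i j
  fin_cases i <;> fin_cases j <;> simp <;> ring

theorem tz_br (A B : M2) : tz (A * B - B * A) = tz A * tz B - tz B * tz A := by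
  unfold tz
  ext i j
  fin_cases i <;> fin_cases j <;> simp [Matrix.mul_apply, Fin.sum_univ_two, Matrix.one_apply] <;> ring

theorem tz_of (A : M2) (hA : A 0 0 + A 1 1 = 0) : tz A = A := by
  unfold tz
  rw [hA]
  simp

theorem scalar_of_tz {A : M2} (h : tz A = 0) : ∃ c : ℂ, A = c • (1 : M2) :=
  ⟨_, sub_eq_zero.1 h⟩

theorem tz_map (σ : ℂ ≃+* ℂ) (A : M2) : tz (A.map σ) = (tz A).map σ := by
  have h2 : σ 2 = 2 := map_ofNat σ 2
  unfold tz
  ext i j
  fin_cases i <;> fin_cases j <;> simp [h2]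

/-- **Two curves which are not independent are linked.** -/
theorem linked (hN : IsUnit N₀) {i j : ι}
    (hij : ∀ x ∈ GG h, (∃ c : ℂ, x.1 j = c • (1 : M2)) → ∃ c : ℂ, x.1 i = c • (1 : M2)) :
    ∃ g C : M2, (∀ a b, g a b ∈ K) ∧ (∀ a b, C a b ∈ K) ∧ g.det ≠ 0 ∧ g * Ω j = Ω i * C := by
  have hij' : ∀ x ∈ GG h, tz (x.1 j) = 0 → tz (x.1 i) = 0 := by
    intro x hx h0
    obtain ⟨c, hc⟩ := hij x hx (scalar_of_tz h0)
    rw [hc, tz_scalar]
  obtain ⟨xE, hxE, eE⟩ := gg_all h hN j mE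
  obtain ⟨xF, hxF, eF⟩ := gg_all h hN j mF
  obtain ⟨xH, hxH, eH⟩ := gg_all h hN j mH
  have tE : tz mE = mE := tz_of _ (by simp [mE])
  have tF : tz mF = mF := tz_of _ (by simp [mF])
  have tH : tz mH = mH := tz_of _ (by simp [mH])
  -- the function
  have hlin : ∀ x ∈ GG h, tz (x.1 i) = (tz (x.1 j)) 0 1 • tz (xE.1 i) +
      (tz (x.1 j)) 1 0 • tz (xF.1 i) + (tz (x.1 j)) 0 0 • tz (xH.1 i) := by
    intro x hx
    have h1 := Submodule.sub_mem _ hx (Submodule.add_mem _ (Submodule.add_mem _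
      (Submodule.smul_mem _ ((tz (x.1 j)) 0 1) hxE) (Submodule.smul_mem _ ((tz (x.1 j)) 1 0) hxF))
      (Submodule.smul_mem _ ((tz (x.1 j)) 0 0) hxH))
    have h2 := hij' _ h1 (by
      change tz (x.1 j - ((tz (x.1 j)) 0 1 • xE.1 j + (tz (x.1 j)) 1 0 • xF.1 j +
        (tz (x.1 j)) 0 0 • xH.1 j)) = 0
      rw [eE, eF, eH, ← dec_sl _ (tz_trace _)]
      have : x.1 j - tz (x.1 j) = ((x.1 j 0 0 + x.1 j 1 1) / 2) • (1 : M2) := by
        unfold tz
        abel
      rw [this, tz_scalar])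
    change tz (x.1 i - ((tz (x.1 j)) 0 1 • xE.1 i + (tz (x.1 j)) 1 0 • xF.1 i +
        (tz (x.1 j)) 0 0 • xH.1 i)) = 0 at h2
    rw [sub_eq_add_neg, ← neg_one_smul ℂ, tz_add, tz_smul, tz_add, tz_add, tz_smul, tz_smul,
      tz_smul, neg_one_smul, ← sub_eq_add_neg, sub_eq_zero] at h2
    exact h2
  have rel : ∀ {x y z : (ι → M2) × Matrix ν ν ℂ} {c : ℂ}, x ∈ GG h → y ∈ GG h → z ∈ GG h →
      x.1 j * y.1 j - y.1 j * x.1 j = c • z.1 j →
      tz (x.1 i) * tz (y.1 i) - tz (y.1 i) * tz (x.1 i) = c • tz (z.1 i) := by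
    intro x y z c hx hy hz hxy
    have h1 := Submodule.sub_mem _ (gg_br h hx hy) (Submodule.smul_mem _ c hz)
    have h2 := hij' _ h1 (by
      change tz ((x.1 j * y.1 j - y.1 j * x.1 j) - c • z.1 j) = 0
      rw [hxy, sub_self]
      simpa using tz_scalar 0)
    change tz ((x.1 i * y.1 i - y.1 i * x.1 i) - c • z.1 i) = 0 at h2
    rw [sub_eq_add_neg, ← neg_one_smul ℂ, tz_add, tz_smul, tz_smul, tz_br, neg_one_smul,
      ← sub_eq_add_neg, sub_eq_zero] at h2
    exact h2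
  have rHE := rel (c := 2) hxH hxE hxE (by rw [eH, eE, mHE])
  have rHF := rel (c := -2) hxH hxF hxF (by rw [eH, eF, mHF])
  have rEF := rel (c := 1) hxE hxF hxH (by rw [eE, eF, eH, one_smul, mEF])
  rw [one_smul] at rEF
  have hE0 : tz (xE.1 i) ≠ 0 := by
    intro h0
    rw [h0, Matrix.zero_mul, Matrix.mul_zero, sub_zero] at rEF
    rw [← rEF, Matrix.zero_mul, Matrix.mul_zero, sub_zero] at rHF
    have hF0 : tz (xF.1 i) = 0 := (smul_eq_zero.1 rHF.symm).resolve_left (by norm_num)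
    obtain ⟨x, hx, hx1⟩ := gg_all h hN i mE
    have h1 := hlin x hx
    rw [hx1, tE, h0, hF0, ← rEF, smul_zero, smul_zero, smul_zero, add_zero, add_zero] at h1
    have := congrFun (congrFun h1 0) 1
    simp [mE] at this
  obtain ⟨g, hg0, gE, gF, gH⟩ := sl_triple _ _ _ (tz_trace _) (tz_trace _) (tz_trace _) rHE rHF
    rEF hE0
  -- the space of the intertwiners
  have hgall : ∀ x ∈ GG h, tz (x.1 i) * g = g * tz (x.1 j) := by
    intro x hx
    rw [hlin x hx, Matrix.add_mul, Matrix.add_mul, Matrix.smul_mul, Matrix.smul_mul,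
      Matrix.smul_mul, gE, gF, gH]
    conv_rhs => rw [dec_sl _ (tz_trace (x.1 j))]
    rw [Matrix.mul_add, Matrix.mul_add, Matrix.mul_smul, Matrix.mul_smul, Matrix.mul_smul]
  let W : Submodule ℂ (Fin 2 × Fin 2 → ℂ) :=
    { carrier := {w | ∀ x ∈ GG h, tz (x.1 i) * um w = um w * tz (x.1 j)}
      zero_mem' := by
        intro x _
        rw [um_zero, Matrix.mul_zero, Matrix.zero_mul]
      add_mem' := by
        intro v w hv hw x hx
        rw [um_add, Matrix.mul_add, Matrix.add_mul, hv x hx, hw x hx]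
      smul_mem' := by
        intro c v hv x hx
        rw [um_smul, Matrix.mul_smul, Matrix.smul_mul, hv x hx] }
  have hW : ∀ σ : ℂ ≃+* ℂ, (∀ x ∈ K, σ x = x) → ∀ v ∈ W, (fun i => σ (v i)) ∈ W := by
    intro σ hσ v hv x hx
    have h1 := hv _ (gg_aut h (symm_fix hσ) hx)
    change tz ((x.1 i).map σ.symm) * um v = um v * tz ((x.1 j).map σ.symm) at h1
    have h2 := congrArg (fun M : M2 => M.map σ) h1
    simp only [tz_map, Matrix.map_mul] at h2
    have h3 : ∀ M : M2, (M.map σ.symm).map σ = M := by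
      intro M
      ext a b
      simp
    rw [h3, h3] at h2
    exact h2
  obtain ⟨a, b, hab⟩ : ∃ a b, g a b ≠ 0 := by
    by_contra hcon
    push Not at hcon
    exact hg0 (by ext a b; exact hcon a b)
  obtain ⟨w, hw, hwK, hw0⟩ := exists_rat W hW (LinearMap.proj (a, b)) ⟨fl g, by
    intro x hx
    rw [um_fl]
    exact hgall x hx, hab⟩
  have hw' : ∀ x ∈ GG h, tz (x.1 i) * um w = um w * tz (x.1 j) := hw
  -- it is invertible
  have hdet : (um w).det ≠ 0 := by
    intro hd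
    obtain ⟨v, hv0, hv⟩ := Matrix.exists_mulVec_eq_zero_iff.2 hd
    have h1 : ∀ B : M2, um w *ᵥ (B *ᵥ v) = 0 := by
      intro B
      obtain ⟨x, hx, hxB⟩ := gg_all h hN j B
      have h2 : B = tz (x.1 j) + ((B 0 0 + B 1 1) / 2) • (1 : M2) := by
        rw [hxB]
        unfold tz
        abel
      rw [h2, Matrix.add_mulVec, Matrix.mulVec_add, Matrix.mulVec_mulVec, ← hw' x hx,
        ← Matrix.mulVec_mulVec, hv, Matrix.mulVec_zero, Matrix.smul_mulVec, Matrix.one_mulVec,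
        Matrix.mulVec_smul, hv, smul_zero, add_zero]
    obtain ⟨c, hc⟩ : ∃ c, v c ≠ 0 := by
      by_contra hcon
      push Not at hcon
      exact hv0 (funext hcon)
    apply hw0
    have h2 := h1 (Matrix.single b c 1)
    have h3 := congrFun h2 a
    rw [Matrix.mulVec_mulVec] at h3
    have h4 : ((um w * Matrix.single b c 1) *ᵥ v) a = w (a, b) * v c := by
      rcases fin2 b with rfl | rfl <;> rcases fin2 c with rfl | rfl <;>
        simp [Matrix.mulVec, dotProduct, Matrix.mul_apply, Fin.sum_univ_two, um, Matrix.single_apply]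
    rw [h4] at h3
    exact (mul_eq_zero.1 h3).resolve_right hc
  -- the derivatives
  have hΩu : ∀ i, IsUnit (Ω i).det := by
    intro i
    rw [Matrix.det_fin_two, (h i).det]
    exact isUnit_iff_ne_zero.2 (mul_ne_zero (h i).k0 (h i).τ0)
  set C : M2 := (Ω i)⁻¹ * (um w * Ω j) with hC
  have hgC : um w * Ω j = Ω i * C := by
    rw [hC, ← Matrix.mul_assoc, Matrix.mul_nonsing_inv _ (hΩu i), Matrix.one_mul]
  refine ⟨um w, C, fun a b => hwK (a, b), ?_, hdet, hgC⟩
  have hCD : ∀ D : Derivation K ℂ ℂ, C.map D = 0 := by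
    intro D
    obtain ⟨x, hx, h1, h2, -⟩ := gg_logd h hN D
    have e1 : ∀ i, x.1 i * Ω i = (Ω i).map D := by
      intro i
      ext a c
      rw [Matrix.mul_apply, Fin.sum_univ_two, h1, Matrix.map_apply]
    have e2 : x.1 i * um w = um w * x.1 j := by
      have e3 : ∀ l, x.1 l = tz (x.1 l) + (D τ / τ / 2) • (1 : M2) := by
        intro l
        have : x.1 l 0 0 + x.1 l 1 1 = D τ / τ := by
          rw [eq_div_iff (h i).τ0, h2]
        unfold tz
        rw [this]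
        abel
      rw [e3 i, e3 j, Matrix.add_mul, Matrix.mul_add, hw' x hx, Matrix.smul_mul, Matrix.mul_smul,
        Matrix.one_mul, Matrix.mul_one]
    -- derivative of the product
    have hprod : ∀ X Y : M2, (X * Y).map D = X.map D * Y + X * Y.map D := by
      intro X Y
      ext a c
      simp only [Matrix.map_apply, Matrix.mul_apply, Fin.sum_univ_two, Matrix.add_apply, map_add,
        Derivation.leibniz, smul_eq_mul]
      ring
    have hw0' : (um w).map D = 0 := by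
      ext a c
      exact der_of_mem D (hwK (a, c))
    have e4 : (Ω i) * C.map D = 0 := by
      have h3 := congrArg (fun M : M2 => M.map D) hgC
      simp only [hprod] at h3
      rw [hw0', Matrix.zero_mul, zero_add, ← e1, ← e1, ← Matrix.mul_assoc, ← e2, Matrix.mul_assoc,
        hgC, ← Matrix.mul_assoc] at h3
      exact (add_eq_left.1 h3.symm)
    have h5 : (Ω i)⁻¹ * ((Ω i) * C.map D) = C.map D := by
      rw [← Matrix.mul_assoc, Matrix.nonsing_inv_mul _ (hΩu i), Matrix.one_mul]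
    rw [← h5, e4, Matrix.mul_zero]
  intro a c
  refine mem_of_der (h i).hK fun D => ?_
  have := congrFun (congrFun (hCD D) a) c
  exact this

end Pool.Agent.U100.FP
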