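import Pool.Agent.U100.FP.Blk

/-!
# The Lie algebra of a subtorsor through the period point

Adapted from `Pool.Agent.U725.OM.Main` and `Grp` (helper725).
-/

set_option autoImplicit false
set_option linter.unusedSectionVars false
set_option linter.unusedSimpArgs false

open Matrix

namespace Pool.Agent.U100.FP

open Pool.Agent.U725.OM (M2 b4 b3 b4_mul b3_mul b4_add b3_add b4_smul b3_smul b4_map b3_map b4_one b3_one fin2
  der_of_mem lie_mem)
open Pool.Agent.TH127.PT Pool.Agent.TH119.MX Pool.Agent.TH119.DR Pool.Agent.Y123.ST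

variable {ρ : ℕ} {I ν : Type} [Fintype I] [DecidableEq I] [Fintype ν] [DecidableEq ν]
variable {P Q : I → Fin ρ} {k : ℂ} {K : Subfield ℂ}
  {T : Set (Matrix (BB ρ I ν) (BB ρ I ν) ℂ)}

/-- the tuple gives an element of the Lie algebra -/
def InL (P Q : I → Fin ρ) (k : ℂ) (T : Set (Matrix (BB ρ I ν) (BB ρ I ν) ℂ)) (A : M2)
    (Y : Fin ρ → Fin 2 → ℂ) (t : I → ℂ) (V : Matrix ν ν ℂ) : Prop :=
  fl (lie P Q k A Y t V) ∈ LL T

theorem lie_zero (P Q : I → Fin ρ) (k : ℂ) : lie P Q k 0 0 0 (0 : Matrix ν ν ℂ) = 0 := by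
  have := lie_smul P Q k 0 0 0 0 (0 : Matrix ν ν ℂ)
  rw [zero_smul, zero_smul, zero_smul, zero_smul, zero_smul] at this
  exact this.symm

/-- the logarithmic derivatives -/
theorem logder (hT : IsSubtorsor K T) (hk : k ≠ 0) {Ω : M2} {τ : ℂ} (hτ : τ ≠ 0)
    (hdet : Ω 0 0 * Ω 1 1 - Ω 0 1 * Ω 1 0 = k * τ) {U : Fin ρ → Fin 2 → ℂ} {s : I → ℂ}
    {N₀ : Matrix ν ν ℂ} (hN : IsUnit N₀) (hc : mat P Q Ω τ U s N₀ ∈ T) (D : Derivation K ℂ ℂ)
    (hD : D k = 0) :
    ∃ (A : M2) (Y : Fin ρ → Fin 2 → ℂ) (t : I → ℂ) (V : Matrix ν ν ℂ), InL P Q k T A Y t V ∧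
      (∀ a c, A a 0 * Ω 0 c + A a 1 * Ω 1 c = D (Ω a c)) ∧
      (∀ j c, Y j 0 * Ω 0 c + Y j 1 * Ω 1 c = D (U j c)) ∧ (A 0 0 + A 1 1) * τ = D τ ∧
      V * N₀ = N₀.map D := by
  have hd : k * τ ≠ 0 := mul_ne_zero hk hτ
  set d := k * τ with hddef
  -- solve the linear systems
  set A : M2 := Matrix.of fun a c => (![D (Ω a 0) * Ω 1 1 - D (Ω a 1) * Ω 1 0,
    D (Ω a 1) * Ω 0 0 - D (Ω a 0) * Ω 0 1] c) / d with hA
  set Y : Fin ρ → Fin 2 → ℂ := fun j c => (![D (U j 0) * Ω 1 1 - D (U j 1) * Ω 1 0,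
    D (U j 1) * Ω 0 0 - D (U j 0) * Ω 0 1] c) / d with hY
  have hA0 : ∀ a, A a 0 = (D (Ω a 0) * Ω 1 1 - D (Ω a 1) * Ω 1 0) / d := fun a => rfl
  have hA1 : ∀ a, A a 1 = (D (Ω a 1) * Ω 0 0 - D (Ω a 0) * Ω 0 1) / d := fun a => rfl
  have hY0 : ∀ j, Y j 0 = (D (U j 0) * Ω 1 1 - D (U j 1) * Ω 1 0) / d := fun a => rfl
  have hY1 : ∀ j, Y j 1 = (D (U j 1) * Ω 0 0 - D (U j 0) * Ω 0 1) / d := fun a => rfl
  have h1 : ∀ a c, A a 0 * Ω 0 c + A a 1 * Ω 1 c = D (Ω a c) := by
    intro a c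
    rw [hA0, hA1, div_mul_eq_mul_div, div_mul_eq_mul_div, ← add_div, div_eq_iff hd]
    fin_cases c
    · simp only [Fin.zero_eta]
      linear_combination (D (Ω a 0)) * hdet
    · simp only [Fin.mk_one]
      linear_combination (D (Ω a 1)) * hdet
  have h2 : ∀ j c, Y j 0 * Ω 0 c + Y j 1 * Ω 1 c = D (U j c) := by
    intro j c
    rw [hY0, hY1, div_mul_eq_mul_div, div_mul_eq_mul_div, ← add_div, div_eq_iff hd]
    fin_cases c
    · simp only [Fin.zero_eta]
      linear_combination (D (U j 0)) * hdet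
    · simp only [Fin.mk_one]
      linear_combination (D (U j 1)) * hdet
  have h3 : (A 0 0 + A 1 1) * τ = D τ := by
    have e1 := congrArg D hdet
    rw [hddef] at e1
    simp only [map_sub, Derivation.leibniz, smul_eq_mul, hD, mul_zero, add_zero] at e1
    apply mul_left_cancel₀ hk
    rw [← e1]
    have e2 : k * ((A 0 0 + A 1 1) * τ) = (A 0 0 + A 1 1) * d := by rw [hddef]; ring
    rw [e2, ← hdet]
    linear_combination (Ω 1 1) * h1 0 0 - (Ω 1 0) * h1 0 1 + Ω 0 0 * h1 1 1 - Ω 0 1 * h1 1 0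
  set t : I → ℂ := fun e => (D (s e) - (Y (P e) 0 * (Ω 0 1 * U (Q e) 0 - Ω 0 0 * U (Q e) 1) +
            Y (P e) 1 * (Ω 1 1 * U (Q e) 0 - Ω 1 0 * U (Q e) 1))) / τ with ht
  have ht' : ∀ e, t e * τ = D (s e) - (Y (P e) 0 * (Ω 0 1 * U (Q e) 0 - Ω 0 0 * U (Q e) 1) +
            Y (P e) 1 * (Ω 1 1 * U (Q e) 0 - Ω 1 0 * U (Q e) 1)) := fun e => by
    rw [ht]
    exact div_mul_cancel₀ _ hτ
  set V : Matrix ν ν ℂ := N₀.map D * N₀⁻¹ with hV
  have hV' : V * N₀ = N₀.map D := by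
    rw [hV, Matrix.mul_assoc, Matrix.nonsing_inv_mul _ ((Matrix.isUnit_iff_isUnit_det _).1 hN),
      Matrix.mul_one]
  have key : lie P Q k A Y t V * mat P Q Ω τ U s N₀ = (mat P Q Ω τ U s N₀).map D := by
    rw [lie_mul_mat P Q k A Ω τ hdet]
    have hAΩ : ∀ a c, (A * Ω) a c = D (Ω a c) := fun a c => by
      rw [Matrix.mul_apply, Fin.sum_univ_two, h1]
    unfold mat
    rw [bd_map _ _ _ _ _ (map_zero D)]
    simp only [b3_map _ (map_zero D), b4_map _ (map_zero D), hAΩ, h2, h3,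
      ht', D.map_one_eq_zero]
    congr 1
    · ext a c
      exact hAΩ a c
    · funext e
      congr 1
      · simp only [map_sub, Derivation.leibniz, smul_eq_mul]
        ring
      · simp only [map_sub, Derivation.leibniz, smul_eq_mul]
        ring
      · ring
  refine ⟨A, Y, t, V, ?_, h1, h2, h3, hV'⟩
  unfold InL
  have h5 := logder_mem hT D hc
  rw [← key, Matrix.mul_assoc, mul_inv' hT hc, Matrix.mul_one] at h5
  exact h5

/-- the Lie algebra of a subtorsor -/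
theorem alg_of (hK : ∀ x, x ∈ K ↔ IsAlgebraic ℚ x) (hT : IsSubtorsor K T) (k0 : k ≠ 0) (kK : k ∈ K)
    {Ω : M2} {τ : ℂ} (τK : τ ∉ K) (det : Ω 0 0 * Ω 1 1 - Ω 0 1 * Ω 1 0 = k * τ)
    {U : Fin ρ → Fin 2 → ℂ} {s : I → ℂ} {N₀ : Matrix ν ν ℂ} (hN : IsUnit N₀)
    (hc : mat P Q Ω τ U s N₀ ∈ T)
    (ell : ∀ σ r : ℂ, σ ∈ K → r ∈ K → (σ ≠ 0 ∨ r ≠ 0) → ∀ (lam : Fin ρ → ℂ) (γ : Fin 2 → ℂ),
      (∀ j, lam j ∈ K) → (∀ a, γ a ∈ K) →
      ∑ j, lam j * (σ * U j 1 + r * U j 0) + ∑ a, γ a * (σ * Ω a 1 + r * Ω a 0) ∈ K →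
      lam = 0 ∧ γ = 0)
    (inj : ∀ e e' : I, (P e = P e' ∧ Q e = Q e') ∨ (P e = Q e' ∧ Q e = P e') → e = e') :
    Alg K P Q k (InL P Q k T) Ω τ U N₀ where
  hK := hK
  k0 := k0
  kK := kK
  τK := τK
  det := det
  ell := ell
  inj := inj
  zero := by
    unfold InL
    rw [lie_zero]
    exact Submodule.zero_mem _
  add := by
    intro A A' Y Y' t t' V V' h h'
    unfold InL at *
    rw [← lie_add, fl_add]
    exact Submodule.add_mem _ h h'
  smul := by
    intro s A Y t V h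
    unfold InL at *
    rw [← lie_smul, fl_smul]
    exact Submodule.smul_mem _ _ h
  br := by
    intro A A' Y Y' t t' V V' h h'
    unfold InL at *
    rw [← lie_br]
    exact lie_mem h h'
  aut := by
    intro σ hσ A Y t V h
    unfold InL at *
    have h1 := LL_aut hT σ hσ _ h
    have h2 := lie_map P Q k (σ : ℂ →+* ℂ) (hσ k kK) A Y t V
    have h3 : fl ((lie P Q k A Y t V).map (σ : ℂ →+* ℂ)) =
        fl (lie P Q k (A.map σ) (fun j b => σ (Y j b)) (fun e => σ (t e)) (V.map σ)) :=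
      congrArg fl h2
    rw [← h3]
    exact h1
  logd D := logder hT k0 (fun h0 => τK (by rw [h0]; exact K.zero_mem)) det hN hc D
    (der_of_mem D kK)

/-! ### From the Lie algebra to the group -/

/-- the action of `GL(2)`, trivial on the last block -/
def grp (ρ : ℕ) (I ν : Type) [Fintype I] [DecidableEq I] [Fintype ν] [DecidableEq ν] (g : M2) :
    Matrix (BB ρ I ν) (BB ρ I ν) ℂ :=
  bd g (fun _ => b3 (g 0 0) (g 0 1) (g 1 0) (g 1 1) 0 0 1)
    (fun _ => b4 g.det 0 0 (g 0 0) (g 0 1) (g 1 0) (g 1 1) 0 0 0 1) 1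

theorem grp_mul (g g' : M2) : grp ρ I ν g * grp ρ I ν g' = grp ρ I ν (g * g') := by
  have hA : ∀ a b, (g * g') a b = g a 0 * g' 0 b + g a 1 * g' 1 b := fun a b => by
    rw [Matrix.mul_apply, Fin.sum_univ_two]
  unfold grp
  rw [bd_mul]
  simp only [b3_mul, b4_mul, Matrix.det_mul, hA, Matrix.mul_one]
  congr 1
  · funext e
    congr 1 <;> ring
  · funext e
    congr 1 <;> ring

variable (P Q : I → Fin ρ) (k : ℂ)

theorem grp_mul_mat (g X : M2) (l : ℂ) (Y : Fin ρ → Fin 2 → ℂ) (t : I → ℂ) (V : Matrix ν ν ℂ) :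
    grp ρ I ν g * mat P Q X l Y t V = mat P Q (g * X) (g.det * l) Y t V := by
  have hA : ∀ a b, (g * X) a b = g a 0 * X 0 b + g a 1 * X 1 b := fun a b => by
    rw [Matrix.mul_apply, Fin.sum_univ_two]
  unfold grp mat
  rw [bd_mul, Matrix.one_mul]
  simp only [b3_mul, b4_mul, hA]
  congr 1
  · funext e
    congr 1 <;> ring
  · funext e
    congr 1 <;> ring

theorem one_eq : bd (1 : M2) (fun _ : Fin ρ => b3 1 0 0 1 0 0 1)
    (fun _ : I => b4 1 0 0 1 0 0 1 0 0 0 1) (1 : Matrix ν ν ℂ) = 1 := by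
  rw [b3_one, b4_one, bd_one]

theorem one_add_lie (s : ℂ) (A g : M2) (hg : ∀ a b, g a b = (1 : M2) a b + s * A a b)
    (hdet : g.det = 1 + s * (A 0 0 + A 1 1)) :
    1 + s • lie P Q k A 0 0 (0 : Matrix ν ν ℂ) = grp ρ I ν g := by
  rw [← one_eq, lie_smul]
  unfold lie grp
  rw [bd_add, smul_zero, smul_zero, smul_zero, add_zero]
  simp only [b3_add, b4_add]
  congr 1
  · ext a b
    rw [hg]
    rfl
  · funext j
    congr 1 <;> simp [hg]
  · funext j
    congr 1 <;> simp [hg, hdet] <;> ring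

/-- unipotent elements -/
theorem uni_mul_mat (X : M2) (l : ℂ) (hl : X 0 0 * X 1 1 - X 0 1 * X 1 0 = k * l)
    (Y U : Fin ρ → Fin 2 → ℂ) (t s : I → ℂ) (W : Matrix ν ν ℂ) :
    (1 + (1 : ℂ) • lie P Q k 0 Y t 0) * mat P Q X l U s W =
      mat P Q X l (fun j c => U j c + (Y j 0 * X 0 c + Y j 1 * X 1 c))
        (fun e => s e + (t e * l + (Y (P e) 0 * (X 0 1 * U (Q e) 0 - X 0 0 * U (Q e) 1) +
            Y (P e) 1 * (X 1 1 * U (Q e) 0 - X 1 0 * U (Q e) 1))))
        W := by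
  rw [one_smul, Matrix.add_mul, Matrix.one_mul, lie_mul_mat P Q k 0 X l hl, Matrix.zero_mul]
  unfold mat
  rw [bd_add, Matrix.zero_mul, add_zero, add_zero]
  simp only [b3_add, b4_add, Matrix.zero_apply, add_zero, zero_mul, zero_sub, sub_zero,
    neg_zero, zero_add]
  congr 1
  funext e
  congr 1 <;> ring

variable {P Q k}

/-- stability under `SL(2)` -/
theorem sl_stab (hT : IsSubtorsor K T)
    (h : ∀ (A : M2), A 0 0 + A 1 1 = 0 → ∀ Y t, InL P Q k T A Y t 0) (g : M2) (hg : g.det = 1) :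
    ∀ x ∈ T, grp ρ I ν g * x ∈ T := by
  have hmul : ∀ g g' : M2, (∀ x ∈ T, grp ρ I ν g * x ∈ T) → (∀ x ∈ T, grp ρ I ν g' * x ∈ T) →
      ∀ x ∈ T, grp ρ I ν (g * g') * x ∈ T := by
    intro g g' h1 h2 x hx
    rw [← grp_mul, Matrix.mul_assoc]
    exact h1 _ (h2 _ hx)
  have htr : ∀ (i j : Fin 2) (hij : i ≠ j) (c : ℂ), ∀ x ∈ T,
      grp ρ I ν (Matrix.transvection i j c) * x ∈ T := by
    intro i j hij c x hx
    have hE : lie P Q k (Matrix.single i j 1) 0 0 (0 : Matrix ν ν ℂ) *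
        lie P Q k (Matrix.single i j 1) 0 0 (0 : Matrix ν ν ℂ) = 0 := by
      rw [lie_mul]
      have e1 : (Matrix.single i j 1 : M2) * Matrix.single i j 1 = 0 := by
        rw [Matrix.single_mul_single_of_ne _ _ _ _ hij.symm]
      have e2 : (Matrix.single i j 1 : M2) 0 0 + (Matrix.single i j 1 : M2) 1 1 = 0 := by
        rcases fin2 i with rfl | rfl <;> rcases fin2 j with rfl | rfl <;> simp at hij ⊢
      rw [e1, e2, ← lie_zero P Q k]
      unfold lie
      simp
    have h1 := exp_nil hT hE (h _ (by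
      rcases fin2 i with rfl | rfl <;> rcases fin2 j with rfl | rfl <;> simp at hij ⊢) 0 0) hx c
    rw [one_add_lie P Q k c _ (Matrix.transvection i j c) (by
      intro a b
      rw [Matrix.transvection, Matrix.add_apply]
      congr 1
      rw [Matrix.single_apply, Matrix.single_apply]
      split_ifs <;> simp) (by
      rw [Matrix.det_transvection_of_ne _ _ hij]
      rcases fin2 i with rfl | rfl <;> rcases fin2 j with rfl | rfl <;> simp at hij ⊢)] at h1
    exact h1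
  have h01 : (0 : Fin 2) ≠ 1 := by decide
  have key : ∀ g : M2, g.det = 1 → g 1 0 ≠ 0 → ∀ x ∈ T, grp ρ I ν g * x ∈ T := by
    intro g hg h10
    have hd : g 0 0 * g 1 1 - g 0 1 * g 1 0 = 1 := by rw [← Matrix.det_fin_two, hg]
    have h1 : g = Matrix.transvection 0 1 ((g 0 0 - 1) / g 1 0) * Matrix.transvection 1 0 (g 1 0) *
        Matrix.transvection 0 1 ((g 1 1 - 1) / g 1 0) := by
      have e : ∀ c : ℂ, (Matrix.transvection 0 1 c : M2) = !![1, c; 0, 1] := by
        intro c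
        ext a b
        fin_cases a <;> fin_cases b <;> simp [Matrix.transvection]
      have e' : ∀ c : ℂ, (Matrix.transvection 1 0 c : M2) = !![1, 0; c, 1] := by
        intro c
        ext a b
        fin_cases a <;> fin_cases b <;> simp [Matrix.transvection]
      rw [e, e, e']
      conv_lhs => rw [Matrix.eta_fin_two g]
      rw [Matrix.mul_fin_two, Matrix.mul_fin_two]
      have h1 : (g 0 0 - 1) / g 1 0 * g 1 0 = g 0 0 - 1 := div_mul_cancel₀ _ h10
      have h2 : g 1 0 * ((g 1 1 - 1) / g 1 0) = g 1 1 - 1 := mul_div_cancel₀ _ h10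
      ext a b
      fin_cases a <;> fin_cases b
      · simp [h1]
      · simp
        field_simp
        linear_combination -hd
      · simp
      · simp [h2]
    rw [h1]
    exact hmul _ _ (hmul _ _ (htr 0 1 h01 _) (htr 1 0 h01.symm _)) (htr 0 1 h01 _)
  by_cases h10 : g 1 0 = 0
  · have h00 : g 0 0 ≠ 0 := by
      intro h0
      rw [Matrix.det_fin_two, h0, h10] at hg
      simp at hg
    have h2 : g = Matrix.transvection 1 0 (-1) * (Matrix.transvection 1 0 1 * g) := by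
      rw [← Matrix.mul_assoc, Matrix.transvection_mul_transvection_same _ _ h01.symm]
      simp
    rw [h2]
    refine hmul _ _ (htr 1 0 h01.symm _) (key _ ?_ ?_)
    · rw [Matrix.det_mul, Matrix.det_transvection_of_ne _ _ h01.symm, hg, one_mul]
    · simp [Matrix.transvection, Matrix.mul_apply, Fin.sum_univ_two, Matrix.single_apply,
        Matrix.one_apply, h10, h00]
  · exact key g hg h10

/-- **A subtorsor contains with a point all points with the same determinant and the same last block.** -/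
theorem stab (hT : IsSubtorsor K T) (k0 : k ≠ 0)
    (h : ∀ (A : M2), A 0 0 + A 1 1 = 0 → ∀ Y t, InL P Q k T A Y t 0) {X X' : M2} {l : ℂ}
    (hl : X 0 0 * X 1 1 - X 0 1 * X 1 0 = k * l) (hl' : X' 0 0 * X' 1 1 - X' 0 1 * X' 1 0 = k * l)
    (hl0 : l ≠ 0) {U : Fin ρ → Fin 2 → ℂ} {s : I → ℂ} {W : Matrix ν ν ℂ}
    (hx : mat P Q X l U s W ∈ T) (Y : Fin ρ → Fin 2 → ℂ) (t : I → ℂ) :
    mat P Q X' l Y t W ∈ T := by
  have hkl : k * l ≠ 0 := mul_ne_zero k0 hl0
  have hX : IsUnit X.det := isUnit_iff_ne_zero.2 (by rw [Matrix.det_fin_two, hl]; exact hkl)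
  -- the part of weight zero
  have s1 : mat P Q X' l U s W ∈ T := by
    have hd : (X' * X⁻¹).det = 1 := by
      apply mul_right_cancel₀ (b := X.det) hX.ne_zero
      rw [← Matrix.det_mul, Matrix.mul_assoc, Matrix.nonsing_inv_mul _ hX, Matrix.mul_one,
        Matrix.det_fin_two, Matrix.det_fin_two, hl, hl', one_mul]
    have h1 := sl_stab hT h (X' * X⁻¹) hd _ hx
    rw [grp_mul_mat, Matrix.mul_assoc, Matrix.nonsing_inv_mul _ hX, Matrix.mul_one, hd,
      one_mul] at h1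
    exact h1
  -- the part of weight one
  have s2 : ∀ S : Finset (Fin ρ), ∃ t', mat P Q X' l (fun j => if j ∈ S then Y j else U j) t' W ∈ T := by
    intro S
    induction S using Finset.induction_on with
    | empty => exact ⟨s, by simpa using s1⟩
    | insert j₀ S hj ih =>
      obtain ⟨t', ht'⟩ := ih
      set y : Fin 2 → ℂ := fun c => ![((Y j₀ 0 - U j₀ 0) * X' 1 1 - (Y j₀ 1 - U j₀ 1) * X' 1 0),
        (Y j₀ 1 - U j₀ 1) * X' 0 0 - (Y j₀ 0 - U j₀ 0) * X' 0 1] c / (k * l) with hy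
      have hyX : ∀ c, y 0 * X' 0 c + y 1 * X' 1 c = Y j₀ c - U j₀ c := by
        intro c
        have y0 : y 0 = ((Y j₀ 0 - U j₀ 0) * X' 1 1 - (Y j₀ 1 - U j₀ 1) * X' 1 0) / (k * l) := rfl
        have y1 : y 1 = ((Y j₀ 1 - U j₀ 1) * X' 0 0 - (Y j₀ 0 - U j₀ 0) * X' 0 1) / (k * l) := rfl
        rw [y0, y1, div_mul_eq_mul_div, div_mul_eq_mul_div, ← add_div, div_eq_iff hkl]
        rcases fin2 c with rfl | rfl
        · linear_combination (Y j₀ 0 - U j₀ 0) * hl'
        · linear_combination (Y j₀ 1 - U j₀ 1) * hl'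
      have hE : lie P Q k 0 (Pi.single j₀ y) 0 (0 : Matrix ν ν ℂ) *
          lie P Q k 0 (Pi.single j₀ y) 0 (0 : Matrix ν ν ℂ) = 0 := by
        rw [lie_mul, Matrix.mul_zero, ← lie_zero P Q k]
        have hz : ∀ e, (Pi.single j₀ y : Fin ρ → Fin 2 → ℂ) (P e) 1 *
            (Pi.single j₀ y : Fin ρ → Fin 2 → ℂ) (Q e) 0 -
            (Pi.single j₀ y : Fin ρ → Fin 2 → ℂ) (P e) 0 *
            (Pi.single j₀ y : Fin ρ → Fin 2 → ℂ) (Q e) 1 = 0 := by
          intro e
          by_cases a1 : P e = j₀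
          · by_cases a2 : Q e = j₀
            · rw [a1, a2, Pi.single_eq_same]
              ring
            · simp [Pi.single_eq_of_ne a2]
          · simp [Pi.single_eq_of_ne a1]
        unfold lie
        congr 1
        · funext j
          simp
        · funext e
          simp [hz]
        · simp
      have h1 := exp_nil hT hE (h 0 (by simp) _ _) ht' 1
      rw [uni_mul_mat P Q k X' l hl'] at h1
      have eY : (fun (j : Fin ρ) (c : Fin 2) => (if j ∈ S then Y j else U j) c +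
          ((Pi.single j₀ y : Fin ρ → Fin 2 → ℂ) j 0 * X' 0 c +
            (Pi.single j₀ y : Fin ρ → Fin 2 → ℂ) j 1 * X' 1 c)) =
          fun j => if j ∈ insert j₀ S then Y j else U j := by
        funext j c
        by_cases hjj : j = j₀
        · subst hjj
          rw [Pi.single_eq_same, hyX, if_pos (Finset.mem_insert_self _ _), if_neg hj]
          ring
        · rw [Pi.single_eq_of_ne hjj]
          have : (j ∈ insert j₀ S) ↔ j ∈ S := by
            rw [Finset.mem_insert]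
            exact ⟨fun h => h.resolve_left hjj, Or.inr⟩
          simp only [this, Pi.zero_apply, zero_mul, add_zero]
      rw [eY] at h1
      exact ⟨_, h1⟩
  obtain ⟨t', ht'⟩ := s2 Finset.univ
  simp only [Finset.mem_univ, if_true] at ht'
  -- the part of weight two
  have hE : lie P Q k 0 0 (fun e => (t e - t' e) / l) (0 : Matrix ν ν ℂ) *
      lie P Q k 0 0 (fun e => (t e - t' e) / l) (0 : Matrix ν ν ℂ) = 0 := by
    rw [lie_mul, Matrix.mul_zero, ← lie_zero P Q k]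
    unfold lie
    simp
  have h1 := exp_nil hT hE (h 0 (by simp) _ _) ht' 1
  rw [uni_mul_mat P Q k X' l hl'] at h1
  convert h1 using 2
  · funext j c
    simp
  · funext e
    simp only [Pi.zero_apply, zero_mul, add_zero]
    rw [div_mul_cancel₀ _ hl0]
    ring

end Pool.Agent.U100.FP
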