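import Pool.Agent.U100.FP.Cnt
import Pool.Agent.U100.FP.Fib2
import Pool.Agent.U725.OM.Arith

/-!
# The theorem on the exceptional curves
-/

set_option autoImplicit false
set_option linter.unusedSectionVars false
set_option linter.unusedSimpArgs false

open Matrix
open scoped PeriodPair

namespace Pool.Agent.U100.FP

open Pool.Agent.U725.OM (M2 fin2 QB mem_QB ell_of bak_of notMem_of_indep der_of_mem)
open Pool.Agent.TH127.PT H667R3
open Pool.Agent.W245.EB (kL)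

noncomputable section

/-- the periods and quasi-periods -/
def per (L : PeriodPair) : M2 :=
  !![L.ω₁, 2 * zeta L (L.ω₁ / 2); L.ω₂, 2 * zeta L (L.ω₂ / 2)]

/-- `2 π i` -/
abbrev tpi : ℂ := 2 * Real.pi * Complex.I

/-- an elliptic curve without complex multiplication over the field of algebraic numbers -/
structure Cur (L : PeriodPair) (n : ℤ) : Prop where
  h2 : IsAlgebraic ℚ L.g₂
  h3 : IsAlgebraic ℚ L.g₃
  hL : ∀ β ∈ kL L, ∃ q : ℚ, β = q
  hn : n ≠ 0
  det : per L 0 0 * per L 1 1 - per L 0 1 * per L 1 0 = (n : ℂ) * tpi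

/-- independent points -/
structure Pts (L : PeriodPair) {ρ : ℕ} {I : Type} (P Q : I → Fin ρ) (w : Fin ρ → ℂ) : Prop where
  hw : ∀ j, IsAlgebraic ℚ (℘[L] (w j))
  hi : LinearIndependent ℚ (Fin.append ![L.ω₁, L.ω₂] w)
  hPQ : ∀ e e' : I, (P e = P e' ∧ Q e = Q e') ∨ (P e = Q e' ∧ Q e = P e') → e = e'

theorem tpi_notMem : tpi ∉ QB := by
  intro h
  rw [mem_QB] at h
  have h1 := (bak_of (m := 0) (b := fun i => i.elim0) (fun i => i.elim0) (by
    rw [Fintype.linearIndependent_iff]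
    intro g hg i
    obtain rfl : i = 0 := Subsingleton.elim (α := Fin 1) _ _
    have h2 : g 0 • (2 * Real.pi * Complex.I : ℂ) = 0 := by
      simpa using hg
    exact (smul_eq_zero.1 h2).resolve_right Complex.two_pi_I_ne_zero) 0 1 (fun _ => isAlgebraic_zero) isAlgebraic_one (by
    simpa using h)).2
  exact one_ne_zero h1

variable {ν : Type} [Fintype ν] [DecidableEq ν] {N₀ : Matrix ν ν ℂ}

theorem alg_cur {L : PeriodPair} {n : ℤ} (hC : Cur L n) {ρ : ℕ} {I : Type} [Fintype I]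
    [DecidableEq I] {P Q : I → Fin ρ} {w : Fin ρ → ℂ} (hP : Pts L P Q w) {s : I → ℂ}
    {T : Set (Matrix (BB ρ I ν) (BB ρ I ν) ℂ)} (hT : IsSubtorsor QB T) (hN : IsUnit N₀)
    (hc : mat P Q (per L) tpi (fun j => ![w j, zeta L (w j)]) s N₀ ∈ T) :
    Alg QB P Q (n : ℂ) (InL P Q (n : ℂ) T) (per L) tpi (fun j => ![w j, zeta L (w j)]) N₀ := by
  refine alg_of (fun _ => mem_QB) hT (by exact_mod_cast hC.hn) (intCast_mem _ _) tpi_notMem hC.det
    hN hc ?_ hP.hPQ
  intro σ r hσ hr hσr lam γ hlam hγ h0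
  refine ell_of hC.h2 hC.h3 hC.hL (fun j => ⟨notMem_of_indep hP.hi j, hP.hw j⟩) hP.hi σ r
    (mem_QB.1 hσ) (mem_QB.1 hr) hσr lam γ (fun j => mem_QB.1 (hlam j)) (fun a => mem_QB.1 (hγ a)) ?_
  rw [mem_QB] at h0
  simpa [Fin.sum_univ_two, per] using h0

/-- a curve which is not exceptional -/
def Good (L : PeriodPair) (n : ℤ) (N₀ : Matrix ν ν ℂ) : Prop :=
  ∀ (ρ : ℕ) (I : Type) (_ : Fintype I) (_ : DecidableEq I) (P Q : I → Fin ρ) (w : Fin ρ → ℂ),
    Pts L P Q w → ∀ (s : I → ℂ) (T : Set (Matrix (BB ρ I ν) (BB ρ I ν) ℂ)), IsSubtorsor QB T →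
      mat P Q (per L) tpi (fun j => ![w j, zeta L (w j)]) s N₀ ∈ T →
      ∀ A : M2, A 0 0 + A 1 1 = 0 → ∀ Y t, InL P Q (n : ℂ) T A Y t 0

variable {bl : ν → ℕ} {a a' b : Matrix ν ν ℂ}

theorem bad_flat {L : PeriodPair} {n : ℤ} (hC : Cur L n) (hN : IsUnit N₀) (haa : a' * a = 1)
    (haK : ∀ i j, a i j ∈ QB) (haK' : ∀ i j, a' i j ∈ QB) (hbK : ∀ i j, b i j ∈ QB)
    (hM : (a * N₀ * b).BlockTriangular bl) (hu : IsUnit (a * N₀ * b)) (hbad : ¬ Good L n N₀) :
    ∃ R : M2 → Matrix ν ν ℂ → Prop, Flat QB (n : ℂ) R (per L) tpi N₀ ∧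
      (∀ A V, R A V → ∀ p q, bl q < bl p → (a * V * a') p q = 0) ∧
      ∀ A V, V ∈ J0 bl a a' → R A V → ∃ c : ℂ, A = c • (1 : M2) := by
  unfold Good at hbad
  simp only [not_forall] at hbad
  obtain ⟨ρ, I, fI, dI, P, Q, w, hP, s, T, hT, hc, A, hA, Y, t, hb⟩ := hbad
  have h := alg_cur (n := n) hC hP hT hN hc
  have h' := h.sub_blk haa haK haK' hbK hM hu
  refine ⟨_, h'.flat, ?_, ?_⟩
  · rintro A V ⟨Y, t, -, h1⟩
    exact h1
  · rintro A' V hV ⟨Y', t', h1⟩
    by_contra hsc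
    push Not at hsc
    apply hb
    refine h.perfect (fun B hB => ?_) A hA Y t
    obtain ⟨Y2, t2, h2⟩ := h'.of_prj haa (fun _ _ _ _ h => h.2) ⟨A', ⟨Y', t', V, hV, h1⟩, hsc⟩ B hB
    exact ⟨Y2, t2, h2.1⟩

/-- derivations which kill a set of numbers and move a ratio -/
theorem exists_der_ratio (S : Set ℂ) (x y : ℂ)
    (h : ¬ IsAlgebraic (IntermediateField.adjoin ℚ S) (x / y)) :
    ∃ D : Derivation QB ℂ ℂ, (∀ z ∈ S, D z = 0) ∧ D x * y ≠ x * D y := by
  set F := IntermediateField.adjoin ℚ S with hF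
  have hy : y ≠ 0 := by
    rintro rfl
    apply h
    rw [div_zero]
    exact isAlgebraic_zero
  have hind : AlgebraicIndependent F (fun _ : Unit => x / y) :=
    (algebraicIndependent_unique_type_iff).2 h
  obtain ⟨D₀, hD₀⟩ := Pool.Agent.H135R2.VS.exists_der hind (fun _ => (1 : ℂ))
  have hD1 : D₀ (x / y) = 1 := hD₀ ()
  have hS : ∀ z ∈ S, D₀ z = 0 := fun z hz =>
    D₀.map_algebraMap (⟨z, IntermediateField.subset_adjoin ℚ S hz⟩ : F)
  have hQ : ∀ z : ℂ, IsAlgebraic ℚ z → D₀ z = 0 := by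
    intro z hz
    have h1 : (D₀.restrictScalars ℚ) (Polynomial.aeval z (minpoly ℚ z)) =
        Polynomial.aeval z (Polynomial.derivative (minpoly ℚ z)) • (D₀.restrictScalars ℚ) z :=
      Derivation.map_aeval _ _ _
    rw [minpoly.aeval, map_zero, smul_eq_mul] at h1
    have h2 : Polynomial.aeval z (Polynomial.derivative (minpoly ℚ z)) ≠ 0 :=
      (minpoly.irreducible hz.isIntegral).separable.aeval_derivative_ne_zero (minpoly.aeval ℚ z)
    exact (mul_eq_zero.1 h1.symm).resolve_left h2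
  let D : Derivation QB ℂ ℂ :=
    { toFun := D₀
      map_add' := map_add D₀
      map_smul' := by
        intro q z
        have h1 : q • z = (q : ℂ) * z := rfl
        have h2 : D₀ (q : ℂ) = 0 := hQ _ (mem_QB.1 q.2)
        rw [h1, Derivation.leibniz, h2, smul_zero, add_zero]
        rfl
      map_one_eq_zero' := D₀.map_one_eq_zero
      leibniz' := D₀.leibniz }
  refine ⟨D, hS, fun h0 => ?_⟩
  have h1 : D₀ x = (x / y) * D₀ y + y * 1 := by
    conv_lhs => rw [← div_mul_cancel₀ x hy]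
    rw [Derivation.leibniz, hD1, smul_eq_mul, smul_eq_mul]
  have h2 : D₀ x * y = x * D₀ y := h0
  rw [h1] at h2
  have h3 : (x / y * D₀ y + y * 1) * y = x * D₀ y + y * y := by
    field_simp
  rw [h3] at h2
  have h4 : y * y = 0 := by linear_combination h2
  exact hy (mul_self_eq_zero.1 h4)

/-- **The exceptional curves.** -/
theorem main {ι : Type} (L : ι → PeriodPair) (n : ι → ℤ) (hC : ∀ i, Cur (L i) (n i))
    (hun : ∀ i j : ι, i ≠ j → ¬ ∃ g C : M2, (∀ a b, g a b ∈ QB) ∧ (∀ a b, C a b ∈ QB) ∧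
      g.det ≠ 0 ∧ g * per (L j) = per (L i) * C)
    (hN : IsUnit N₀) (haa : a' * a = 1)
    (haK : ∀ i j, a i j ∈ QB) (haK' : ∀ i j, a' i j ∈ QB) (hbK : ∀ i j, b i j ∈ QB)
    (hM : (a * N₀ * b).BlockTriangular bl) (hu : IsUnit (a * N₀ * b)) :
    ∃ X : Set ι, X.Finite ∧ 3 * X.ncard + (Finset.univ.image bl).card ≤
        Fintype.card {p : ν × ν // bl p.1 = bl p.2} ∧
      (∀ i ∈ X, ∀ x c y d, IsAlgebraic (IntermediateField.adjoin ℚ
        {z : ℂ | ∃ p q, bl p = bl q ∧ Big bl p ∧ z = (a * N₀ * b) p q})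
        (per (L i) x c / per (L i) y d)) ∧
      ∀ i, i ∉ X → Good (L i) (n i) N₀ := by
  classical
  have hbd : ∀ Y : Finset ι, (∀ i ∈ Y, ¬ Good (L i) (n i) N₀) →
      3 * Y.card + (Finset.univ.image bl).card ≤
        Fintype.card {p : ν × ν // bl p.1 = bl p.2} := by
    intro Y hY
    choose R hR hBT hex using fun i : {i // i ∈ Y} =>
      bad_flat (hC i) hN haa haK haK' hbK hM hu (hY i i.2)
    have h1 := count (ι := {i // i ∈ Y}) (k := fun i => ((n i : ℤ) : ℂ)) (R := R)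
      (Ω := fun i => per (L i)) hR hN haa hBT
      (fun i j hij => hun i j (fun h => hij (Subtype.ext h))) hex
    rwa [Fintype.card_coe] at h1
  set X : Set ι := {i | ¬ Good (L i) (n i) N₀} with hX
  have hfin : X.Finite := by
    by_contra hinf
    obtain ⟨Y, hY, hYc⟩ := Set.Infinite.exists_subset_card_eq hinf
      (Fintype.card {p : ν × ν // bl p.1 = bl p.2} + 1)
    have h1 := hbd Y fun i hi => hY hi
    omega
  refine ⟨X, hfin, ?_, ?_, fun i hi => by_contra fun h => hi h⟩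
  · have h1 := hbd hfin.toFinset fun i hi => (hfin.mem_toFinset).1 hi
    rwa [← Set.ncard_eq_toFinset_card X hfin] at h1
  · intro i hi x c y d
    by_contra hcon
    obtain ⟨D, hD1, hD2⟩ := exists_der_ratio _ _ _ hcon
    obtain ⟨R, hR, hBT, hex⟩ := bad_flat (hC i) hN haa haK haK' hbK hM hu hi
    obtain ⟨A, ⟨Y, t, V, hV, hA⟩, hs⟩ := Alg.of_der haa hR (fun A _ _ V h => hBT A V h) haK hbK hM hu
      ⟨D, fun p q hpq hb => hD1 _ ⟨p, q, hpq, hb, rfl⟩, x, c, y, d, hD2⟩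
    obtain ⟨s, hs'⟩ := hex A V hV hA
    exact hs s hs'

/-- **Fibre products for the curves which are not exceptional.** -/
theorem good_om {L : PeriodPair} {n : ℤ} (hC : Cur L n) (hN : IsUnit N₀) (hg : Good L n N₀) {ρ : ℕ}
    {I : Type} [Fintype I] [DecidableEq I] {P Q : I → Fin ρ} {w : Fin ρ → ℂ} (hP : Pts L P Q w)
    (s : I → ℂ) {K : Subfield ℂ} (hK : ∀ x ∈ K, IsAlgebraic ℚ x) :
    Om K (mat P Q (per L) tpi (fun j => ![w j, zeta L (w j)]) s N₀) =
      Fib P Q (n : ℂ) (Om K (smR tpi N₀)) := by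
  have hn : (n : ℂ) ≠ 0 := by exact_mod_cast hC.hn
  refine om_eq P Q hn (intCast_mem _ _) Complex.two_pi_I_ne_zero hC.det _ s hN
    fun T hT hc X X' l U s' W hl0 hl hl' hx Y t => ?_
  have hT' : IsSubtorsor QB T := by
    obtain ⟨J, hJ⟩ := hT.2
    refine ⟨fun x hx => ((hJ x).1 hx).1, hT.1, MvPolynomial.map (algebraMap K ℂ) '' J, ?_, ?_⟩
    · rintro _ ⟨p, _, rfl⟩ a
      rw [MvPolynomial.coeff_map, mem_QB]
      exact hK _ (p.coeff a).2
    · intro x
      rw [hJ x]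
      simp
  exact stab hT' hn (fun A hA Y t => hg ρ I _ _ P Q w hP s T hT' hc A hA Y t) hl hl' hl0 hx Y t

end

end Pool.Agent.U100.FP
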