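import Pool.Agent.U725.OM.Mat

/-!
# The matrices of a 1-motive over a power of an elliptic curve plus another motive

Adapted from `Pool.Agent.U725.OM.Mat` (helper725), with an arbitrary last block.
-/

set_option autoImplicit false
set_option linter.unusedSectionVars false

open Matrix

namespace Pool.Agent.U100.FP

open Pool.Agent.U725.OM (M2 b4 b3 b4_mul b3_mul b4_add b3_add b4_smul b3_smul b4_map b3_map b4_one b3_one)

/-- the index set -/
abbrev BB (ρ : ℕ) (I : Type) (ν : Type) : Type :=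
  Fin 2 ⊕ ((Fin 3 × Fin ρ) ⊕ ((Fin 4 × I) ⊕ ν))

variable {ρ : ℕ} {I ν : Type} [Fintype I] [DecidableEq I] [Fintype ν] [DecidableEq ν]

/-- block diagonal matrices -/
def bd (X : M2) (E : Fin ρ → Matrix (Fin 3) (Fin 3) ℂ) (F : I → Matrix (Fin 4) (Fin 4) ℂ)
    (V : Matrix ν ν ℂ) : Matrix (BB ρ I ν) (BB ρ I ν) ℂ :=
  fromBlocks X 0 0 (fromBlocks (blockDiagonal E) 0 0 (fromBlocks (blockDiagonal F) 0 0 V))

section bd

variable (X X' : M2) (E E' : Fin ρ → Matrix (Fin 3) (Fin 3) ℂ)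
  (F F' : I → Matrix (Fin 4) (Fin 4) ℂ) (V V' : Matrix ν ν ℂ)

theorem bd_mul : bd X E F V * bd X' E' F' V' =
    bd (X * X') (fun j => E j * E' j) (fun e => F e * F' e) (V * V') := by
  unfold bd
  simp only [fromBlocks_multiply, Matrix.mul_zero, Matrix.zero_mul, add_zero, zero_add,
    ← blockDiagonal_mul]

theorem bd_add : bd X E F V + bd X' E' F' V' =
    bd (X + X') (fun j => E j + E' j) (fun e => F e + F' e) (V + V') := by
  unfold bd
  have h1 : (fun j => E j + E' j) = E + E' := rfl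
  have h2 : (fun j => F j + F' j) = F + F' := rfl
  simp only [fromBlocks_add, add_zero, h1, h2, blockDiagonal_add]

theorem bd_smul (s : ℂ) : s • bd X E F V =
    bd (s • X) (fun j => s • E j) (fun e => s • F e) (s • V) := by
  unfold bd
  have h1 : (fun j => s • E j) = s • E := rfl
  have h2 : (fun j => s • F j) = s • F := rfl
  simp only [fromBlocks_smul, smul_zero, h1, h2, blockDiagonal_smul]

theorem bd_one : bd (1 : M2) (fun _ : Fin ρ => 1) (fun _ : I => 1) (1 : Matrix ν ν ℂ) = 1 := by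
  unfold bd
  have h1 : (fun _ : Fin ρ => (1 : Matrix (Fin 3) (Fin 3) ℂ)) = 1 := rfl
  have h2 : (fun _ : I => (1 : Matrix (Fin 4) (Fin 4) ℂ)) = 1 := rfl
  simp only [h1, h2, blockDiagonal_one, fromBlocks_one]

theorem bd_map (f : ℂ → ℂ) (hf : f 0 = 0) : (bd X E F V).map f =
    bd (X.map f) (fun j => (E j).map f) (fun e => (F e).map f) (V.map f) := by
  unfold bd
  simp only [fromBlocks_map, blockDiagonal_map _ f hf, Matrix.map_zero f hf]

end bd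

/-- the points of the torsor -/
def mat (P Q : I → Fin ρ) (X : M2) (l : ℂ) (Y : Fin ρ → Fin 2 → ℂ) (t : I → ℂ) (V : Matrix ν ν ℂ) :
    Matrix (BB ρ I ν) (BB ρ I ν) ℂ :=
  bd X
    (fun j => b3 (X 0 0) (X 0 1) (X 1 0) (X 1 1) (Y j 0) (Y j 1) 1)
    (fun e => b4 l (X 0 1 * Y (Q e) 0 - X 0 0 * Y (Q e) 1) (X 1 1 * Y (Q e) 0 - X 1 0 * Y (Q e) 1)
      (X 0 0) (X 0 1) (X 1 0) (X 1 1) (t e) (Y (P e) 0) (Y (P e) 1) 1)
    V

/-- the elements of the Lie algebra -/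
def lie (P Q : I → Fin ρ) (k : ℂ) (A : M2) (Y : Fin ρ → Fin 2 → ℂ) (t : I → ℂ) (V : Matrix ν ν ℂ) :
    Matrix (BB ρ I ν) (BB ρ I ν) ℂ :=
  bd A
    (fun j => b3 (A 0 0) (A 0 1) (A 1 0) (A 1 1) (Y j 0) (Y j 1) 0)
    (fun e => b4 (A 0 0 + A 1 1) (-(k * Y (Q e) 1)) (k * Y (Q e) 0)
      (A 0 0) (A 0 1) (A 1 0) (A 1 1) (t e) (Y (P e) 0) (Y (P e) 1) 0)
    V

variable (P Q : I → Fin ρ) (k : ℂ)

theorem lie_add (A A' : M2) (Y Y' : Fin ρ → Fin 2 → ℂ) (t t' : I → ℂ) (V V' : Matrix ν ν ℂ) :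
    lie P Q k A Y t V + lie P Q k A' Y' t' V' =
      lie P Q k (A + A') (Y + Y') (t + t') (V + V') := by
  unfold lie
  rw [bd_add]
  simp only [b3_add, b4_add, Matrix.add_apply, Pi.add_apply, add_zero]
  congr 1
  funext e
  congr 1 <;> ring

theorem lie_smul (s : ℂ) (A : M2) (Y : Fin ρ → Fin 2 → ℂ) (t : I → ℂ) (V : Matrix ν ν ℂ) :
    s • lie P Q k A Y t V = lie P Q k (s • A) (s • Y) (s • t) (s • V) := by
  unfold lie
  rw [bd_smul]
  simp only [b3_smul, b4_smul, Matrix.smul_apply, Pi.smul_apply, smul_eq_mul, mul_zero]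
  congr 1
  funext e
  congr 1 <;> ring

theorem lie_sub (A A' : M2) (Y Y' : Fin ρ → Fin 2 → ℂ) (t t' : I → ℂ) (V V' : Matrix ν ν ℂ) :
    lie P Q k A Y t V - lie P Q k A' Y' t' V' =
      lie P Q k (A - A') (Y - Y') (t - t') (V - V') := by
  have h : lie P Q k A Y t V - lie P Q k A' Y' t' V' =
      lie P Q k A Y t V + (-1 : ℂ) • lie P Q k A' Y' t' V' := by
    rw [neg_one_smul, sub_eq_add_neg]
  rw [h, lie_smul, lie_add]
  simp only [neg_one_smul, ← sub_eq_add_neg]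

/-- the products -/
theorem lie_mul (A A' : M2) (Y Y' : Fin ρ → Fin 2 → ℂ) (t t' : I → ℂ) (V V' : Matrix ν ν ℂ) :
    lie P Q k A Y t V * lie P Q k A' Y' t' V' =
      bd (A * A')
        (fun j => b3 ((A * A') 0 0) ((A * A') 0 1) ((A * A') 1 0) ((A * A') 1 1)
          (Y j 0 * A' 0 0 + Y j 1 * A' 1 0) (Y j 0 * A' 0 1 + Y j 1 * A' 1 1) 0)
        (fun e => b4 ((A 0 0 + A 1 1) * (A' 0 0 + A' 1 1))
          (-(k * Y (Q e) 1) * (A' 0 0 + A' 1 1) + k * (A 0 1 * Y' (Q e) 0 - A 0 0 * Y' (Q e) 1))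
          (k * Y (Q e) 0 * (A' 0 0 + A' 1 1) + k * (A 1 1 * Y' (Q e) 0 - A 1 0 * Y' (Q e) 1))
          ((A * A') 0 0) ((A * A') 0 1) ((A * A') 1 0) ((A * A') 1 1)
          (t e * (A' 0 0 + A' 1 1) + k * (Y (P e) 1 * Y' (Q e) 0 - Y (P e) 0 * Y' (Q e) 1))
          (Y (P e) 0 * A' 0 0 + Y (P e) 1 * A' 1 0) (Y (P e) 0 * A' 0 1 + Y (P e) 1 * A' 1 1) 0)
        (V * V') := by
  have hA : ∀ a b, (A * A') a b = A a 0 * A' 0 b + A a 1 * A' 1 b := fun a b => by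
    rw [Matrix.mul_apply, Fin.sum_univ_two]
  unfold lie
  rw [bd_mul]
  simp only [b3_mul, b4_mul, hA, zero_mul, add_zero]
  congr 1
  funext e
  congr 1 <;> ring

/-- the bracket -/
theorem lie_br (A A' : M2) (Y Y' : Fin ρ → Fin 2 → ℂ) (t t' : I → ℂ) (V V' : Matrix ν ν ℂ) :
    lie P Q k A Y t V * lie P Q k A' Y' t' V' - lie P Q k A' Y' t' V' * lie P Q k A Y t V =
      lie P Q k (A * A' - A' * A)
        (fun j b => (Y j 0 * A' 0 b + Y j 1 * A' 1 b) - (Y' j 0 * A 0 b + Y' j 1 * A 1 b))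
        (fun e => t e * (A' 0 0 + A' 1 1) + k * (Y (P e) 1 * Y' (Q e) 0 - Y (P e) 0 * Y' (Q e) 1) -
          (t' e * (A 0 0 + A 1 1) + k * (Y' (P e) 1 * Y (Q e) 0 - Y' (P e) 0 * Y (Q e) 1)))
        (V * V' - V' * V) := by
  have hA : ∀ a b, (A * A' - A' * A) a b = A a 0 * A' 0 b + A a 1 * A' 1 b -
      (A' a 0 * A 0 b + A' a 1 * A 1 b) := fun a b => by
    rw [Matrix.sub_apply, Matrix.mul_apply, Matrix.mul_apply, Fin.sum_univ_two, Fin.sum_univ_two]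
  have hA1 : ∀ a b, (A * A') a b = A a 0 * A' 0 b + A a 1 * A' 1 b := fun a b => by
    rw [Matrix.mul_apply, Fin.sum_univ_two]
  have hA2 : ∀ a b, (A' * A) a b = A' a 0 * A 0 b + A' a 1 * A 1 b := fun a b => by
    rw [Matrix.mul_apply, Fin.sum_univ_two]
  have h : ∀ X Y : Matrix (BB ρ I ν) (BB ρ I ν) ℂ, X - Y = X + (-1 : ℂ) • Y := by
    intro X Y
    rw [neg_one_smul, sub_eq_add_neg]
  rw [h, lie_mul, lie_mul, bd_smul, bd_add]
  unfold lie
  simp only [b3_smul, b4_smul, b3_add, b4_add, hA, hA1, hA2]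
  congr 1
  · rw [neg_one_smul, sub_eq_add_neg]
  · funext j
    congr 1 <;> ring
  · funext e
    congr 1 <;> ring
  · rw [neg_one_smul, sub_eq_add_neg]

theorem lie_map (σ : ℂ →+* ℂ) (hk : σ k = k) (A : M2) (Y : Fin ρ → Fin 2 → ℂ) (t : I → ℂ)
    (V : Matrix ν ν ℂ) : (lie P Q k A Y t V).map σ =
      lie P Q k (A.map σ) (fun j b => σ (Y j b)) (fun e => σ (t e)) (V.map σ) := by
  unfold lie
  rw [bd_map _ _ _ _ _ (map_zero σ)]
  simp only [b3_map _ (map_zero σ), b4_map _ (map_zero σ), map_add, map_neg,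
    map_mul, hk, map_zero, Matrix.map_apply]

/-- the derivative of a point of the torsor -/
theorem lie_mul_mat (A X : M2) (l : ℂ) (hl : X 0 0 * X 1 1 - X 0 1 * X 1 0 = k * l)
    (Y U : Fin ρ → Fin 2 → ℂ) (t s : I → ℂ) (V W : Matrix ν ν ℂ) :
    lie P Q k A Y t V * mat P Q X l U s W =
      bd (A * X)
        (fun j => b3 ((A * X) 0 0) ((A * X) 0 1) ((A * X) 1 0) ((A * X) 1 1)
          (Y j 0 * X 0 0 + Y j 1 * X 1 0) (Y j 0 * X 0 1 + Y j 1 * X 1 1) 0)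
        (fun e => b4 ((A 0 0 + A 1 1) * l)
          ((A * X) 0 1 * U (Q e) 0 - (A * X) 0 0 * U (Q e) 1 +
            (X 0 1 * (Y (Q e) 0 * X 0 0 + Y (Q e) 1 * X 1 0) -
              X 0 0 * (Y (Q e) 0 * X 0 1 + Y (Q e) 1 * X 1 1)))
          ((A * X) 1 1 * U (Q e) 0 - (A * X) 1 0 * U (Q e) 1 +
            (X 1 1 * (Y (Q e) 0 * X 0 0 + Y (Q e) 1 * X 1 0) -
              X 1 0 * (Y (Q e) 0 * X 0 1 + Y (Q e) 1 * X 1 1)))
          ((A * X) 0 0) ((A * X) 0 1) ((A * X) 1 0) ((A * X) 1 1)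
          (t e * l + (Y (P e) 0 * (X 0 1 * U (Q e) 0 - X 0 0 * U (Q e) 1) +
            Y (P e) 1 * (X 1 1 * U (Q e) 0 - X 1 0 * U (Q e) 1)))
          (Y (P e) 0 * X 0 0 + Y (P e) 1 * X 1 0) (Y (P e) 0 * X 0 1 + Y (P e) 1 * X 1 1) 0)
        (V * W) := by
  have hA : ∀ a b, (A * X) a b = A a 0 * X 0 b + A a 1 * X 1 b := fun a b => by
    rw [Matrix.mul_apply, Fin.sum_univ_two]
  unfold lie mat
  rw [bd_mul]
  simp only [b3_mul, b4_mul, hA, zero_mul, add_zero]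
  congr 1
  funext e
  congr 1
  · linear_combination (Y (Q e) 1) * hl
  · linear_combination -(Y (Q e) 0) * hl
  · ring

end Pool.Agent.U100.FP
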