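import Pool.Agent.U100.FP.Alg

/-!
# The perfect part of the Lie algebra
-/

set_option autoImplicit false
set_option linter.unusedSectionVars false
set_option linter.unusedSimpArgs false

open Matrix

namespace Pool.Agent.U100.FP

open Pool.Agent.U725.OM (M2 fin2)

/-- An ideal of the Lie algebra of the 2 × 2 matrices with a nonscalar element contains all matrices of trace zero. -/
theorem ideal_sl (S : Submodule ℂ M2) (hS : ∀ A ∈ S, ∀ B : M2, A * B - B * A ∈ S)
    (hA : ∃ A ∈ S, ∀ c : ℂ, A ≠ c • (1 : M2)) (B : M2) (hB : B 0 0 + B 1 1 = 0) : B ∈ S := by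
  set E : M2 := !![0, 1; 0, 0] with hE
  set F : M2 := !![0, 0; 1, 0] with hF
  have hfin : ∀ X : M2, X = !![X 0 0, X 0 1; X 1 0, X 1 1] := fun X => Matrix.eta_fin_two X
  have hEorF : E ∈ S ∨ F ∈ S := by
    obtain ⟨A, hA, hs⟩ := hA
    have e1 := hS _ (hS A hA E) E
    have f1 := hS _ (hS A hA F) F
    have e2 : (A * E - E * A) * E - E * (A * E - E * A) = (-2 * A 1 0) • E := by
      rw [hE, hfin A]
      ext i j
      fin_cases i <;> fin_cases j <;> simp [Matrix.mul_apply, Fin.sum_univ_two]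
      ring
    have f2 : (A * F - F * A) * F - F * (A * F - F * A) = (-2 * A 0 1) • F := by
      rw [hF, hfin A]
      ext i j
      fin_cases i <;> fin_cases j <;> simp [Matrix.mul_apply, Fin.sum_univ_two]
      ring
    by_cases h10 : A 1 0 = 0
    · by_cases h01 : A 0 1 = 0
      · left
        have h3 := hS A hA E
        have h4 : A * E - E * A = (A 0 0 - A 1 1) • E := by
          rw [hE, hfin A]
          ext i j
          fin_cases i <;> fin_cases j <;> simp [Matrix.mul_apply, Fin.sum_univ_two, h10]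
        rw [h4] at h3
        have h5 : A 0 0 - A 1 1 ≠ 0 := by
          intro h0
          apply hs (A 0 0)
          rw [hfin A]
          ext i j
          fin_cases i <;> fin_cases j <;> simp [h10, h01]
          exact (sub_eq_zero.1 h0).symm
        exact (S.smul_mem_iff h5).1 h3
      · right
        rw [f2] at f1
        exact (S.smul_mem_iff (mul_ne_zero (by norm_num) h01)).1 f1
    · left
      rw [e2] at e1
      exact (S.smul_mem_iff (mul_ne_zero (by norm_num) h10)).1 e1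
  set H : M2 := !![1, 0; 0, -1] with hH
  have hEF : E * F - F * E = H := by
    rw [hE, hF, hH]
    ext i j
    fin_cases i <;> fin_cases j <;> simp [Matrix.mul_apply, Fin.sum_univ_two]
  have hHE : H * E - E * H = (2 : ℂ) • E := by
    rw [hE, hH]
    ext i j
    fin_cases i <;> fin_cases j <;> simp [Matrix.mul_apply, Fin.sum_univ_two]
    norm_num
  have hHF : H * F - F * H = (-2 : ℂ) • F := by
    rw [hF, hH]
    ext i j
    fin_cases i <;> fin_cases j <;> simp [Matrix.mul_apply, Fin.sum_univ_two]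
    norm_num
  have hH' : H ∈ S := by
    rcases hEorF with h1 | h1
    · rw [← hEF]
      exact hS _ h1 F
    · rw [← hEF, ← neg_sub]
      exact S.neg_mem (hS _ h1 E)
  have hE' : E ∈ S := by
    have h1 := hS _ hH' E
    rw [hHE] at h1
    exact (S.smul_mem_iff (by norm_num)).1 h1
  have hF' : F ∈ S := by
    have h1 := hS _ hH' F
    rw [hHF] at h1
    exact (S.smul_mem_iff (by norm_num)).1 h1
  have hdec : B = B 0 1 • E + B 1 0 • F + B 0 0 • H := by
    have h11 : B 1 1 = -B 0 0 := by linear_combination hB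
    conv_lhs => rw [hfin B]
    rw [hE, hF, hH]
    ext i j
    fin_cases i <;> fin_cases j <;> simp [h11]
  rw [hdec]
  exact S.add_mem (S.add_mem (S.smul_mem _ hE') (S.smul_mem _ hF')) (S.smul_mem _ hH')

variable {ρ : ℕ} {I ν : Type} [Fintype I] [DecidableEq I] [Fintype ν] [DecidableEq ν]
variable {P Q : I → Fin ρ} {k : ℂ} {K : Subfield ℂ}
variable {L : M2 → (Fin ρ → Fin 2 → ℂ) → (I → ℂ) → Matrix ν ν ℂ → Prop} {Ω : M2} {τ : ℂ}
  {U : Fin ρ → Fin 2 → ℂ} {N₀ : Matrix ν ν ℂ} (h : Alg K P Q k L Ω τ U N₀)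

include h

/-- the elements with the last block in `J` -/
def Alg.prj (h : Alg K P Q k L Ω τ U N₀) (J : Submodule ℂ (Matrix ν ν ℂ)) : Submodule ℂ M2 where
  carrier := {A | ∃ Y t V, V ∈ J ∧ L A Y t V}
  zero_mem' := ⟨0, 0, 0, J.zero_mem, h.zero⟩
  add_mem' := by
    rintro A A' ⟨Y, t, z, h0, h1⟩ ⟨Y', t', z', h0', h2⟩
    exact ⟨_, _, _, J.add_mem h0 h0', h.add h1 h2⟩
  smul_mem' := by
    rintro c A ⟨Y, t, z, h0, h1⟩
    exact ⟨_, _, _, J.smul_mem c h0, h.smul c h1⟩

/-- The first step. -/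
theorem Alg.prj_ideal {J : Submodule ℂ (Matrix ν ν ℂ)}
    (hJ : ∀ V ∈ J, ∀ A Y t V', L A Y t V' → V * V' - V' * V ∈ J)
    (hA : ∃ A ∈ h.prj J, ∀ c : ℂ, A ≠ c • (1 : M2)) (B : M2) (hB : B 0 0 + B 1 1 = 0) :
    B ∈ h.prj J := by
  refine ideal_sl (h.prj J) ?_ hA B hB
  rintro A ⟨Y, t, V, hV, h1⟩ A'
  obtain ⟨Y', t', V', h2⟩ := h.proj_all A'
  exact ⟨_, _, _, hJ V hV _ _ _ _ h2, h.br h1 h2⟩

/-- The derived algebras. -/
theorem Alg.prj_derived {J J' : Submodule ℂ (Matrix ν ν ℂ)}
    (hJ : ∀ V ∈ J, ∀ V' ∈ J, V * V' - V' * V ∈ J')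
    (hA : ∀ B : M2, B 0 0 + B 1 1 = 0 → B ∈ h.prj J) (B : M2) (hB : B 0 0 + B 1 1 = 0) :
    B ∈ h.prj J' := by
  have hbr : ∀ X X' : M2, X 0 0 + X 1 1 = 0 → X' 0 0 + X' 1 1 = 0 → X * X' - X' * X ∈ h.prj J' := by
    intro X X' hX hX'
    obtain ⟨Y, t, V, hV, h1⟩ := hA X hX
    obtain ⟨Y', t', V', hV', h2⟩ := hA X' hX'
    exact ⟨_, _, _, hJ V hV V' hV', h.br h1 h2⟩
  set E : M2 := !![0, 1; 0, 0] with hE
  set F : M2 := !![0, 0; 1, 0] with hF
  set H : M2 := !![1, 0; 0, -1] with hH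
  have tE : E 0 0 + E 1 1 = 0 := by simp [hE]
  have tF : F 0 0 + F 1 1 = 0 := by simp [hF]
  have tH : H 0 0 + H 1 1 = 0 := by simp [hH]
  have hEF : E * F - F * E = H := by
    rw [hE, hF, hH]
    ext i j
    fin_cases i <;> fin_cases j <;> simp [Matrix.mul_apply, Fin.sum_univ_two]
  have hHE : H * E - E * H = (2 : ℂ) • E := by
    rw [hE, hH]
    ext i j
    fin_cases i <;> fin_cases j <;> simp [Matrix.mul_apply, Fin.sum_univ_two]
    norm_num
  have hHF : H * F - F * H = (-2 : ℂ) • F := by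
    rw [hF, hH]
    ext i j
    fin_cases i <;> fin_cases j <;> simp [Matrix.mul_apply, Fin.sum_univ_two]
    norm_num
  have hE' : E ∈ h.prj J' := by
    have h1 := hbr H E tH tE
    rw [hHE] at h1
    exact ((h.prj J').smul_mem_iff (by norm_num)).1 h1
  have hF' : F ∈ h.prj J' := by
    have h1 := hbr H F tH tF
    rw [hHF] at h1
    exact ((h.prj J').smul_mem_iff (by norm_num)).1 h1
  have hH' : H ∈ h.prj J' := by
    rw [← hEF]
    exact hbr E F tE tF
  have hdec : B = B 0 1 • E + B 1 0 • F + B 0 0 • H := by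
    have h11 : B 1 1 = -B 0 0 := by linear_combination hB
    conv_lhs => rw [Matrix.eta_fin_two B]
    rw [hE, hF, hH]
    ext i j
    fin_cases i <;> fin_cases j <;> simp [h11]
  rw [hdec]
  exact Submodule.add_mem _ (Submodule.add_mem _ (Submodule.smul_mem _ _ hE')
    (Submodule.smul_mem _ _ hF')) (Submodule.smul_mem _ _ hH')

/-- The part of weight `-1`, with last block zero. -/
theorem Alg.one_zero (hA : ∀ B : M2, B 0 0 + B 1 1 = 0 → ∃ Y t, L B Y t 0)
    (Y : Fin ρ → Fin 2 → ℂ) : ∃ t, L 0 Y t 0 := by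
  obtain ⟨Y1, t1, h1⟩ := hA !![1, 0; 0, -1] (by simp)
  obtain ⟨t', V', h2⟩ := h.weight_one (fun j => ![-Y j 0, Y j 1])
  have h3 := h.br h1 h2
  rw [Matrix.mul_zero, Matrix.zero_mul, sub_zero, Matrix.zero_mul, Matrix.mul_zero, sub_zero] at h3
  have h4 : (fun (j : Fin ρ) (c : Fin 2) => (Y1 j 0 * (0 : M2) 0 c + Y1 j 1 * (0 : M2) 1 c) -
      ((![-Y j 0, Y j 1] : Fin 2 → ℂ) 0 * (!![1, 0; 0, -1] : M2) 0 c +
        (![-Y j 0, Y j 1] : Fin 2 → ℂ) 1 * (!![1, 0; 0, -1] : M2) 1 c)) = Y := by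
    funext j c
    fin_cases c <;> simp
  rw [h4] at h3
  exact ⟨_, h3⟩

/-- The part of weight `-2`, with last block zero. -/
theorem Alg.two_zero (hA : ∀ B : M2, B 0 0 + B 1 1 = 0 → ∃ Y t, L B Y t 0) (t : I → ℂ) :
    L 0 0 t 0 := by
  have hsingle : ∀ e : I, L 0 0 (Pi.single e 1) 0 := by
    intro e
    obtain ⟨t1, h1⟩ := h.one_zero hA (fun j => if j = P e then ![1, 0] else 0)
    obtain ⟨t2, h2⟩ := h.one_zero hA (fun j => if j = Q e then ![0, 1] else 0)
    have h3 := h.br h1 h2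
    rw [Matrix.zero_mul, sub_self] at h3
    set cc : ℂ := -(k * (1 + if P e = Q e then 1 else 0)) with hcc
    have hcc0 : cc ≠ 0 := by
      rw [hcc, neg_ne_zero]
      refine mul_ne_zero h.k0 ?_
      split_ifs
      · norm_num
      · norm_num
    have h4 := h.smul cc⁻¹ h3
    rw [smul_zero, Matrix.zero_mul, sub_self, smul_zero] at h4
    convert h4 using 1
    · funext j c
      simp
    · funext e'
      simp only [Matrix.zero_apply, add_zero, mul_zero, zero_add, Pi.smul_apply, smul_eq_mul]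
      by_cases he : e' = e
      · subst he
        rw [Pi.single_eq_same, eq_comm, inv_mul_eq_one₀ hcc0, hcc]
        by_cases hPQ : P e' = Q e'
        · simp [hPQ]
          ring
        · simp [hPQ, Ne.symm hPQ]
      · rw [Pi.single_eq_of_ne he, eq_comm]
        apply mul_eq_zero_of_right
        have n1 : ¬ (P e' = P e ∧ Q e' = Q e) := fun hh => he (h.inj _ _ (Or.inl hh))
        have n2 : ¬ (P e' = Q e ∧ Q e' = P e) := fun hh => he (h.inj _ _ (Or.inr hh))
        by_cases a1 : P e' = P e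
        · have a2 : Q e' ≠ Q e := fun hh => n1 ⟨a1, hh⟩
          by_cases a3 : P e' = Q e
          · have a4 : Q e' ≠ P e := fun hh => n2 ⟨a3, hh⟩
            simp [a2, a4]
          · simp [a2, a3]
        · by_cases a3 : P e' = Q e
          · have a4 : Q e' ≠ P e := fun hh => n2 ⟨a3, hh⟩
            simp [a1, a4]
          · simp [a1, a3]
  have hsum : t = ∑ e, t e • Pi.single e (1 : ℂ) := by
    funext e
    rw [Finset.sum_apply, Finset.sum_eq_single e]
    · simp
    · intro e' _ he'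
      simp [Pi.single_apply, he'.symm]
    · intro he
      exact absurd (Finset.mem_univ _) he
  rw [hsum]
  have key : ∀ S : Finset I, L 0 0 (∑ e ∈ S, t e • Pi.single e (1 : ℂ)) 0 := by
    intro S
    classical
    induction S using Finset.induction_on with
    | empty =>
      rw [Finset.sum_empty]
      exact h.zero
    | insert e S he ih =>
      rw [Finset.sum_insert he]
      have h5 := h.add (h.smul (t e) (hsingle e)) ih
      rw [smul_zero, smul_zero, smul_zero, add_zero, add_zero, add_zero] at h5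
      exact h5
  exact key Finset.univ

/-- **All elements of trace zero with last block zero.** -/
theorem Alg.perfect (hA : ∀ B : M2, B 0 0 + B 1 1 = 0 → ∃ Y t, L B Y t 0) (A : M2)
    (hA0 : A 0 0 + A 1 1 = 0) (Y : Fin ρ → Fin 2 → ℂ) (t : I → ℂ) : L A Y t 0 := by
  obtain ⟨Y1, t1, h1⟩ := hA A hA0
  obtain ⟨t2, h2⟩ := h.one_zero hA (Y - Y1)
  have h3 := h.add h1 h2
  rw [add_zero, add_sub_cancel, add_zero] at h3
  have h4 := h.add h3 (h.two_zero hA (t - (t1 + t2)))
  rw [add_zero, add_zero, add_sub_cancel, add_zero] at h4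
  exact h4

end Pool.Agent.U100.FP
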