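import Pool.Agent.U100.FP.Blk

/-!
# Automorphisms of `sl(2)` are inner
-/

set_option autoImplicit false
set_option linter.unusedSectionVars false
set_option linter.unusedSimpArgs false

open Matrix

namespace Pool.Agent.U100.FP

open Pool.Agent.U725.OM (M2 fin2)

/-- the standard matrices -/
def mE : M2 := !![0, 1; 0, 0]
/-- the standard matrices -/
def mF : M2 := !![0, 0; 1, 0]
/-- the standard matrices -/
def mH : M2 := !![1, 0; 0, -1]

theorem mEF : mE * mF - mF * mE = mH := by
  unfold mE mF mH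
  ext i j
  fin_cases i <;> fin_cases j <;> simp [Matrix.mul_apply, Fin.sum_univ_two]

theorem mHE : mH * mE - mE * mH = (2 : ℂ) • mE := by
  unfold mE mH
  ext i j
  fin_cases i <;> fin_cases j <;> simp [Matrix.mul_apply, Fin.sum_univ_two]
  norm_num

theorem mHF : mH * mF - mF * mH = (-2 : ℂ) • mF := by
  unfold mF mH
  ext i j
  fin_cases i <;> fin_cases j <;> simp [Matrix.mul_apply, Fin.sum_univ_two]
  norm_num

theorem dec_sl (B : M2) (hB : B 0 0 + B 1 1 = 0) : B = B 0 1 • mE + B 1 0 • mF + B 0 0 • mH := by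
  have h11 : B 1 1 = -B 0 0 := by linear_combination hB
  conv_lhs => rw [Matrix.eta_fin_two B]
  unfold mE mF mH
  ext i j
  fin_cases i <;> fin_cases j <;> simp [h11]

theorem anti (X Y : M2) (hX : X 0 0 + X 1 1 = 0) (hY : Y 0 0 + Y 1 1 = 0) :
    X * Y + Y * X = (X * Y).trace • (1 : M2) := by
  have hX' : X 1 1 = -X 0 0 := by linear_combination hX
  have hY' : Y 1 1 = -Y 0 0 := by linear_combination hY
  ext i j
  rw [Matrix.add_apply, Matrix.mul_apply, Matrix.mul_apply, Fin.sum_univ_two, Fin.sum_univ_two,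
    Matrix.trace_fin_two, Matrix.mul_apply, Matrix.mul_apply, Fin.sum_univ_two, Fin.sum_univ_two,
    Matrix.smul_apply, smul_eq_mul]
  fin_cases i <;> fin_cases j <;> simp [hX', hY'] <;> ring

/-- A triple of matrices of trace zero with the relations of the standard triple is conjugate to it. -/
theorem sl_triple (E F H : M2) (tE : E 0 0 + E 1 1 = 0) (tF : F 0 0 + F 1 1 = 0)
    (tH : H 0 0 + H 1 1 = 0) (hHE : H * E - E * H = (2 : ℂ) • E)
    (hHF : H * F - F * H = (-2 : ℂ) • F) (hEF : E * F - F * E = H) (hE : E ≠ 0) :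
    ∃ g : M2, g ≠ 0 ∧ E * g = g * mE ∧ F * g = g * mF ∧ H * g = g * mH := by
  have two : ∀ X : M2, (2 : ℂ) • X = X + X := fun X => two_smul ℂ X
  have h2 : (2 : ℂ) ≠ 0 := two_ne_zero
  -- the traces
  have key : ∀ (X : M2) (c : ℂ), c ≠ 0 → H * X - X * H = c • X → (X * X).trace = 0 ∧
      (H * X).trace = 0 := by
    intro X c hc hX
    have e1 : c • (X * X).trace = 0 := by
      rw [← Matrix.trace_smul, ← Matrix.smul_mul, ← hX, Matrix.sub_mul, Matrix.trace_sub,
        Matrix.mul_assoc, Matrix.mul_assoc, Matrix.trace_mul_comm H, Matrix.mul_assoc,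
        Matrix.trace_mul_comm X (X * H), Matrix.mul_assoc, Matrix.trace_mul_comm X (H * X),
        Matrix.mul_assoc, sub_eq_zero]
    have e2 : c • (H * X).trace = 0 := by
      rw [← Matrix.trace_smul, ← Matrix.mul_smul, ← hX, Matrix.mul_sub, Matrix.trace_sub,
        ← Matrix.mul_assoc, ← Matrix.mul_assoc, Matrix.trace_mul_comm (H * X) H, ← Matrix.mul_assoc,
        sub_self]
    exact ⟨(smul_eq_zero.1 e1).resolve_left hc, (smul_eq_zero.1 e2).resolve_left hc⟩
  obtain ⟨kE, kHE⟩ := key E 2 h2 hHE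
  obtain ⟨kF, kHF⟩ := key F (-2) (neg_ne_zero.2 h2) hHF
  have EE : E * E = 0 := by
    have h1 := anti E E tE tE
    rw [kE, zero_smul, ← two] at h1
    exact (smul_eq_zero.1 h1).resolve_left h2
  have FF : F * F = 0 := by
    have h1 := anti F F tF tF
    rw [kF, zero_smul, ← two] at h1
    exact (smul_eq_zero.1 h1).resolve_left h2
  have HE : H * E = E := by
    have h1 := anti H E tH tE
    rw [kHE, zero_smul] at h1
    have h3 : (2 : ℂ) • (H * E) = (2 : ℂ) • E := by
      rw [← hHE, two]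
      have : E * H = -(H * E) := by rw [eq_neg_iff_add_eq_zero, add_comm]; exact h1
      rw [this, sub_neg_eq_add]
    exact smul_right_injective _ h2 h3
  have HF : H * F = -F := by
    have h1 := anti H F tH tF
    rw [kHF, zero_smul] at h1
    have h3 : (2 : ℂ) • (H * F) = (2 : ℂ) • (-F) := by
      rw [smul_neg, ← neg_smul, ← hHF, two]
      have : F * H = -(H * F) := by rw [eq_neg_iff_add_eq_zero, add_comm]; exact h1
      rw [this, sub_neg_eq_add]
    exact smul_right_injective _ h2 h3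
  have FEF : F * (E * F) = F := by
    have h1 : E * F - H = F * E := by rw [← hEF]; abel
    rw [← Matrix.mul_assoc, ← h1, Matrix.sub_mul, Matrix.mul_assoc, FF, Matrix.mul_zero, HF,
      zero_sub, neg_neg]
  have hF0 : F ≠ 0 := by
    rintro rfl
    rw [Matrix.mul_zero, Matrix.zero_mul, sub_zero] at hEF
    rw [← hEF, Matrix.zero_mul, Matrix.mul_zero, sub_zero] at hHE
    exact hE ((smul_eq_zero.1 hHE.symm).resolve_left h2)
  obtain ⟨e, he⟩ : ∃ e : Fin 2, (fun i => F i e) ≠ 0 := by
    by_contra hcon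
    push Not at hcon
    apply hF0
    ext i j
    exact congrFun (hcon j) i
  -- the matrix with the columns `E F e` and `F e`
  obtain ⟨g, hg0, hg1⟩ : ∃ g : M2, (∀ i, g i 0 = (E * F) i e) ∧ ∀ i, g i 1 = F i e :=
    ⟨Matrix.of fun i j => if j = 0 then (E * F) i e else F i e, fun i => rfl, fun i => rfl⟩
  have hm : ∀ (X : M2) i j, (X * g) i j = X i 0 * g 0 j + X i 1 * g 1 j := fun X i j => by
    rw [Matrix.mul_apply, Fin.sum_univ_two]
  have hm' : ∀ (X : M2) i j, (g * X) i j = g i 0 * X 0 j + g i 1 * X 1 j := fun X i j => by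
    rw [Matrix.mul_apply, Fin.sum_univ_two]
  have hx : ∀ (X Z : M2) i, X i 0 * Z 0 e + X i 1 * Z 1 e = (X * Z) i e := fun X Z i => by
    rw [Matrix.mul_apply, Fin.sum_univ_two]
  refine ⟨g, ?_, ?_, ?_, ?_⟩
  · intro h0
    apply he
    funext i
    rw [← hg1, h0]
    rfl
  · ext i j
    rw [hm, hm']
    rcases fin2 j with rfl | rfl
    · rw [hg0, hg0, hx, ← Matrix.mul_assoc, EE, Matrix.zero_mul]
      simp [mE]
    · rw [hg1, hg1, hx, ← hg0]
      simp [mE]
  · ext i j
    rw [hm, hm']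
    rcases fin2 j with rfl | rfl
    · rw [hg0 0, hg0 1, hx, FEF, ← hg1]
      simp [mF]
    · rw [hg1 0, hg1 1, hx, FF]
      simp [mF]
  · ext i j
    rw [hm, hm']
    rcases fin2 j with rfl | rfl
    · rw [hg0 0, hg0 1, hx, ← Matrix.mul_assoc, HE, ← hg0]
      simp [mH]
    · rw [hg1 0, hg1 1, hx, HF, Matrix.neg_apply, ← hg1]
      simp [mH]

end Pool.Agent.U100.FP
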